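import Mathlib
import Pool.Agent.Lib_helper89.NN.Defs

/-! Definitions for the version with at most two 2-intervals per ground interval. -/

namespace Pool.Agent.Lib89.N2

open Pool.Agent.Lib89.NN

/-! ### the base instance -/

/-- the identity row with an additional edge `(0, 3)` -/
def neu : List (ℕ × ℕ) := [(0, 0), (0, 3), (1, 1), (2, 2), (3, 3)]

/-- the six row graphs of the four crossing gadgets (they act on complemented words) -/
def W2 : Bool → Bool → List (List (ℕ × ℕ))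
  | false, false => [[(0, 1), (1, 0), (2, 1), (2, 3), (3, 2)],
      [(0, 0), (1, 2), (2, 1), (3, 2), (3, 3)], [(0, 0), (1, 2), (2, 1), (3, 3)],
      [(0, 0), (1, 0), (1, 2), (2, 1), (3, 3)], [(0, 1), (1, 0), (2, 1), (2, 2), (3, 3)],
      [(0, 1), (1, 0), (2, 3), (3, 2)]]
  | true, false => [[(0, 0), (1, 0), (1, 2), (2, 3), (3, 1)],
      [(0, 0), (1, 1), (1, 3), (2, 2), (3, 3)], [(0, 0), (0, 2), (1, 1), (2, 2), (3, 3)],
      [(0, 1), (1, 3), (2, 0), (3, 2)], neu, idl]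
  | false, true => [[(0, 0), (1, 0), (1, 1), (2, 1), (3, 2)], [(0, 1), (1, 2), (2, 0), (3, 3)],
      [(0, 0), (1, 1), (1, 3), (2, 2)], [(0, 1), (1, 0), (2, 3), (3, 2)], neu, neu]
  | true, true => [[(0, 0), (1, 0), (2, 2), (3, 1)], [(0, 2), (1, 1), (2, 0), (3, 2)],
      neu, neu, neu, idl]

/-- the edges of row number `k` of a gadget -/
def gE2 (pos neg : Bool) (k : ℕ) : List (ℕ × ℕ) := (W2 pos neg).getD k idl

/-- `j` steps of the gadget, starting with row graph number `k`, on four points -/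
def Loc2 (pos neg : Bool) : ℕ → ℕ → List Bool → List Bool → Prop
  | _, 0, s, s' => s' = s
  | k, j + 1, s, s'' => ∃ s' : List Bool, s'.length = 4 ∧
      Step (fun a b => (a, b) ∈ gE2 pos neg k) s s' ∧ Loc2 pos neg (k + 1) j s' s''

/-- the edges of row number `k` of the gadget at clause `c` and variable `v` -/
def gRel2 (o : ℕ → ℕ → Bool → Prop) (c v k a b : ℕ) : Prop :=
  ∃ pos neg : Bool, (pos = true ↔ o c v true) ∧ (neg = true ↔ o c v false) ∧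
    (a, b) ∈ gE2 pos neg k

/-- `RowE2 V C o r p q`: point `p` of row `r` is adjacent to point `q` of row `r + 1`. As `RowE`,
but the gadget row is the second one of its three rows. -/
def RowE2 (V C : ℕ) (o : ℕ → ℕ → Bool → Prop) (r p q : ℕ) : Prop :=
  (r = 0 ∧ p < V + 1 ∧ (q = 2 * p ∨ q = 2 * p + 1)) ∨
  (r = nK V C ∧ q < V + 1 ∧ (p = 2 * q ∨ p = 2 * q + 1)) ∨
  ∃ c < C,
    (r = 1 + c * (18 * V + 2) ∧ q = p + 1 ∧ q < 2 * V + 2) ∨
    (r = 2 + c * (18 * V + 2) ∧ ((p = 0 ∧ q = 0) ∨ (1 ≤ p ∧ q = p + 1 ∧ q < 2 * V + 2))) ∨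
    ∃ v < V, ∃ k < 6,
      (r = 4 + c * (18 * V + 2) + 18 * v + 3 * k ∧
        ((p = q ∧ p < 2 * V + 2 ∧ (p < 2 * v ∨ 2 * v + 4 ≤ p)) ∨
          ∃ a < 4, ∃ b < 4, p = 2 * v + a ∧ q = 2 * v + b ∧ gRel2 o c v k a b)) ∨
      ((r = 3 + c * (18 * V + 2) + 18 * v + 3 * k ∨ r = 5 + c * (18 * V + 2) + 18 * v + 3 * k) ∧
        p = q ∧ p < 2 * V + 2)

/-- the row chains -/
def Chain2 (V C : ℕ) (o : ℕ → ℕ → Bool → Prop) (b : ℕ → List Bool) : Prop :=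
  (∀ r ≤ nK V C + 1, (b r).length = wd V C r) ∧ b 0 = List.replicate (wd V C 0) true ∧
    b (nK V C + 1) = List.replicate (wd V C (nK V C + 1)) false ∧
    ∀ r < nK V C + 1, Step (RowE2 V C o r) (b r) (b (r + 1))

/-! ### graphs in rows -/

/-- Row edges `(r, p, q)`: from point `p` of row `r` to point `q` of row `r + 1`. Two of them are
in conflict if they share a point or are nested. -/
def RConf (e f : ℕ × ℕ × ℕ) : Prop :=
  (e.1 = f.1 ∧ (e.2.1 = f.2.1 ∨ e.2.2 = f.2.2 ∨ (e.2.1 < f.2.1 ∧ f.2.2 < e.2.2) ∨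
    (f.2.1 < e.2.1 ∧ e.2.2 < f.2.2))) ∨
  (f.1 = e.1 + 1 ∧ e.2.2 = f.2.1) ∨ (e.1 = f.1 + 1 ∧ f.2.2 = e.2.1)

/-- conflict-free sets of row edges -/
def RFree (E : ℕ → ℕ → ℕ → Prop) (S : Finset (ℕ × ℕ × ℕ)) : Prop :=
  (∀ e ∈ S, E e.1 e.2.1 e.2.2) ∧ ∀ e ∈ S, ∀ f ∈ S, e ≠ f → ¬ RConf e f

/-- `(r, p, q)` is an edge and `q` is not the last neighbour of `p` in row `r + 1` -/
def Lo (E : ℕ → ℕ → ℕ → Prop) (r p q : ℕ) : Prop := E r p q ∧ ∃ q', q < q' ∧ E r p q'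

/-- `(r, p, q)` is an edge and `p` is not the first neighbour of `q` in row `r` -/
def Hi (E : ℕ → ℕ → ℕ → Prop) (r p q : ℕ) : Prop := E r p q ∧ ∃ p', p' < p ∧ E r p' q

/-- point `p` of row `r` has two neighbours in row `r + 1` and one in row `r - 1` -/
def L2 (E : ℕ → ℕ → ℕ → Prop) (r p : ℕ) : Prop :=
  (∃ q, Lo E r p q) ∧ ∃ r' u, r = r' + 1 ∧ E r' u p

/-- point `q` of row `r + 1` has two neighbours in row `r` and one in row `r + 2` -/
def R2 (E : ℕ → ℕ → ℕ → Prop) (r q : ℕ) : Prop :=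
  (∃ p, Hi E r p q) ∧ ∃ z, E (r + 1) q z

/-- row `r` has points of degree three -/
def Gen (E : ℕ → ℕ → ℕ → Prop) (r : ℕ) : Prop := (∃ p, L2 E r p) ∨ ∃ q, R2 E r q

/-- the points of degree three: `(true, r, p)` with `L2 E r p` and `(false, r, q)` with `R2 E r q` -/
def XL (E : ℕ → ℕ → ℕ → Prop) (x : Bool × ℕ × ℕ) : Prop :=
  (x.1 = true ∧ L2 E x.2.1 x.2.2) ∨ (x.1 = false ∧ R2 E x.2.1 x.2.2)

/-- The new instance: every point is replaced by five points, every edge by one main edge, and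
every point of degree three gives two additional edges. -/
def RowF (E : ℕ → ℕ → ℕ → Prop) (r P Q : ℕ) : Prop :=
  ∃ p q, E r p q ∧
    (((((L2 E r p ∧ Lo E r p q) ∧ P = 5 * p + 3) ∨ (¬ (L2 E r p ∧ Lo E r p q) ∧ P = 5 * p + 2)) ∧
      (((R2 E r q ∧ Hi E r p q) ∧ Q = 5 * q + 1) ∨
        (¬ (R2 E r q ∧ Hi E r p q) ∧ Q = 5 * q + 2))) ∨
    (L2 E (r + 1) q ∧ P = 5 * p + 3 ∧ Q = 5 * q + 1) ∨
    (L2 E r p ∧ Lo E r p q ∧ P = 5 * p + 1 ∧ Q = 5 * q + 4) ∨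
    (R2 E r q ∧ Hi E r p q ∧ P = 5 * p ∧ Q = 5 * q + 3) ∨
    ((∃ r', r = r' + 1 ∧ R2 E r' p) ∧ P = 5 * p + 3 ∧ Q = 5 * q + 1))

/-- the conditions on the base instance -/
structure Adm (E : ℕ → ℕ → ℕ → Prop) : Prop where
  f2 : ∀ r p a b c, E r p a → E r p b → E r p c → a = b ∨ b = c ∨ a = c
  b2 : ∀ r q a b c, E r a q → E r b q → E r c q → a = b ∨ b = c ∨ a = c
  g0 : ¬ Gen E 0
  idb : ∀ r, Gen E (r + 1) → ∀ p q, E r p q → p = q
  idf : ∀ r, Gen E r → ∀ p q, E (r + 1) p q → p = q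
  sep : ∀ r, Gen E r → ¬ Gen E (r + 2)
  lo : ∀ r p q, L2 E r p → Lo E r p q → ∀ p' q', E r p' q' →
    (p' < p → q' ≤ q) ∧ (p < p' → q < q')
  hi : ∀ r p q, R2 E r q → Hi E r p q → ∀ p' q', E r p' q' →
    (q < q' → p ≤ p') ∧ (q' < q → p' < p)

/-! ### the graphs -/

/-- directed adjacency of vertices of the base graph -/
def DAdjB (V C : ℕ) (o : ℕ → ℕ → Bool → Prop) (u v : ℕ) : Prop :=
  ∃ r < nK V C + 1, ∃ p < 2 * V + 2, ∃ q < 2 * V + 2,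
    u = off V r + p ∧ v = off V (r + 1) + q ∧ RowE2 V C o r p q

/-- the base graph -/
def baseGraph (V C : ℕ) (o : ℕ → ℕ → Bool → Prop) : SimpleGraph (Fin (nV V C)) where
  Adj u v := u ≠ v ∧ (DAdjB V C o u v ∨ DAdjB V C o v u)
  symm := ⟨fun _ _ h => ⟨h.1.symm, h.2.symm⟩⟩
  loopless := ⟨fun _ h => h.1 rfl⟩

/-- directed adjacency of vertices of the new graph -/
def DAdjN (V C : ℕ) (o : ℕ → ℕ → Bool → Prop) (u v : ℕ) : Prop :=
  ∃ r < nK V C + 1, ∃ P < 5 * (2 * V + 2), ∃ Q < 5 * (2 * V + 2),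
    u = 5 * off V r + P ∧ v = 5 * off V (r + 1) + Q ∧ RowF (RowE2 V C o) r P Q

/-- the new graph -/
def newGraph (V C : ℕ) (o : ℕ → ℕ → Bool → Prop) : SimpleGraph (Fin (5 * nV V C)) where
  Adj u v := u ≠ v ∧ (DAdjN V C o u v ∨ DAdjN V C o v u)
  symm := ⟨fun _ _ h => ⟨h.1.symm, h.2.symm⟩⟩
  loopless := ⟨fun _ h => h.1 rfl⟩

/-- the threshold -/
def thr (V C : ℕ) : ℕ := (nK V C + 1) * (V + 1) + 8 * (C * V)

end Pool.Agent.Lib89.N2
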