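import Mathlib
import Pool.Agent.Lib_helper89.N2.Defs

/-! Facts from `Adm`. -/

namespace Pool.Agent.Lib89.N2

open Pool.Agent.Lib89.NN

open Classical in
/-- the main edge of an edge -/
noncomputable def phi (E : ℕ → ℕ → ℕ → Prop) (e : ℕ × ℕ × ℕ) : ℕ × ℕ × ℕ :=
  (e.1, (if L2 E e.1 e.2.1 ∧ Lo E e.1 e.2.1 e.2.2 then 5 * e.2.1 + 3 else 5 * e.2.1 + 2),
    (if R2 E e.1 e.2.2 ∧ Hi E e.1 e.2.1 e.2.2 then 5 * e.2.2 + 1 else 5 * e.2.2 + 2))

open Classical in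
/-- the lower neighbour -/
noncomputable def loq (E : ℕ → ℕ → ℕ → Prop) (r p : ℕ) : ℕ :=
  if h : ∃ q, Lo E r p q then h.choose else 0

open Classical in
/-- the higher neighbour -/
noncomputable def hip (E : ℕ → ℕ → ℕ → Prop) (r q : ℕ) : ℕ :=
  if h : ∃ p, Hi E r p q then h.choose else 0

/-- the identity edge at a point of degree three -/
def e0 (x : Bool × ℕ × ℕ) : ℕ × ℕ × ℕ :=
  if x.1 then (x.2.1 - 1, x.2.2, x.2.2) else (x.2.1 + 1, x.2.2, x.2.2)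

/-- the separated edge at a point of degree three -/
noncomputable def gg (E : ℕ → ℕ → ℕ → Prop) (x : Bool × ℕ × ℕ) : ℕ × ℕ × ℕ :=
  if x.1 then (x.2.1, x.2.2, loq E x.2.1 x.2.2) else (x.2.1, hip E x.2.1 x.2.2, x.2.2)

/-- first additional edge -/
def AA (x : Bool × ℕ × ℕ) : ℕ × ℕ × ℕ :=
  if x.1 then (x.2.1 - 1, 5 * x.2.2 + 3, 5 * x.2.2 + 1)
    else (x.2.1 + 1, 5 * x.2.2 + 3, 5 * x.2.2 + 1)

/-- second additional edge -/
noncomputable def BB (E : ℕ → ℕ → ℕ → Prop) (x : Bool × ℕ × ℕ) : ℕ × ℕ × ℕ :=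
  if x.1 then (x.2.1, 5 * x.2.2 + 1, 5 * loq E x.2.1 x.2.2 + 4)
    else (x.2.1, 5 * hip E x.2.1 x.2.2, 5 * x.2.2 + 3)

section
variable {E : ℕ → ℕ → ℕ → Prop} (hA : Adm E)
include hA

theorem gen_pos {r : ℕ} (h : Gen E r) : 1 ≤ r := by
  rcases Nat.eq_zero_or_pos r with h0 | h0
  · subst h0
    exact absurd h hA.g0
  · exact h0

theorem gen_succ {r : ℕ} (h : Gen E r) : ¬ Gen E (r + 1) := by
  intro h1
  have hid := hA.idb r h1
  rcases h with ⟨p, ⟨⟨q, hq, q', hlt, hq'⟩, _⟩⟩ | ⟨q, ⟨⟨p, hp, p', hlt, hp'⟩, _⟩⟩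
  · have a1 := hid _ _ hq
    have a2 := hid _ _ hq'
    omega
  · have a1 := hid _ _ hp
    have a2 := hid _ _ hp'
    omega

theorem gen_two {r : ℕ} (h : Gen E (r + 2)) : ¬ Gen E r := fun h' => hA.sep r h' h

theorem lo_unique {r p q q' : ℕ} (h : Lo E r p q) (h' : Lo E r p q') : q = q' := by
  obtain ⟨h1, s, hs, h2⟩ := h
  obtain ⟨h3, s', hs', h4⟩ := h'
  by_contra hne
  rcases hA.f2 r p q q' s h1 h3 h2 with h5 | h5 | h5
  · exact hne h5
  · subst h5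
    rcases hA.f2 r p q q' s' h1 h3 h4 with h6 | h6 | h6 <;> omega
  · omega

theorem hi_unique {r p p' q : ℕ} (h : Hi E r p q) (h' : Hi E r p' q) : p = p' := by
  obtain ⟨h1, s, hs, h2⟩ := h
  obtain ⟨h3, s', hs', h4⟩ := h'
  by_contra hne
  rcases hA.b2 r q p p' s h1 h3 h2 with h5 | h5 | h5
  · exact hne h5
  · subst h5
    rcases hA.b2 r q p p' s' h1 h3 h4 with h6 | h6 | h6 <;> omega
  · omega

omit hA in
theorem loq_spec' {r p : ℕ} (h : L2 E r p) : Lo E r p (loq E r p) := by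
  unfold loq
  rw [dif_pos h.1]
  exact h.1.choose_spec

omit hA in
theorem hip_spec' {r q : ℕ} (h : R2 E r q) : Hi E r (hip E r q) q := by
  unfold hip
  rw [dif_pos h.1]
  exact h.1.choose_spec

theorem loq_spec {r p : ℕ} (h : L2 E r p) : Lo E r p (loq E r p) := loq_spec' h

theorem hip_spec {r q : ℕ} (h : R2 E r q) : Hi E r (hip E r q) q := hip_spec' h

theorem left_id {r p : ℕ} (h : L2 E (r + 1) p) : E r p p ∧ ∀ u, E r u p → u = p := by
  obtain ⟨_, r', u, hr, hu⟩ := id h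
  have hr' : r' = r := by omega
  subst hr'
  have hid := hA.idb r' (Or.inl ⟨p, h⟩)
  have := hid _ _ hu
  subst this
  exact ⟨hu, fun v hv => hid _ _ hv⟩

theorem right_id {r q : ℕ} (h : R2 E r q) : E (r + 1) q q ∧ ∀ z, E (r + 1) q z → z = q := by
  obtain ⟨_, z, hz⟩ := id h
  have hid := hA.idf r (Or.inr ⟨q, h⟩)
  have := hid _ _ hz
  subst this
  exact ⟨hz, fun v hv => (hid _ _ hv).symm⟩

end

end Pool.Agent.Lib89.N2
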