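import Mathlib
import Pool.Agent.Lib_helper89.NN.Main
import Pool.Agent.Lib_helper89.N2.Defs

/-! # Block RW2: the rows -/

namespace Pool.Agent.Lib89.N2

open Pool.Agent.Lib89.NN Pool.Agent.Lib89.N2

variable {V C : ℕ} {o : ℕ → ℕ → Bool → Prop}

private theorem RW_key {V c c' t t' : ℕ} (ht : t < 18 * V + 2) (ht' : t' < 18 * V + 2)
    (h : c * (18 * V + 2) + t = c' * (18 * V + 2) + t') : c = c' ∧ t = t' := by
  have h1 : c = c' := by
    rcases lt_trichotomy c c' with hlt | heq | hgt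
    · exfalso
      have h2 : (c + 1) * (18 * V + 2) ≤ c' * (18 * V + 2) := Nat.mul_le_mul_right _ hlt
      rw [add_mul, one_mul] at h2
      omega
    · exact heq
    · exfalso
      have h2 : (c' + 1) * (18 * V + 2) ≤ c * (18 * V + 2) := Nat.mul_le_mul_right _ hgt
      rw [add_mul, one_mul] at h2
      omega
  subst h1
  exact ⟨rfl, by omega⟩

private theorem RW_c {c t : ℕ} (hc : c < C) (ht : t < 18 * V + 2) (p q : ℕ) :
    RowE2 V C o (1 + (c * (18 * V + 2) + t)) p q ↔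
      (t = 0 ∧ q = p + 1 ∧ q < 2 * V + 2) ∨
      (t = 1 ∧ ((p = 0 ∧ q = 0) ∨ (1 ≤ p ∧ q = p + 1 ∧ q < 2 * V + 2))) ∨
      ∃ v < V, ∃ k < 6,
        (t = 3 + 18 * v + 3 * k ∧
          ((p = q ∧ p < 2 * V + 2 ∧ (p < 2 * v ∨ 2 * v + 4 ≤ p)) ∨
            ∃ a < 4, ∃ b < 4, p = 2 * v + a ∧ q = 2 * v + b ∧ gRel2 o c v k a b)) ∨
        ((t = 2 + 18 * v + 3 * k ∨ t = 4 + 18 * v + 3 * k) ∧ p = q ∧ p < 2 * V + 2) := by
  unfold RowE2 nK
  constructor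
  · rintro (⟨h, _⟩ | ⟨h, _⟩ | ⟨c', hc', ⟨h, h2⟩ | ⟨h, h2⟩ | ⟨v, hv, k, hk, ⟨h, h2⟩ | ⟨h | h, h2⟩⟩⟩)
    · omega
    · exfalso
      have := RW_key (V := V) (c := c) (c' := C) (t := t) (t' := 0) ht (by omega) (by omega)
      omega
    · have := RW_key (V := V) (c := c) (c' := c') (t := t) (t' := 0) ht (by omega) (by omega)
      exact Or.inl ⟨this.2, h2⟩
    · have := RW_key (V := V) (c := c) (c' := c') (t := t) (t' := 1) ht (by omega) (by omega)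
      exact Or.inr (Or.inl ⟨this.2, h2⟩)
    · have := RW_key (V := V) (c := c) (c' := c') (t := t) (t' := 3 + 18 * v + 3 * k) ht (by omega)
        (by omega)
      obtain ⟨e1, e2⟩ := this
      subst e1
      exact Or.inr (Or.inr ⟨v, hv, k, hk, Or.inl ⟨e2, h2⟩⟩)
    · have := RW_key (V := V) (c := c) (c' := c') (t := t) (t' := 2 + 18 * v + 3 * k) ht (by omega)
        (by omega)
      exact Or.inr (Or.inr ⟨v, hv, k, hk, Or.inr ⟨Or.inl this.2, h2⟩⟩)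
    · have := RW_key (V := V) (c := c) (c' := c') (t := t) (t' := 4 + 18 * v + 3 * k) ht (by omega)
        (by omega)
      exact Or.inr (Or.inr ⟨v, hv, k, hk, Or.inr ⟨Or.inr this.2, h2⟩⟩)
  · rintro (⟨h, h2⟩ | ⟨h, h2⟩ | ⟨v, hv, k, hk, ⟨h, h2⟩ | ⟨h | h, h2⟩⟩)
    · exact Or.inr (Or.inr ⟨c, hc, Or.inl ⟨by omega, h2⟩⟩)
    · exact Or.inr (Or.inr ⟨c, hc, Or.inr (Or.inl ⟨by omega, h2⟩)⟩)
    · exact Or.inr (Or.inr ⟨c, hc, Or.inr (Or.inr ⟨v, hv, k, hk, Or.inl ⟨by omega, h2⟩⟩)⟩)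
    · exact Or.inr (Or.inr ⟨c, hc, Or.inr (Or.inr ⟨v, hv, k, hk, Or.inr ⟨Or.inl (by omega), h2⟩⟩)⟩)
    · exact Or.inr (Or.inr ⟨c, hc, Or.inr (Or.inr ⟨v, hv, k, hk, Or.inr ⟨Or.inr (by omega), h2⟩⟩)⟩)

theorem rowE2_start (p q : ℕ) : RowE2 V C o 0 p q ↔ p < V + 1 ∧ (q = 2 * p ∨ q = 2 * p + 1) := by
  unfold RowE2 nK
  constructor
  · rintro (⟨_, h⟩ | ⟨h, _⟩ | ⟨c', hc', ⟨h, h2⟩ | ⟨h, h2⟩ | ⟨v, hv, k, hk, ⟨h, h2⟩ | ⟨h | h, h2⟩⟩⟩)
    · exact h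
    all_goals exfalso; omega
  · exact fun h => Or.inl ⟨rfl, h⟩

theorem rowE2_end (p q : ℕ) :
    RowE2 V C o (nK V C) p q ↔ q < V + 1 ∧ (p = 2 * q ∨ p = 2 * q + 1) := by
  unfold RowE2 nK
  constructor
  · rintro (⟨h, _⟩ | ⟨_, h⟩ | ⟨c', hc', ⟨h, h2⟩ | ⟨h, h2⟩ | ⟨v, hv, k, hk, ⟨h, h2⟩ | ⟨h | h, h2⟩⟩⟩)
    · exfalso; omega
    · exact h
    · exfalso
      have := RW_key (V := V) (c := C) (c' := c') (t := 0) (t' := 0) (by omega) (by omega) (by omega)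
      omega
    · exfalso
      have := RW_key (V := V) (c := C) (c' := c') (t := 0) (t' := 1) (by omega) (by omega) (by omega)
      omega
    · exfalso
      have := RW_key (V := V) (c := C) (c' := c') (t := 0) (t' := 3 + 18 * v + 3 * k) (by omega)
        (by omega) (by omega)
      omega
    · exfalso
      have := RW_key (V := V) (c := C) (c' := c') (t := 0) (t' := 2 + 18 * v + 3 * k) (by omega)
        (by omega) (by omega)
      omega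
    · exfalso
      have := RW_key (V := V) (c := C) (c' := c') (t := 0) (t' := 4 + 18 * v + 3 * k) (by omega)
        (by omega) (by omega)
      omega
  · exact fun h => Or.inr (Or.inl ⟨rfl, h⟩)

theorem rowE2_sh1 {c : ℕ} (hc : c < C) (p q : ℕ) :
    RowE2 V C o (1 + c * (18 * V + 2)) p q ↔ q = p + 1 ∧ q < 2 * V + 2 := by
  have e : 1 + c * (18 * V + 2) = 1 + (c * (18 * V + 2) + 0) := by omega
  rw [e, RW_c hc (by omega)]
  constructor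
  · rintro (⟨_, h⟩ | ⟨h, _⟩ | ⟨v, hv, k, hk, ⟨h, _⟩ | ⟨h | h, _⟩⟩)
    · exact h
    all_goals exfalso; omega
  · exact fun h => Or.inl ⟨rfl, h⟩

theorem rowE2_sh2 {c : ℕ} (hc : c < C) (p q : ℕ) :
    RowE2 V C o (2 + c * (18 * V + 2)) p q ↔
      (p = 0 ∧ q = 0) ∨ (1 ≤ p ∧ q = p + 1 ∧ q < 2 * V + 2) := by
  have e : 2 + c * (18 * V + 2) = 1 + (c * (18 * V + 2) + 1) := by omega
  rw [e, RW_c hc (by omega)]
  constructor
  · rintro (⟨h, _⟩ | ⟨_, h⟩ | ⟨v, hv, k, hk, ⟨h, _⟩ | ⟨h | h, _⟩⟩)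
    · exfalso; omega
    · exact h
    all_goals exfalso; omega
  · exact fun h => Or.inr (Or.inl ⟨rfl, h⟩)

theorem rowE2_gen {c v k : ℕ} (hc : c < C) (hv : v < V) (hk : k < 6) (p q : ℕ) :
    RowE2 V C o (4 + c * (18 * V + 2) + 18 * v + 3 * k) p q ↔
      (p = q ∧ p < 2 * V + 2 ∧ (p < 2 * v ∨ 2 * v + 4 ≤ p)) ∨
        ∃ a < 4, ∃ b < 4, p = 2 * v + a ∧ q = 2 * v + b ∧ gRel2 o c v k a b := by
  have e : 4 + c * (18 * V + 2) + 18 * v + 3 * k =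
      1 + (c * (18 * V + 2) + (3 + 18 * v + 3 * k)) := by omega
  rw [e, RW_c hc (by omega)]
  constructor
  · rintro (⟨h, _⟩ | ⟨h, _⟩ | ⟨v', hv', k', hk', ⟨h, h2⟩ | ⟨h | h, _⟩⟩)
    · exfalso; omega
    · exfalso; omega
    · have e1 : v' = v := by omega
      have e2 : k' = k := by omega
      subst e1; subst e2
      exact h2
    all_goals exfalso; omega
  · exact fun h => Or.inr (Or.inr ⟨v, hv, k, hk, Or.inl ⟨rfl, h⟩⟩)

theorem rowE2_id1 {c v k : ℕ} (hc : c < C) (hv : v < V) (hk : k < 6) (p q : ℕ) :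
    RowE2 V C o (3 + c * (18 * V + 2) + 18 * v + 3 * k) p q ↔ p = q ∧ p < 2 * V + 2 := by
  have e : 3 + c * (18 * V + 2) + 18 * v + 3 * k =
      1 + (c * (18 * V + 2) + (2 + 18 * v + 3 * k)) := by omega
  rw [e, RW_c hc (by omega)]
  constructor
  · rintro (⟨h, _⟩ | ⟨h, _⟩ | ⟨v', hv', k', hk', ⟨h, _⟩ | ⟨h | h, h2⟩⟩)
    · exfalso; omega
    · exfalso; omega
    · exfalso; omega
    · exact h2
    · exact h2
  · exact fun h => Or.inr (Or.inr ⟨v, hv, k, hk, Or.inr ⟨Or.inl rfl, h⟩⟩)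

theorem rowE2_id2 {c v k : ℕ} (hc : c < C) (hv : v < V) (hk : k < 6) (p q : ℕ) :
    RowE2 V C o (5 + c * (18 * V + 2) + 18 * v + 3 * k) p q ↔ p = q ∧ p < 2 * V + 2 := by
  have e : 5 + c * (18 * V + 2) + 18 * v + 3 * k =
      1 + (c * (18 * V + 2) + (4 + 18 * v + 3 * k)) := by omega
  rw [e, RW_c hc (by omega)]
  constructor
  · rintro (⟨h, _⟩ | ⟨h, _⟩ | ⟨v', hv', k', hk', ⟨h, _⟩ | ⟨h | h, h2⟩⟩)
    · exfalso; omega
    · exfalso; omega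
    · exfalso; omega
    · exact h2
    · exact h2
  · exact fun h => Or.inr (Or.inr ⟨v, hv, k, hk, Or.inr ⟨Or.inr rfl, h⟩⟩)

end Pool.Agent.Lib89.N2
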