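import Mathlib
import Pool.Agent.Lib_helper89.NN.Main
import Pool.Agent.Lib_helper89.N2.RW2
import Pool.Agent.Lib_helper89.N2.AF

/-! Block AD: the base instance is admissible. -/

namespace Pool.Agent.Lib89.N2

open Pool.Agent.Lib57 Pool.Agent.Lib89.NN Pool.Agent.Lib89.N2

variable {V C : ℕ} {o : ℕ → ℕ → Bool → Prop}

private theorem d_fwd : ∀ pos neg : Bool, ∀ k < 6, ∀ e ∈ gE2 pos neg k, ∀ f ∈ gE2 pos neg k,
    ∀ g ∈ gE2 pos neg k, e.1 = f.1 → e.1 = g.1 → e.2 = f.2 ∨ f.2 = g.2 ∨ e.2 = g.2 := by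
  decide +kernel

private theorem d_bwd : ∀ pos neg : Bool, ∀ k < 6, ∀ e ∈ gE2 pos neg k, ∀ f ∈ gE2 pos neg k,
    ∀ g ∈ gE2 pos neg k, e.2 = f.2 → e.2 = g.2 → e.1 = f.1 ∨ f.1 = g.1 ∨ e.1 = g.1 := by
  decide +kernel

private theorem d_lo : ∀ pos neg : Bool, ∀ k < 6, ∀ e ∈ gE2 pos neg k, ∀ f ∈ gE2 pos neg k,
    ∀ g ∈ gE2 pos neg k, e.1 = f.1 → e.2 < f.2 → (g.1 < e.1 → g.2 ≤ e.2) ∧
      (e.1 < g.1 → e.2 < g.2) := by
  decide +kernel

private theorem d_hi : ∀ pos neg : Bool, ∀ k < 6, ∀ e ∈ gE2 pos neg k, ∀ f ∈ gE2 pos neg k,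
    ∀ g ∈ gE2 pos neg k, e.2 = f.2 → f.1 < e.1 → (e.2 < g.2 → e.1 ≤ g.1) ∧
      (g.2 < e.2 → g.1 < e.1) := by
  decide +kernel

private def GR (V C r : ℕ) : Prop :=
  ∃ c < C, ∃ v < V, ∃ k < 6, r = 4 + c * (18 * V + 2) + 18 * v + 3 * k

open Classical in
private theorem gRel2_iff (c v k a b : ℕ) : gRel2 o c v k a b ↔
    (a, b) ∈ gE2 (decide (o c v true)) (decide (o c v false)) k := by
  constructor
  · rintro ⟨pos, neg, h1, h2, h⟩
    have e1 : pos = decide (o c v true) := by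
      rw [Bool.eq_iff_iff, decide_eq_true_eq]; exact h1
    have e2 : neg = decide (o c v false) := by
      rw [Bool.eq_iff_iff, decide_eq_true_eq]; exact h2
    rw [← e1, ← e2]; exact h
  · intro h
    exact ⟨_, _, decide_eq_true_iff, decide_eq_true_iff, h⟩

private theorem row_lt {c : ℕ} (hc : c < C) : c * (18 * V + 2) + (18 * V + 2) + 1 ≤ nK V C := by
  unfold nK
  have h : (c + 1) * (18 * V + 2) ≤ C * (18 * V + 2) := Nat.mul_le_mul_right _ hc
  have e : (c + 1) * (18 * V + 2) = c * (18 * V + 2) + (18 * V + 2) := by ring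
  omega

private theorem bound {r p q : ℕ} (h : RowE2 V C o r p q) : r < nK V C + 1 := by
  rcases h with ⟨rfl, -⟩ | ⟨rfl, -⟩ | ⟨c, hc, h⟩
  · omega
  · omega
  · have hn := row_lt (V := V) hc
    rcases h with ⟨rfl, -⟩ | ⟨rfl, -⟩ | ⟨v, hv, k, hk, h⟩
    · omega
    · omega
    · rcases h with ⟨rfl, -⟩ | ⟨h', -⟩
      · omega
      · omega

/-- all rows which are not gadget rows -/
private theorem plain {r p q p' q' : ℕ} (hr : ¬ GR V C r) (h : RowE2 V C o r p q)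
    (h' : RowE2 V C o r p' q') :
    (p = p' → r ≠ 0 → q = q') ∧ (q = q' → r ≠ nK V C → p = p') := by
  rcases row_cases (bound h) with rfl | rfl | ⟨c, hc, rfl | rfl | ⟨v, hv, k, hk, h3 | h3 | h3⟩⟩
  · rw [rowE2_start] at h h'
    exact ⟨fun _ h0 => absurd rfl h0, fun _ _ => by omega⟩
  · rw [rowE2_end] at h h'
    exact ⟨fun _ _ => by omega, fun _ h0 => absurd rfl h0⟩
  · rw [rowE2_sh1 hc] at h h'
    exact ⟨fun _ _ => by omega, fun _ _ => by omega⟩
  · rw [rowE2_sh2 hc] at h h'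
    exact ⟨fun _ _ => by omega, fun _ _ => by omega⟩
  · subst h3
    rw [rowE2_id1 hc hv hk] at h h'
    exact ⟨fun _ _ => by omega, fun _ _ => by omega⟩
  · exact absurd ⟨c, hc, v, hv, k, hk, h3⟩ hr
  · subst h3
    rw [rowE2_id2 hc hv hk] at h h'
    exact ⟨fun _ _ => by omega, fun _ _ => by omega⟩

private theorem gen_GR {r : ℕ} (h : Gen (RowE2 V C o) r) : GR V C r := by
  by_contra hr
  rcases h with ⟨p, ⟨q, h1, q', h2, h3⟩, r', u, h4, h5⟩ | ⟨q, ⟨p, h1, p', h2, h3⟩, z, h5⟩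
  · have := (plain hr h1 h3).1 rfl (by omega)
    omega
  · have hK : r ≠ nK V C := by
      have := bound h5
      omega
    have := (plain hr h1 h3).2 rfl hK
    omega

/-- the gadget rows -/
private theorem gad {c v k : ℕ} (hc : c < C) (hv : v < V) (hk : k < 6) {p q : ℕ}
    (h : RowE2 V C o (4 + c * (18 * V + 2) + 18 * v + 3 * k) p q) :
    (p = q ∧ (p < 2 * v ∨ 2 * v + 4 ≤ p)) ∨ ∃ a b, p = 2 * v + a ∧ q = 2 * v + b ∧ a < 4 ∧ b < 4 ∧
      gRel2 o c v k a b := by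
  rw [rowE2_gen hc hv hk] at h
  rcases h with ⟨h1, h2, h3⟩ | ⟨a, ha, b, hb, h1, h2, h3⟩
  · exact Or.inl ⟨h1, h3⟩
  · exact Or.inr ⟨a, b, h1, h2, ha, hb, h3⟩

private theorem sep' {r : ℕ} (h : GR V C r) : ¬ GR V C (r + 2) := by
  rintro ⟨c', hc', v', hv', k', hk', h'⟩
  obtain ⟨c, hc, v, hv, k, hk, h⟩ := h
  rcases lt_trichotomy c c' with h1 | h1 | h1
  · have h2 : (c + 1) * (18 * V + 2) ≤ c' * (18 * V + 2) := Nat.mul_le_mul_right _ h1
    have e : (c + 1) * (18 * V + 2) = c * (18 * V + 2) + (18 * V + 2) := by ring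
    omega
  · subst h1
    omega
  · have h2 : (c' + 1) * (18 * V + 2) ≤ c * (18 * V + 2) := Nat.mul_le_mul_right _ h1
    have e : (c' + 1) * (18 * V + 2) = c' * (18 * V + 2) + (18 * V + 2) := by ring
    omega

theorem adm_base (hV : 1 ≤ V) (hC : 1 ≤ C) : Adm (RowE2 V C o) := by
  classical
  refine ⟨?_, ?_, ?_, ?_, ?_, ?_, ?_, ?_⟩
  · -- f2
    intro r p a b c ha hb hc'
    by_cases hr : GR V C r
    · obtain ⟨c₀, hc, v, hv, k, hk, rfl⟩ := hr
      rcases gad hc hv hk ha with ⟨h1, h2⟩ | ⟨a1, b1, h1, h2, h3, h4, h5⟩ <;>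
      rcases gad hc hv hk hb with ⟨i1, i2⟩ | ⟨a2, b2, i1, i2, i3, i4, i5⟩ <;>
      rcases gad hc hv hk hc' with ⟨j1, j2⟩ | ⟨a3, b3, j1, j2, j3, j4, j5⟩ <;>
      try omega
      rw [gRel2_iff] at h5 i5 j5
      have := d_fwd _ _ k hk _ h5 _ i5 _ j5 (by simp only; omega) (by simp only; omega)
      simp only at this
      omega
    · by_cases h0 : r = 0
      · subst h0
        rw [rowE2_start] at ha hb hc'
        omega
      · left
        exact (plain hr ha hb).1 rfl h0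
  · -- b2
    intro r q a b c ha hb hc'
    by_cases hr : GR V C r
    · obtain ⟨c₀, hc, v, hv, k, hk, rfl⟩ := hr
      rcases gad hc hv hk ha with ⟨h1, h2⟩ | ⟨a1, b1, h1, h2, h3, h4, h5⟩ <;>
      rcases gad hc hv hk hb with ⟨i1, i2⟩ | ⟨a2, b2, i1, i2, i3, i4, i5⟩ <;>
      rcases gad hc hv hk hc' with ⟨j1, j2⟩ | ⟨a3, b3, j1, j2, j3, j4, j5⟩ <;>
      try omega
      rw [gRel2_iff] at h5 i5 j5
      have := d_bwd _ _ k hk _ h5 _ i5 _ j5 (by simp only; omega) (by simp only; omega)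
      simp only at this
      omega
    · by_cases h0 : r = nK V C
      · subst h0
        rw [rowE2_end] at ha hb hc'
        omega
      · left
        exact (plain hr ha hb).2 rfl h0
  · intro h
    obtain ⟨c, hc, v, hv, k, hk, h⟩ := gen_GR h
    omega
  · intro r h p q hpq
    obtain ⟨c, hc, v, hv, k, hk, h⟩ := gen_GR h
    have e : r = 3 + c * (18 * V + 2) + 18 * v + 3 * k := by omega
    rw [e, rowE2_id1 hc hv hk] at hpq
    exact hpq.1
  · intro r h p q hpq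
    obtain ⟨c, hc, v, hv, k, hk, h⟩ := gen_GR h
    have e : r + 1 = 5 + c * (18 * V + 2) + 18 * v + 3 * k := by omega
    rw [e, rowE2_id2 hc hv hk] at hpq
    exact hpq.1
  · intro r h h'
    exact sep' (gen_GR h) (gen_GR h')
  · -- lo
    intro r p q hL hLo p' q' h'
    obtain ⟨c, hc, v, hv, k, hk, rfl⟩ := gen_GR (Or.inl ⟨p, hL⟩)
    obtain ⟨h1, q'', h2, h3⟩ := hLo
    rcases gad hc hv hk h1 with ⟨e1, e2⟩ | ⟨a1, b1, e1, e2, e3, e4, e5⟩ <;>
    rcases gad hc hv hk h3 with ⟨i1, i2⟩ | ⟨a2, b2, i1, i2, i3, i4, i5⟩ <;>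
    rcases gad hc hv hk h' with ⟨j1, j2⟩ | ⟨a3, b3, j1, j2, j3, j4, j5⟩ <;>
    try (constructor <;> intro <;> omega)
    rw [gRel2_iff] at e5 i5 j5
    have := d_lo _ _ k hk _ e5 _ i5 _ j5 (by simp only; omega) (by simp only; omega)
    simp only at this
    exact ⟨fun h => by have := this.1 (by omega); omega, fun h => by
      have := this.2 (by omega); omega⟩
  · -- hi
    intro r p q hR hHi p' q' h'
    obtain ⟨c, hc, v, hv, k, hk, rfl⟩ := gen_GR (Or.inr ⟨q, hR⟩)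
    obtain ⟨h1, q'', h2, h3⟩ := hHi
    rcases gad hc hv hk h1 with ⟨e1, e2⟩ | ⟨a1, b1, e1, e2, e3, e4, e5⟩ <;>
    rcases gad hc hv hk h3 with ⟨i1, i2⟩ | ⟨a2, b2, i1, i2, i3, i4, i5⟩ <;>
    rcases gad hc hv hk h' with ⟨j1, j2⟩ | ⟨a3, b3, j1, j2, j3, j4, j5⟩ <;>
    try (constructor <;> intro <;> omega)
    rw [gRel2_iff] at e5 i5 j5
    have := d_hi _ _ k hk _ e5 _ i5 _ j5 (by simp only; omega) (by simp only; omega)
    simp only at this
    exact ⟨fun h => by have := this.1 (by omega); omega, fun h => by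
      have := this.2 (by omega); omega⟩

end Pool.Agent.Lib89.N2
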