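import Mathlib
import Pool.Agent.Lib_helper89.NN.Main
import Pool.Agent.Lib_helper89.N2.Defs

/-! The crossing gadgets (N2). -/

namespace Pool.Agent.Lib89.N2

open Pool.Agent.Lib57 Pool.Agent.Lib89.NN

private def allW : List (List Bool) :=
  [false, true].flatMap fun a => [false, true].flatMap fun b =>
    [false, true].flatMap fun c => [false, true].flatMap fun d => [[a, b, c, d]]

private theorem mem_allW (s : List Bool) : s ∈ allW ↔ s.length = 4 := by
  constructor
  · intro h
    have : ∀ t ∈ allW, t.length = 4 := by decide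
    exact this s h
  · intro h
    match s, h with
    | [a, b, c, d], _ => revert a b c d; decide

private instance (L : List (ℕ × ℕ)) (s s' : List Bool) :
    Decidable (Step (fun a b => (a, b) ∈ L) s s') :=
  inferInstanceAs (Decidable (List.Forall₂ _ _ _))

private def next (L : List (ℕ × ℕ)) (s : List Bool) : List (List Bool) :=
  allW.filter (fun s' => decide (Step (fun a b => (a, b) ∈ L) s s'))

private def locL (pos neg : Bool) : ℕ → ℕ → List Bool → List (List Bool)
  | _, 0, s => [s]
  | k, j + 1, s => (next (gE2 pos neg k) s).flatMap (locL pos neg (k + 1) j)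

private theorem loc_iff (pos neg : Bool) (j : ℕ) : ∀ (k : ℕ) (s s' : List Bool),
    Loc2 pos neg k j s s' ↔ s' ∈ locL pos neg k j s := by
  induction j with
  | zero => intro k s s'; simp [Loc2, locL]
  | succ j ih =>
    intro k s s'
    simp only [Loc2, locL, List.mem_flatMap, next, List.mem_filter, mem_allW, decide_eq_true_eq]
    constructor
    · rintro ⟨t, h1, h2, h3⟩
      exact ⟨t, ⟨h1, h2⟩, (ih _ _ _).1 h3⟩
    · rintro ⟨t, ⟨h1, h2⟩, h3⟩
      exact ⟨t, h1, h2, (ih _ _ _).2 h3⟩

private theorem locL_fin : ∀ pos neg a x : Bool,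
    (∀ s' ∈ locL pos neg 0 6 ((enc a ++ enc x).map not), s' ∈ ([false, true].filter fun a' =>
      decide (a' = true → a = true ∨ (pos = true ∧ x = true) ∨ (neg = true ∧ x = false))).map
        (fun a' => (enc x ++ enc a').map not)) ∧
    (∀ a' : Bool, (a' = true ↔ a = true ∨ (pos = true ∧ x = true) ∨ (neg = true ∧ x = false)) →
      (enc x ++ enc a').map not ∈ locL pos neg 0 6 ((enc a ++ enc x).map not)) := by
  decide +kernel

theorem loc2_sound (pos neg a x : Bool) (s' : List Bool)
    (h : Loc2 pos neg 0 6 ((enc a ++ enc x).map not) s') :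
    ∃ a' : Bool, s' = (enc x ++ enc a').map not ∧
      (a' = true → a = true ∨ (pos = true ∧ x = true) ∨ (neg = true ∧ x = false)) := by
  rw [loc_iff] at h
  have h1 := (locL_fin pos neg a x).1 s' h
  rw [List.mem_map] at h1
  obtain ⟨a', ha', rfl⟩ := h1
  rw [List.mem_filter, decide_eq_true_eq] at ha'
  exact ⟨a', rfl, ha'.2⟩

theorem loc2_complete (pos neg a x a' : Bool)
    (ha : a' = true ↔ a = true ∨ (pos = true ∧ x = true) ∨ (neg = true ∧ x = false)) :
    Loc2 pos neg 0 6 ((enc a ++ enc x).map not) ((enc x ++ enc a').map not) := by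
  rw [loc_iff]
  exact (locL_fin pos neg a x).2 a' ha

end Pool.Agent.Lib89.N2
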