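import Mathlib
import Pool.Agent.Lib_helper89.NN.Main
import Pool.Agent.Lib_helper89.N2.RW2
import Pool.Agent.Lib_helper89.N2.GA2

/-! One crossing (N2). -/

namespace Pool.Agent.Lib89.N2

open Pool.Agent.Lib57 Pool.Agent.Lib89.NN

variable {V C : ℕ} {o : ℕ → ℕ → Bool → Prop}

private theorem gRel2_iff {c v k a b : ℕ} (pos neg : Bool)
    (hpos : pos = true ↔ o c v true) (hneg : neg = true ↔ o c v false) :
    gRel2 o c v k a b ↔ (a, b) ∈ gE2 pos neg k := by
  constructor
  · rintro ⟨pos', neg', h1, h2, h3⟩
    have e1 : pos' = pos := Bool.eq_iff_iff.2 (h1.trans hpos.symm)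
    have e2 : neg' = neg := Bool.eq_iff_iff.2 (h2.trans hneg.symm)
    rw [e1, e2] at h3
    exact h3
  · intro h
    exact ⟨pos, neg, hpos, hneg, h⟩

/-- the generator row -/
private theorem gen_step {c v k : ℕ} (hc : c < C) (hv : v < V) (hk : k < 6) (pos neg : Bool)
    (hpos : pos = true ↔ o c v true) (hneg : neg = true ↔ o c v false)
    (L s R b' : List Bool) (hL : L.length = 2 * v) (hs : s.length = 4)
    (hR : 2 * v + 4 + R.length = 2 * V + 2) (hb' : b'.length = 2 * V + 2) :
    Step (RowE2 V C o (4 + c * (18 * V + 2) + 18 * v + 3 * k)) (L ++ s ++ R) b' ↔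
      ∃ s' : List Bool, s'.length = 4 ∧ Step (fun a b => (a, b) ∈ gE2 pos neg k) s s' ∧
        b' = L.map not ++ s' ++ R.map not := by
  have key : ∀ B₁ B₂ B₃ : List Bool, B₁.length = 2 * v → B₂.length = 4 →
      B₃.length = R.length →
      (Step (RowE2 V C o (4 + c * (18 * V + 2) + 18 * v + 3 * k)) (L ++ s ++ R) (B₁ ++ B₂ ++ B₃) ↔
        (B₁ = L.map not ∧ Step (fun a b => (a, b) ∈ gE2 pos neg k) s B₂) ∧ B₃ = R.map not) := by
    intro B₁ B₂ B₃ h1 h2 h3
    have hA : ∀ p q, RowE2 V C o (4 + c * (18 * V + 2) + 18 * v + 3 * k) p q →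
        (p < (L ++ s).length ↔ q < (B₁ ++ B₂).length) := by
      intro p q h
      rw [List.length_append, List.length_append, hL, hs, h1, h2]
      rcases (rowE2_gen hc hv hk p q).1 h with ⟨h4, _, _⟩ | ⟨a, ha, b, hb, h4, h5, _⟩ <;> omega
    have hB : ∀ p q, RowE2 V C o (4 + c * (18 * V + 2) + 18 * v + 3 * k) p q →
        (p < L.length ↔ q < B₁.length) := by
      intro p q h
      rw [hL, h1]
      rcases (rowE2_gen hc hv hk p q).1 h with ⟨h4, _, _⟩ | ⟨a, ha, b, hb, h4, h5, _⟩ <;> omega
    rw [step_append _ _ _ _ _ hA, step_append _ _ _ _ _ hB]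
    have e1 : Step (RowE2 V C o (4 + c * (18 * V + 2) + 18 * v + 3 * k)) L B₁ ↔
        B₁ = L.map not := by
      apply step_eq _ _ _ (by rw [h1, hL])
      intro p hp q hq
      rw [hL] at hp hq
      rw [rowE2_gen hc hv hk p q]
      constructor
      · rintro (⟨h4, _, _⟩ | ⟨a, ha, b, hb, h4, h5, _⟩) <;> omega
      · intro h4
        left
        refine ⟨h4.symm, by omega, Or.inl hp⟩
    have e2 : Step (fun p q => RowE2 V C o (4 + c * (18 * V + 2) + 18 * v + 3 * k)
        (L.length + p) (B₁.length + q)) s B₂ ↔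
        Step (fun a b => (a, b) ∈ gE2 pos neg k) s B₂ := by
      apply step_congr
      intro p hp q hq
      rw [hs] at hp
      rw [h2] at hq
      rw [hL, h1]
      rw [rowE2_gen hc hv hk]
      constructor
      · rintro (⟨h4, _, h5⟩ | ⟨a, ha, b, hb, h4, h5, h6⟩)
        · omega
        · have e3 : a = p := by omega
          have e4 : b = q := by omega
          rw [e3, e4] at h6
          exact (gRel2_iff pos neg hpos hneg).1 h6
      · intro h
        right
        exact ⟨p, hp, q, hq, rfl, rfl, (gRel2_iff pos neg hpos hneg).2 h⟩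
    have e3 : Step (fun p q => RowE2 V C o (4 + c * (18 * V + 2) + 18 * v + 3 * k)
        ((L ++ s).length + p) ((B₁ ++ B₂).length + q)) R B₃ ↔ B₃ = R.map not := by
      apply step_eq _ _ _ h3
      intro p hp q hq
      rw [List.length_append, List.length_append, hL, hs, h1, h2]
      rw [rowE2_gen hc hv hk]
      constructor
      · rintro (⟨h4, _, _⟩ | ⟨a, ha, b, hb, h4, h5, _⟩) <;> omega
      · intro h4
        left
        refine ⟨by omega, by omega, Or.inr (by omega)⟩
    rw [e1, e2, e3]
  constructor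
  · intro h
    have hsplit : b' = b'.take (2 * v) ++ (b'.drop (2 * v)).take 4 ++
        (b'.drop (2 * v)).drop 4 := by
      rw [List.append_assoc, List.take_append_drop, List.take_append_drop]
    have l1 : (b'.take (2 * v)).length = 2 * v := by
      rw [List.length_take]; omega
    have l2 : ((b'.drop (2 * v)).take 4).length = 4 := by
      rw [List.length_take, List.length_drop]; omega
    have l3 : ((b'.drop (2 * v)).drop 4).length = R.length := by
      rw [List.length_drop, List.length_drop]; omega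
    rw [hsplit] at h
    obtain ⟨⟨h1, h2⟩, h3⟩ := (key _ _ _ l1 l2 l3).1 h
    refine ⟨(b'.drop (2 * v)).take 4, l2, h2, ?_⟩
    rw [← h1, ← h3]
    exact hsplit
  · rintro ⟨s', hs', h1, rfl⟩
    exact (key _ _ _ (by rw [List.length_map, hL]) hs' (by rw [List.length_map])).2
      ⟨⟨rfl, h1⟩, rfl⟩

private theorem nn (l : List Bool) : (l.map not).map not = l := by
  rw [List.map_map]
  conv_rhs => rw [← List.map_id l]
  apply List.map_congr_left
  intro x _
  simp

/-- three rows -/
private theorem three {c v k : ℕ} (hc : c < C) (hv : v < V) (hk : k < 6) (pos neg : Bool)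
    (hpos : pos = true ↔ o c v true) (hneg : neg = true ↔ o c v false)
    (L s R b'' : List Bool) (hL : L.length = 2 * v) (hs : s.length = 4)
    (hR : 2 * v + 4 + R.length = 2 * V + 2) :
    Run (2 * V + 2) (RowE2 V C o) (3 + c * (18 * V + 2) + 18 * v + 3 * k) 3 (L ++ s ++ R) b'' ↔
      ∃ s' : List Bool, s'.length = 4 ∧
        Step (fun a b => (a, b) ∈ gE2 pos neg k) (s.map not) s' ∧
        b'' = L.map not ++ s'.map not ++ R.map not := by
  have i1 : ∀ b b' : List Bool, b.length = 2 * V + 2 → b'.length = 2 * V + 2 →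
      (Step (RowE2 V C o (3 + c * (18 * V + 2) + 18 * v + 3 * k)) b b' ↔ b' = b.map not) := by
    intro b b' h1 h2
    apply step_eq _ _ _ (by rw [h1, h2])
    intro p hp q hq
    rw [rowE2_id1 hc hv hk p q]
    constructor
    · rintro ⟨h, _⟩; exact h.symm
    · intro h; exact ⟨h.symm, by omega⟩
  have i2 : ∀ b b' : List Bool, b.length = 2 * V + 2 → b'.length = 2 * V + 2 →
      (Step (RowE2 V C o (3 + c * (18 * V + 2) + 18 * v + 3 * k + 1 + 1)) b b' ↔
        b' = b.map not) := by
    intro b b' h1 h2
    apply step_eq _ _ _ (by rw [h1, h2])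
    intro p hp q hq
    rw [show 3 + c * (18 * V + 2) + 18 * v + 3 * k + 1 + 1 =
      5 + c * (18 * V + 2) + 18 * v + 3 * k by omega, rowE2_id2 hc hv hk p q]
    constructor
    · rintro ⟨h, _⟩; exact h.symm
    · intro h; exact ⟨h.symm, by omega⟩
  have er : 3 + c * (18 * V + 2) + 18 * v + 3 * k + 1 = 4 + c * (18 * V + 2) + 18 * v + 3 * k := by
    omega
  have lb : (L ++ s ++ R).length = 2 * V + 2 := by
    rw [List.length_append, List.length_append, hL, hs]; omega
  have hL' : (L.map not).length = 2 * v := by rw [List.length_map, hL]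
  have hs' : (s.map not).length = 4 := by rw [List.length_map, hs]
  have hR' : 2 * v + 4 + (R.map not).length = 2 * V + 2 := by rw [List.length_map]; exact hR
  have em : (L ++ s ++ R).map not = L.map not ++ s.map not ++ R.map not := by
    rw [List.map_append, List.map_append]
  constructor
  · rintro ⟨b1, l1, s1, b2, l2, s2, b3, l3, s3, rfl⟩
    have e1 := (i1 _ b1 lb l1).1 s1
    have e3 := (i2 b2 b'' l2 l3).1 s3
    rw [e1, em, er] at s2
    obtain ⟨s', hs'', h1, h2⟩ := (gen_step hc hv hk pos neg hpos hneg (L.map not) (s.map not)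
      (R.map not) b2 hL' hs' hR' l2).1 s2
    refine ⟨s', hs'', h1, ?_⟩
    rw [e3, h2, nn, nn, List.map_append, List.map_append]
  · rintro ⟨s', hs'', h1, h2⟩
    have l2 : (L ++ s' ++ R).length = 2 * V + 2 := by
      rw [List.length_append, List.length_append, hL, hs'']; omega
    have l3 : b''.length = 2 * V + 2 := by
      rw [h2, List.length_append, List.length_append, List.length_map, List.length_map,
        List.length_map, hL, hs'']
      omega
    refine ⟨(L ++ s ++ R).map not, by rw [List.length_map, lb],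
      (i1 _ _ lb (by rw [List.length_map, lb])).2 rfl, L ++ s' ++ R, l2, ?_, b'', l3,
      (i2 _ _ l2 l3).2 ?_, rfl⟩
    · rw [er, em]
      exact (gen_step hc hv hk pos neg hpos hneg (L.map not) (s.map not) (R.map not)
        (L ++ s' ++ R) hL' hs' hR' l2).2 ⟨s', hs'', h1, by rw [nn, nn]⟩
    · rw [h2, List.map_append, List.map_append]

private theorem many {c v : ℕ} (hc : c < C) (hv : v < V) (pos neg : Bool)
    (hpos : pos = true ↔ o c v true) (hneg : neg = true ↔ o c v false) (j : ℕ) :
    ∀ (k : ℕ), k + j ≤ 6 → ∀ (L s R b'' : List Bool), L.length = 2 * v → s.length = 4 →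
    2 * v + 4 + R.length = 2 * V + 2 →
    (Run (2 * V + 2) (RowE2 V C o) (3 + c * (18 * V + 2) + 18 * v + 3 * k) (3 * j)
      (L ++ s ++ R) b'' ↔
      ∃ s', b'' = (List.map not)^[j] L ++ s'.map not ++ (List.map not)^[j] R ∧
        Loc2 pos neg k j (s.map not) s') := by
  induction j with
  | zero =>
    intro k _ L s R b'' hL hs hR
    constructor
    · intro h
      exact ⟨s.map not, by rw [nn]; exact h, rfl⟩
    · rintro ⟨s', h, h'⟩
      have h'' : s' = s.map not := h'
      rw [h'', nn] at h
      exact h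
  | succ j ih =>
    intro k hk L s R b'' hL hs hR
    rw [show 3 * (j + 1) = 3 + 3 * j by ring, run_add]
    constructor
    · rintro ⟨b', h1, h2⟩
      obtain ⟨s', hs', h3, h4⟩ :=
        (three hc hv (by omega) pos neg hpos hneg L s R b' hL hs hR).1 h1
      rw [h4, show 3 + c * (18 * V + 2) + 18 * v + 3 * k + 3 =
        3 + c * (18 * V + 2) + 18 * v + 3 * (k + 1) by ring] at h2
      obtain ⟨s'', h5, h6⟩ := (ih (k + 1) (by omega) (L.map not) (s'.map not) (R.map not) b''
        (by rw [List.length_map, hL]) (by rw [List.length_map, hs'])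
        (by rw [List.length_map]; exact hR)).1 h2
      rw [nn] at h6
      refine ⟨s'', ?_, s', hs', h3, h6⟩
      rw [Function.iterate_succ_apply, Function.iterate_succ_apply]
      exact h5
    · rintro ⟨s'', h5, s', hs', h3, h6⟩
      rw [Function.iterate_succ_apply, Function.iterate_succ_apply] at h5
      refine ⟨L.map not ++ s'.map not ++ R.map not,
        (three hc hv (by omega) pos neg hpos hneg L s R _ hL hs hR).2 ⟨s', hs', h3, rfl⟩, ?_⟩
      rw [show 3 + c * (18 * V + 2) + 18 * v + 3 * k + 3 =
        3 + c * (18 * V + 2) + 18 * v + 3 * (k + 1) by ring]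
      exact (ih (k + 1) (by omega) (L.map not) (s'.map not) (R.map not) b''
        (by rw [List.length_map, hL]) (by rw [List.length_map, hs'])
        (by rw [List.length_map]; exact hR)).2 ⟨s'', h5, by rw [nn]; exact h6⟩

theorem run2_cross {c v : ℕ} (hc : c < C) (hv : v < V) (pos neg : Bool)
    (hpos : pos = true ↔ o c v true) (hneg : neg = true ↔ o c v false)
    (L s R b'' : List Bool) (hL : L.length = 2 * v) (hs : s.length = 4)
    (hR : 2 * v + 4 + R.length = 2 * V + 2) :
    Run (2 * V + 2) (RowE2 V C o) (3 + c * (18 * V + 2) + 18 * v) 18 (L ++ s ++ R) b'' ↔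
      ∃ s', b'' = L ++ s'.map not ++ R ∧ Loc2 pos neg 0 6 (s.map not) s' := by
  have n6 : ∀ l : List Bool, (List.map not)^[6] l = l := by
    intro l
    show (((((l.map not).map not).map not).map not).map not).map not = l
    rw [nn, nn, nn]
  have h := many hc hv pos neg hpos hneg 6 0 (by omega) L s R b'' hL hs hR
  rw [n6, n6] at h
  exact h

end Pool.Agent.Lib89.N2
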