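import Mathlib
import Pool.Agent.Lib_helper89.N2.AF

/-! Covering and injectivity. -/

namespace Pool.Agent.Lib89.N2

open Pool.Agent.Lib89.NN

theorem phi_main (E : ℕ → ℕ → ℕ → Prop) (r p q P Q : ℕ) : phi E (r, p, q) = (r, P, Q) ↔
    (((L2 E r p ∧ Lo E r p q) ∧ P = 5 * p + 3) ∨ (¬ (L2 E r p ∧ Lo E r p q) ∧ P = 5 * p + 2)) ∧
      (((R2 E r q ∧ Hi E r p q) ∧ Q = 5 * q + 1) ∨
        (¬ (R2 E r q ∧ Hi E r p q) ∧ Q = 5 * q + 2)) := by
  unfold phi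
  simp only [Prod.mk.injEq, true_and]
  by_cases h1 : L2 E r p ∧ Lo E r p q <;> by_cases h2 : R2 E r q ∧ Hi E r p q
  · rw [if_pos h1, if_pos h2]; simp only [h1, h2, true_and, not_true_eq_false, false_and, or_false]
    exact ⟨fun h => ⟨h.1.symm, h.2.symm⟩, fun h => ⟨h.1.symm, h.2.symm⟩⟩
  · rw [if_pos h1, if_neg h2]
    constructor
    · rintro ⟨h3, h4⟩
      exact ⟨Or.inl ⟨h1, h3.symm⟩, Or.inr ⟨h2, h4.symm⟩⟩
    · rintro ⟨h3 | h3, h4 | h4⟩
      · exact absurd h4.1 h2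
      · exact ⟨h3.2.symm, h4.2.symm⟩
      · exact absurd h1 h3.1
      · exact absurd h1 h3.1
  · rw [if_neg h1, if_pos h2]
    constructor
    · rintro ⟨h3, h4⟩
      exact ⟨Or.inr ⟨h1, h3.symm⟩, Or.inl ⟨h2, h4.symm⟩⟩
    · rintro ⟨h3 | h3, h4 | h4⟩
      · exact absurd h3.1 h1
      · exact absurd h3.1 h1
      · exact ⟨h3.2.symm, h4.2.symm⟩
      · exact absurd h2 h4.1
  · rw [if_neg h1, if_neg h2]
    constructor
    · rintro ⟨h3, h4⟩
      exact ⟨Or.inr ⟨h1, h3.symm⟩, Or.inr ⟨h2, h4.symm⟩⟩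
    · rintro ⟨h3 | h3, h4 | h4⟩
      · exact absurd h3.1 h1
      · exact absurd h3.1 h1
      · exact absurd h4.1 h2
      · exact ⟨h3.2.symm, h4.2.symm⟩

/-- the possible positions of a main edge -/
theorem phi_pos (E : ℕ → ℕ → ℕ → Prop) (e : ℕ × ℕ × ℕ) : (phi E e).1 = e.1 ∧
    ((phi E e).2.1 = 5 * e.2.1 + 3 ∨ (phi E e).2.1 = 5 * e.2.1 + 2) ∧
    ((phi E e).2.2 = 5 * e.2.2 + 1 ∨ (phi E e).2.2 = 5 * e.2.2 + 2) := by
  unfold phi
  refine ⟨rfl, ?_, ?_⟩ <;> dsimp only <;> split_ifs <;> simp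

section
variable {E : ℕ → ℕ → ℕ → Prop} (hA : Adm E)
include hA

theorem rowF_cases (t : ℕ × ℕ × ℕ) : RowF E t.1 t.2.1 t.2.2 ↔
    (∃ e : ℕ × ℕ × ℕ, E e.1 e.2.1 e.2.2 ∧ phi E e = t) ∨ (∃ x, XL E x ∧ AA x = t) ∨
      ∃ x, XL E x ∧ BB E x = t := by
  obtain ⟨r, P, Q⟩ := t
  constructor
  · rintro ⟨p, q, hE, h | ⟨h1, h2, h3⟩ | ⟨h1, h2, h3, h4⟩ | ⟨h1, h2, h3, h4⟩ |
      ⟨⟨r', hr, h1⟩, h2, h3⟩⟩
    · exact Or.inl ⟨(r, p, q), hE, (phi_main E r p q P Q).2 h⟩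
    · refine Or.inr (Or.inl ⟨(true, r + 1, q), Or.inl ⟨rfl, h1⟩, ?_⟩)
      have h4 := (left_id hA h1).2 p hE
      dsimp only at h2 h3
      simp only [AA, if_true]
      rw [h2, h3, h4]
      rfl
    · refine Or.inr (Or.inr ⟨(true, r, p), Or.inl ⟨rfl, h1⟩, ?_⟩)
      have h5 := lo_unique hA (loq_spec' h1) h2
      dsimp only at h3 h4
      simp only [BB, if_true]
      rw [h3, h4, h5]
    · refine Or.inr (Or.inr ⟨(false, r, q), Or.inr ⟨rfl, h1⟩, ?_⟩)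
      have h5 := hi_unique hA (hip_spec' h1) h2
      dsimp only at h3 h4
      simp only [BB, Bool.false_eq_true, if_false]
      rw [h3, h4, h5]
    · refine Or.inr (Or.inl ⟨(false, r', p), Or.inr ⟨rfl, h1⟩, ?_⟩)
      dsimp only at hr hE h2 h3
      subst hr
      have h4 := (right_id hA h1).2 q hE
      simp only [AA, Bool.false_eq_true, if_false]
      rw [h2, h3, h4]
  · rintro (⟨⟨r', p, q⟩, hE, h⟩ | ⟨⟨s, r', p⟩, hx, h⟩ | ⟨⟨s, r', p⟩, hx, h⟩)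
    · have hr : r' = r := by
        have := (phi_pos E (r', p, q)).1
        rw [h] at this
        exact this.symm
      subst hr
      exact ⟨p, q, hE, Or.inl ((phi_main E r' p q P Q).1 h)⟩
    · rcases hx with ⟨hs, hx⟩ | ⟨hs, hx⟩
      · dsimp only at hs hx
        subst hs
        obtain ⟨r'', rfl⟩ : ∃ r'', r' = r'' + 1 :=
          ⟨r' - 1, by have := gen_pos hA (Or.inl ⟨p, hx⟩); omega⟩
        simp only [AA, if_true, Prod.mk.injEq] at h
        obtain ⟨h1, h2, h3⟩ := h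
        have h1' : r = r'' := by omega
        subst h1'
        exact ⟨p, p, (left_id hA hx).1, Or.inr (Or.inl ⟨hx, h2.symm, h3.symm⟩)⟩
      · dsimp only at hs hx
        subst hs
        simp only [AA, Bool.false_eq_true, if_false, Prod.mk.injEq] at h
        obtain ⟨h1, h2, h3⟩ := h
        subst h1
        exact ⟨p, p, (right_id hA hx).1, Or.inr (Or.inr (Or.inr (Or.inr
          ⟨⟨r', rfl, hx⟩, h2.symm, h3.symm⟩)))⟩
    · rcases hx with ⟨hs, hx⟩ | ⟨hs, hx⟩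
      · dsimp only at hs hx
        subst hs
        simp only [BB, if_true, Prod.mk.injEq] at h
        obtain ⟨h1, h2, h3⟩ := h
        subst h1
        have h4 := loq_spec' hx
        exact ⟨p, _, h4.1, Or.inr (Or.inr (Or.inl ⟨hx, h4, h2.symm, h3.symm⟩))⟩
      · dsimp only at hs hx
        subst hs
        simp only [BB, Bool.false_eq_true, if_false, Prod.mk.injEq] at h
        obtain ⟨h1, h2, h3⟩ := h
        subst h1
        have h4 := hip_spec' hx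
        exact ⟨_, p, h4.1, Or.inr (Or.inr (Or.inr (Or.inl ⟨hx, h4, h2.symm, h3.symm⟩)))⟩

theorem E_e0 {x} (hx : XL E x) : E (e0 x).1 (e0 x).2.1 (e0 x).2.2 := by
  obtain ⟨s, r, p⟩ := x
  rcases hx with ⟨hs, hx⟩ | ⟨hs, hx⟩
  · dsimp only at hs hx
    subst hs
    obtain ⟨r', rfl⟩ : ∃ r', r = r' + 1 :=
      ⟨r - 1, by have := gen_pos hA (Or.inl ⟨p, hx⟩); omega⟩
    exact (left_id hA hx).1
  · dsimp only at hs hx
    subst hs
    exact (right_id hA hx).1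

theorem E_gg {x} (hx : XL E x) : E (gg E x).1 (gg E x).2.1 (gg E x).2.2 := by
  obtain ⟨s, r, p⟩ := x
  rcases hx with ⟨hs, hx⟩ | ⟨hs, hx⟩
  · dsimp only at hs hx
    subst hs
    exact (loq_spec' hx).1
  · dsimp only at hs hx
    subst hs
    exact (hip_spec' hx).1

theorem phi_inj {e f : ℕ × ℕ × ℕ} (h : phi E e = phi E f) : e = f := by
  obtain ⟨a1, a2, a3⟩ := phi_pos E e
  obtain ⟨b1, b2, b3⟩ := phi_pos E f
  rw [h] at a1 a2 a3
  refine Prod.ext (by omega) (Prod.ext (by omega) (by omega))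

/-- the three cases of `AA x = (r, P, Q)` -/
theorem AA_eq {x} (hx : XL E x) : ∃ r p, AA x = (r, 5 * p + 3, 5 * p + 1) ∧
    ((x = (true, r + 1, p) ∧ L2 E (r + 1) p) ∨
      ∃ r', r = r' + 1 ∧ x = (false, r', p) ∧ R2 E r' p) := by
  obtain ⟨s, r, p⟩ := x
  rcases hx with ⟨hs, hx⟩ | ⟨hs, hx⟩
  · dsimp only at hs hx
    subst hs
    obtain ⟨r', rfl⟩ : ∃ r', r = r' + 1 :=
      ⟨r - 1, by have := gen_pos hA (Or.inl ⟨p, hx⟩); omega⟩
    exact ⟨r', p, rfl, Or.inl ⟨rfl, hx⟩⟩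
  · dsimp only at hs hx
    subst hs
    exact ⟨r + 1, p, rfl, Or.inr ⟨r, rfl, rfl, hx⟩⟩

theorem AA_inj {x y} (hx : XL E x) (hy : XL E y) (h : AA x = AA y) : x = y := by
  obtain ⟨r, p, e1, h1⟩ := AA_eq hA hx
  obtain ⟨r', p', e2, h2⟩ := AA_eq hA hy
  rw [e1, e2] at h
  simp only [Prod.mk.injEq] at h
  obtain ⟨rfl, h3, h4⟩ := h
  have h5 : p = p' := by omega
  subst h5
  rcases h1 with ⟨rfl, h1⟩ | ⟨s, rfl, rfl, h1⟩
  · rcases h2 with ⟨rfl, h2⟩ | ⟨s', hs, rfl, h2⟩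
    · rfl
    · subst hs
      exact absurd (Or.inr ⟨p, h2⟩) (gen_two hA (Or.inl ⟨p, h1⟩))
  · rcases h2 with ⟨rfl, h2⟩ | ⟨s', hs, rfl, h2⟩
    · exact absurd (Or.inr ⟨p, h1⟩) (gen_two hA (Or.inl ⟨p, h2⟩))
    · have : s = s' := by omega
      subst this
      rfl

theorem BB_inj {x y} (hx : XL E x) (hy : XL E y) (h : BB E x = BB E y) : x = y := by
  obtain ⟨s, r, p⟩ := x
  obtain ⟨s', r', p'⟩ := y
  cases s <;> cases s' <;> simp only [BB, Bool.false_eq_true, if_false, if_true, Prod.mk.injEq] at h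
  · obtain ⟨rfl, h1, h2⟩ := h
    have : p = p' := by omega
    subst this
    rfl
  · omega
  · omega
  · obtain ⟨rfl, h1, h2⟩ := h
    have : p = p' := by omega
    subst this
    rfl

theorem AA_ne_BB {x y} (hx : XL E x) (hy : XL E y) : AA x ≠ BB E y := by
  obtain ⟨r, p, e1, h1⟩ := AA_eq hA hx
  obtain ⟨s', r', p'⟩ := y
  intro h
  rw [e1] at h
  cases s' <;> simp only [BB, Bool.false_eq_true, if_false, if_true, Prod.mk.injEq] at h
  · omega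
  · omega

theorem phi_ne_AA {e x} (he : E e.1 e.2.1 e.2.2) (hx : XL E x) : phi E e ≠ AA x := by
  obtain ⟨r, p, e1, h1⟩ := AA_eq hA hx
  obtain ⟨r', p', q'⟩ := e
  intro h
  rw [e1] at h
  have hr : r' = r := by
    have := (phi_pos E (r', p', q')).1
    rw [h] at this
    exact this.symm
  subst hr
  rw [phi_main] at h
  have h2 : L2 E r' p' := by
    rcases h.1 with h3 | h3
    · exact h3.1.1
    · omega
  rcases h1 with ⟨_, h4⟩ | ⟨s, hs, _, h4⟩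
  · exact gen_succ hA (Or.inl ⟨p', h2⟩) (Or.inl ⟨p, h4⟩)
  · subst hs
    exact gen_succ hA (Or.inr ⟨p, h4⟩) (Or.inl ⟨p', h2⟩)

theorem phi_ne_BB {e x} (he : E e.1 e.2.1 e.2.2) (hx : XL E x) : phi E e ≠ BB E x := by
  obtain ⟨a1, a2, a3⟩ := phi_pos E e
  obtain ⟨s', r', p'⟩ := x
  intro h
  rw [h] at a1 a2 a3
  cases s' <;> simp only [BB, Bool.false_eq_true, if_false, if_true] at a1 a2 a3
  · omega
  · omega

end

end Pool.Agent.Lib89.N2
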