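import Mathlib
import Pool.Agent.Lib_helper89.NN.Main
import Pool.Agent.Lib_helper89.N2.HC

namespace Pool.Agent.Lib89.N2

open Pool.Agent.Lib57 Pool.Agent.Lib89.NN

private theorem one_list (P : ℕ → Prop) (c : Bool) (h : ∀ a b, P a → P b → a = b) :
    ∃ l : List (Bool × ℕ), l.length ≤ 1 ∧ ∀ Q, P Q → (c, Q) ∈ l := by
  by_cases h1 : ∃ a, P a
  · obtain ⟨a, ha⟩ := h1
    exact ⟨[(c, a)], by simp, fun Q hQ => by simp [h Q a hQ ha]⟩
  · exact ⟨[], by simp, fun Q hQ => absurd ⟨Q, hQ⟩ h1⟩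

private theorem two_list (P : ℕ → Prop) (c : Bool)
    (h : ∀ a b d, P a → P b → P d → a = b ∨ b = d ∨ a = d) :
    ∃ l : List (Bool × ℕ), l.length ≤ 2 ∧ ∀ Q, P Q → (c, Q) ∈ l := by
  by_cases h1 : ∃ a b, P a ∧ P b ∧ a ≠ b
  · obtain ⟨a, b, ha, hb, hab⟩ := h1
    refine ⟨[(c, a), (c, b)], by simp, fun Q hQ => ?_⟩
    rcases h a b Q ha hb hQ with h2 | h2 | h2
    · exact absurd h2 hab
    · simp [h2]
    · simp [h2]
  · push Not at h1
    obtain ⟨l, hl, hl'⟩ := one_list P c (fun a b ha hb => h1 a b ha hb)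
    exact ⟨l, by omega, hl'⟩

private theorem mk_list (L R : ℕ → Prop)
    (h : ((∀ a b, L a → L b → a = b) ∧ ∀ a b, R a → R b → a = b) ∨
      ((∀ a b d, L a → L b → L d → a = b ∨ b = d ∨ a = d) ∧ ∀ Q, ¬ R Q) ∨
      ((∀ a b d, R a → R b → R d → a = b ∨ b = d ∨ a = d) ∧ ∀ Q, ¬ L Q)) :
    ∃ l : List (Bool × ℕ), l.length ≤ 2 ∧ (∀ Q, L Q → (true, Q) ∈ l) ∧
      ∀ Q, R Q → (false, Q) ∈ l := by
  rcases h with ⟨h1, h2⟩ | ⟨h1, h2⟩ | ⟨h1, h2⟩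
  · obtain ⟨l, hl, hl'⟩ := one_list L true h1
    obtain ⟨m, hm, hm'⟩ := one_list R false h2
    exact ⟨l ++ m, by simp; omega, fun Q hQ => List.mem_append_left _ (hl' Q hQ),
      fun Q hQ => List.mem_append_right _ (hm' Q hQ)⟩
  · obtain ⟨l, hl, hl'⟩ := two_list L true h1
    exact ⟨l, hl, hl', fun Q hQ => absurd hQ (h2 Q)⟩
  · obtain ⟨l, hl, hl'⟩ := two_list R false h1
    exact ⟨l, hl, fun Q hQ => absurd hQ (h2 Q), hl'⟩

section
variable {E : ℕ → ℕ → ℕ → Prop} (hA : Adm E)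
include hA

/-- specification of the right end of a main edge -/
private def QS (E : ℕ → ℕ → ℕ → Prop) (r p q Q : ℕ) : Prop :=
  ((R2 E r q ∧ Hi E r p q) ∧ Q = 5 * q + 1) ∨ (¬ (R2 E r q ∧ Hi E r p q) ∧ Q = 5 * q + 2)

/-- specification of the left end of a main edge -/
private def PS (E : ℕ → ℕ → ℕ → Prop) (r p q P : ℕ) : Prop :=
  ((L2 E r p ∧ Lo E r p q) ∧ P = 5 * p + 3) ∨ (¬ (L2 E r p ∧ Lo E r p q) ∧ P = 5 * p + 2)

omit hA in
private theorem QS_fun {r p q Q Q' : ℕ} (h : QS E r p q Q) (h' : QS E r p q Q') : Q = Q' := by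
  rcases h with ⟨h1, h2⟩ | ⟨h1, h2⟩ <;> rcases h' with ⟨h3, h4⟩ | ⟨h3, h4⟩
  · omega
  · exact absurd h1 h3
  · exact absurd h3 h1
  · omega

omit hA in
private theorem PS_fun {r p q Q Q' : ℕ} (h : PS E r p q Q) (h' : PS E r p q Q') : Q = Q' := by
  rcases h with ⟨h1, h2⟩ | ⟨h1, h2⟩ <;> rcases h' with ⟨h3, h4⟩ | ⟨h3, h4⟩
  · omega
  · exact absurd h1 h3
  · exact absurd h3 h1
  · omega

/-- the left cases -/
private theorem left_inv {r p i Q : ℕ} (hi : i < 5) (h : RowF E r (5 * p + i) Q) :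
    (i = 0 ∧ ∃ q, R2 E r q ∧ Hi E r p q ∧ Q = 5 * q + 3) ∨
    (i = 1 ∧ ∃ q, L2 E r p ∧ Lo E r p q ∧ Q = 5 * q + 4) ∨
    (i = 2 ∧ ∃ q, E r p q ∧ ¬ (L2 E r p ∧ Lo E r p q) ∧ QS E r p q Q) ∨
    (i = 3 ∧ ∃ q, (L2 E r p ∧ Lo E r p q) ∧ QS E r p q Q) ∨
    (i = 3 ∧ Q = 5 * p + 1 ∧ (L2 E (r + 1) p ∨ ∃ r', r = r' + 1 ∧ R2 E r' p)) := by
  obtain ⟨a, q, hE, h⟩ := h
  rcases h with ⟨h1, h2⟩ | ⟨h1, h2, h3⟩ | ⟨h1, h2, h3, h4⟩ | ⟨h1, h2, h3, h4⟩ | ⟨⟨r', h1, h1'⟩, h2, h3⟩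
  · rcases h1 with ⟨h1, h3⟩ | ⟨h1, h3⟩
    · obtain ⟨rfl, rfl⟩ : p = a ∧ i = 3 := by omega
      exact Or.inr (Or.inr (Or.inr (Or.inl ⟨rfl, q, h1, h2⟩)))
    · obtain ⟨rfl, rfl⟩ : p = a ∧ i = 2 := by omega
      exact Or.inr (Or.inr (Or.inl ⟨rfl, q, hE, h1, h2⟩))
  · obtain ⟨rfl, rfl⟩ : p = a ∧ i = 3 := by omega
    have h4 := (left_id hA h1).2 _ hE
    subst h4
    exact Or.inr (Or.inr (Or.inr (Or.inr ⟨rfl, h3, Or.inl h1⟩)))
  · obtain ⟨rfl, rfl⟩ : p = a ∧ i = 1 := by omega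
    exact Or.inr (Or.inl ⟨rfl, q, h1, h2, h4⟩)
  · obtain ⟨rfl, rfl⟩ : p = a ∧ i = 0 := by omega
    exact Or.inl ⟨rfl, q, h1, h2, h4⟩
  · obtain ⟨rfl, rfl⟩ : p = a ∧ i = 3 := by omega
    subst h1
    have h4 := (right_id hA h1').2 _ hE
    subst h4
    exact Or.inr (Or.inr (Or.inr (Or.inr ⟨rfl, h3, Or.inr ⟨r', rfl, h1'⟩⟩)))

/-- the right cases -/
private theorem right_inv {r p i Q : ℕ} (hi : i < 5) (h : RowF E r Q (5 * p + i)) :
    (i = 1 ∧ ∃ q, (R2 E r p ∧ Hi E r q p) ∧ PS E r q p Q) ∨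
    (i = 1 ∧ Q = 5 * p + 3 ∧ (L2 E (r + 1) p ∨ ∃ r', r = r' + 1 ∧ R2 E r' p)) ∨
    (i = 2 ∧ ∃ q, E r q p ∧ ¬ (R2 E r p ∧ Hi E r q p) ∧ PS E r q p Q) ∨
    (i = 3 ∧ ∃ q, R2 E r p ∧ Hi E r q p ∧ Q = 5 * q) ∨
    (i = 4 ∧ ∃ q, L2 E r q ∧ Lo E r q p ∧ Q = 5 * q + 1) := by
  obtain ⟨q, a, hE, h⟩ := h
  rcases h with ⟨h1, h2⟩ | ⟨h1, h2, h3⟩ | ⟨h1, h2, h3, h4⟩ | ⟨h1, h2, h3, h4⟩ | ⟨⟨r', h1, h1'⟩, h2, h3⟩
  · rcases h2 with ⟨h2, h3⟩ | ⟨h2, h3⟩
    · obtain ⟨rfl, rfl⟩ : p = a ∧ i = 1 := by omega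
      exact Or.inl ⟨rfl, q, h2, h1⟩
    · obtain ⟨rfl, rfl⟩ : p = a ∧ i = 2 := by omega
      exact Or.inr (Or.inr (Or.inl ⟨rfl, q, hE, h2, h1⟩))
  · obtain ⟨rfl, rfl⟩ : p = a ∧ i = 1 := by omega
    have h4 := (left_id hA h1).2 _ hE
    subst h4
    exact Or.inr (Or.inl ⟨rfl, h2, Or.inl h1⟩)
  · obtain ⟨rfl, rfl⟩ : p = a ∧ i = 4 := by omega
    exact Or.inr (Or.inr (Or.inr (Or.inr ⟨rfl, q, h1, h2, h3⟩)))
  · obtain ⟨rfl, rfl⟩ : p = a ∧ i = 3 := by omega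
    exact Or.inr (Or.inr (Or.inr (Or.inl ⟨rfl, q, h1, h2, h3⟩)))
  · obtain ⟨rfl, rfl⟩ : p = a ∧ i = 1 := by omega
    subst h1
    have h4 := (right_id hA h1').2 _ hE
    subst h4
    exact Or.inr (Or.inl ⟨rfl, h2, Or.inr ⟨r', rfl, h1'⟩⟩)

/-- three generations -/
private theorem gens {r p : ℕ} (h : L2 E (r + 1) p ∨ ∃ r', r = r' + 1 ∧ R2 E r' p) :
    ¬ Gen E r := by
  rcases h with h | ⟨r', rfl, h⟩
  · intro hg
    exact gen_succ hA hg (Or.inl ⟨_, h⟩)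
  · exact gen_succ hA (Or.inr ⟨_, h⟩)

theorem rowF_deg (r P : ℕ) : ∃ l : List (Bool × ℕ), l.length ≤ 2 ∧
    (∀ Q, RowF E r P Q → (true, Q) ∈ l) ∧
      ∀ r' Q, r = r' + 1 → RowF E r' Q P → (false, Q) ∈ l := by
  obtain ⟨p, i, hi, rfl⟩ : ∃ p i, i < 5 ∧ P = 5 * p + i :=
    ⟨P / 5, P % 5, by omega, by omega⟩
  have key : ∃ l : List (Bool × ℕ), l.length ≤ 2 ∧
      (∀ Q, RowF E r (5 * p + i) Q → (true, Q) ∈ l) ∧
      ∀ Q, (∃ r', r = r' + 1 ∧ RowF E r' Q (5 * p + i)) → (false, Q) ∈ l := by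
    apply mk_list
    have hc : i = 0 ∨ i = 1 ∨ i = 2 ∨ i = 3 ∨ i = 4 := by omega
    rcases hc with rfl | rfl | rfl | rfl | rfl
    · -- i = 0
      refine Or.inr (Or.inl ⟨?_, ?_⟩)
      · intro a b d ha hb hd
        rcases left_inv hA hi ha with ⟨_, q1, _, h1, h1'⟩ | ⟨h, _⟩ | ⟨h, _⟩ | ⟨h, _⟩ | ⟨h, _⟩ <;>
          try omega
        rcases left_inv hA hi hb with ⟨_, q2, _, h2, h2'⟩ | ⟨h, _⟩ | ⟨h, _⟩ | ⟨h, _⟩ | ⟨h, _⟩ <;>
          try omega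
        rcases left_inv hA hi hd with ⟨_, q3, _, h3, h3'⟩ | ⟨h, _⟩ | ⟨h, _⟩ | ⟨h, _⟩ | ⟨h, _⟩ <;>
          try omega
        have := hA.f2 _ _ _ _ _ h1.1 h2.1 h3.1
        omega
      · rintro Q ⟨r', rfl, h⟩
        rcases right_inv hA hi h with ⟨h, _⟩ | ⟨h, _⟩ | ⟨h, _⟩ | ⟨h, _⟩ | ⟨h, _⟩ <;> omega
    · -- i = 1
      refine Or.inl ⟨?_, ?_⟩
      · intro a b ha hb
        rcases left_inv hA hi ha with ⟨h, _⟩ | ⟨_, q1, _, h1, h1'⟩ | ⟨h, _⟩ | ⟨h, _⟩ | ⟨h, _⟩ <;>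
          try omega
        rcases left_inv hA hi hb with ⟨h, _⟩ | ⟨_, q2, _, h2, h2'⟩ | ⟨h, _⟩ | ⟨h, _⟩ | ⟨h, _⟩ <;>
          try omega
        have := lo_unique hA h1 h2
        omega
      · rintro a b ⟨r', rfl, ha⟩ ⟨r'', hr, hb⟩
        obtain rfl : r' = r'' := by omega
        rcases right_inv hA hi ha with ⟨_, q1, h1, h1'⟩ | ⟨_, h1, h1'⟩ | ⟨h, _⟩ | ⟨h, _⟩ | ⟨h, _⟩ <;>
          try omega
        · rcases right_inv hA hi hb with
            ⟨_, q2, h2, h2'⟩ | ⟨_, h2, h2'⟩ | ⟨h, _⟩ | ⟨h, _⟩ | ⟨h, _⟩ <;> try omega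
          · obtain rfl := hi_unique hA h1.2 h2.2
            exact PS_fun h1' h2'
          · exact absurd (Or.inr ⟨_, h1.1⟩) (gens hA h2')
        · rcases right_inv hA hi hb with
            ⟨_, q2, h2, h2'⟩ | ⟨_, h2, h2'⟩ | ⟨h, _⟩ | ⟨h, _⟩ | ⟨h, _⟩ <;> try omega
          · exact absurd (Or.inr ⟨_, h2.1⟩) (gens hA h1')
    · -- i = 2
      by_cases hL : L2 E r p
      · -- one on the left
        by_cases hR : ∃ r', r = r' + 1 ∧ R2 E r' p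
        · obtain ⟨r', rfl, hR⟩ := hR
          exact absurd (Or.inl ⟨_, hL⟩) (gen_succ hA (Or.inr ⟨_, hR⟩))
        · refine Or.inl ⟨?_, ?_⟩
          · intro a b ha hb
            rcases left_inv hA hi ha with
              ⟨h, _⟩ | ⟨h, _⟩ | ⟨_, q1, h1, h1', h1''⟩ | ⟨h, _⟩ | ⟨h, _⟩ <;> try omega
            rcases left_inv hA hi hb with
              ⟨h, _⟩ | ⟨h, _⟩ | ⟨_, q2, h2, h2', h2''⟩ | ⟨h, _⟩ | ⟨h, _⟩ <;> try omega
            have n1 : ¬ q1 < q2 := fun h => h1' ⟨hL, h1, q2, h, h2⟩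
            have n2 : ¬ q2 < q1 := fun h => h2' ⟨hL, h2, q1, h, h1⟩
            obtain rfl : q1 = q2 := by omega
            exact QS_fun h1'' h2''
          · -- the left neighbour is the identity
            rintro a b ⟨r', rfl, ha⟩ ⟨r'', hr, hb⟩
            obtain rfl : r' = r'' := by omega
            rcases right_inv hA hi ha with
              ⟨h, _⟩ | ⟨h, _⟩ | ⟨_, q1, h1, h1', h1''⟩ | ⟨h, _⟩ | ⟨h, _⟩ <;> try omega
            rcases right_inv hA hi hb with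
              ⟨h, _⟩ | ⟨h, _⟩ | ⟨_, q2, h2, h2', h2''⟩ | ⟨h, _⟩ | ⟨h, _⟩ <;> try omega
            have e1 := (left_id hA hL).2 _ h1
            have e2 := (left_id hA hL).2 _ h2
            subst e1
            subst e2
            exact PS_fun h1'' h2''
      · by_cases hR : ∃ r', r = r' + 1 ∧ R2 E r' p
        · obtain ⟨r', rfl, hR⟩ := hR
          refine Or.inl ⟨?_, ?_⟩
          · intro a b ha hb
            rcases left_inv hA hi ha with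
              ⟨h, _⟩ | ⟨h, _⟩ | ⟨_, q1, h1, h1', h1''⟩ | ⟨h, _⟩ | ⟨h, _⟩ <;> try omega
            rcases left_inv hA hi hb with
              ⟨h, _⟩ | ⟨h, _⟩ | ⟨_, q2, h2, h2', h2''⟩ | ⟨h, _⟩ | ⟨h, _⟩ <;> try omega
            have e1 := (right_id hA hR).2 _ h1
            have e2 := (right_id hA hR).2 _ h2
            subst e1
            subst e2
            exact QS_fun h1'' h2''
          · rintro a b ⟨s, hs, ha⟩ ⟨s', hs', hb⟩
            obtain rfl : r' = s := by omega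
            obtain rfl : r' = s' := by omega
            rcases right_inv hA hi ha with
              ⟨h, _⟩ | ⟨h, _⟩ | ⟨_, q1, h1, h1', h1''⟩ | ⟨h, _⟩ | ⟨h, _⟩ <;> try omega
            rcases right_inv hA hi hb with
              ⟨h, _⟩ | ⟨h, _⟩ | ⟨_, q2, h2, h2', h2''⟩ | ⟨h, _⟩ | ⟨h, _⟩ <;> try omega
            have n1 : ¬ q1 < q2 := fun h => h2' ⟨hR, h2, q1, h, h1⟩
            have n2 : ¬ q2 < q1 := fun h => h1' ⟨hR, h1, q2, h, h2⟩
            obtain rfl : q1 = q2 := by omega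
            exact PS_fun h1'' h2''
        · -- no point of degree three here
          by_cases h2l : ∃ a b, a < b ∧ E r p a ∧ E r p b
          · -- two neighbours on the left side of the edge set: no backward neighbour
            obtain ⟨a, b, hab, ha, hb⟩ := h2l
            have hno : ¬ ∃ r' u, r = r' + 1 ∧ E r' u p := fun h =>
              hL ⟨⟨a, ha, b, hab, hb⟩, h⟩
            refine Or.inr (Or.inl ⟨?_, ?_⟩)
            · intro a b d ha hb hd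
              rcases left_inv hA hi ha with
                ⟨h, _⟩ | ⟨h, _⟩ | ⟨_, q1, h1, h1', h1''⟩ | ⟨h, _⟩ | ⟨h, _⟩ <;> try omega
              rcases left_inv hA hi hb with
                ⟨h, _⟩ | ⟨h, _⟩ | ⟨_, q2, h2, h2', h2''⟩ | ⟨h, _⟩ | ⟨h, _⟩ <;> try omega
              rcases left_inv hA hi hd with
                ⟨h, _⟩ | ⟨h, _⟩ | ⟨_, q3, h3, h3', h3''⟩ | ⟨h, _⟩ | ⟨h, _⟩ <;> try omega
              rcases hA.f2 _ _ _ _ _ h1 h2 h3 with h | h | h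
              · subst h
                exact Or.inl (QS_fun h1'' h2'')
              · subst h
                exact Or.inr (Or.inl (QS_fun h2'' h3''))
              · subst h
                exact Or.inr (Or.inr (QS_fun h1'' h3''))
            · rintro Q ⟨r', rfl, h⟩
              rcases right_inv hA hi h with
                ⟨h, _⟩ | ⟨h, _⟩ | ⟨_, q1, h1, h1', h1''⟩ | ⟨h, _⟩ | ⟨h, _⟩ <;> try omega
              exact hno ⟨r', q1, rfl, h1⟩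
          · by_cases h2r : ∃ r' a b, r = r' + 1 ∧ a < b ∧ E r' a p ∧ E r' b p
            · obtain ⟨r', a, b, rfl, hab, ha, hb⟩ := h2r
              have hno : ¬ ∃ z, E (r' + 1) p z := fun h =>
                hR ⟨r', rfl, ⟨b, hb, a, hab, ha⟩, h⟩
              refine Or.inr (Or.inr ⟨?_, ?_⟩)
              · rintro a b d ⟨s, hs, ha⟩ ⟨s', hs', hb⟩ ⟨s'', hs'', hd⟩
                obtain rfl : r' = s := by omega
                obtain rfl : r' = s' := by omega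
                obtain rfl : r' = s'' := by omega
                rcases right_inv hA hi ha with
                  ⟨h, _⟩ | ⟨h, _⟩ | ⟨_, q1, h1, h1', h1''⟩ | ⟨h, _⟩ | ⟨h, _⟩ <;> try omega
                rcases right_inv hA hi hb with
                  ⟨h, _⟩ | ⟨h, _⟩ | ⟨_, q2, h2, h2', h2''⟩ | ⟨h, _⟩ | ⟨h, _⟩ <;> try omega
                rcases right_inv hA hi hd with
                  ⟨h, _⟩ | ⟨h, _⟩ | ⟨_, q3, h3, h3', h3''⟩ | ⟨h, _⟩ | ⟨h, _⟩ <;> try omega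
                rcases hA.b2 _ _ _ _ _ h1 h2 h3 with h | h | h
                · subst h
                  exact Or.inl (PS_fun h1'' h2'')
                · subst h
                  exact Or.inr (Or.inl (PS_fun h2'' h3''))
                · subst h
                  exact Or.inr (Or.inr (PS_fun h1'' h3''))
              · intro Q h
                rcases left_inv hA hi h with
                  ⟨h, _⟩ | ⟨h, _⟩ | ⟨_, q1, h1, h1', h1''⟩ | ⟨h, _⟩ | ⟨h, _⟩ <;> try omega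
                exact hno ⟨q1, h1⟩
            · refine Or.inl ⟨?_, ?_⟩
              · intro a b ha hb
                rcases left_inv hA hi ha with
                  ⟨h, _⟩ | ⟨h, _⟩ | ⟨_, q1, h1, h1', h1''⟩ | ⟨h, _⟩ | ⟨h, _⟩ <;> try omega
                rcases left_inv hA hi hb with
                  ⟨h, _⟩ | ⟨h, _⟩ | ⟨_, q2, h2, h2', h2''⟩ | ⟨h, _⟩ | ⟨h, _⟩ <;> try omega
                have n1 : ¬ q1 < q2 := fun h => h2l ⟨q1, q2, h, h1, h2⟩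
                have n2 : ¬ q2 < q1 := fun h => h2l ⟨q2, q1, h, h2, h1⟩
                obtain rfl : q1 = q2 := by omega
                exact QS_fun h1'' h2''
              · rintro a b ⟨r', rfl, ha⟩ ⟨r'', hr, hb⟩
                obtain rfl : r' = r'' := by omega
                rcases right_inv hA hi ha with
                  ⟨h, _⟩ | ⟨h, _⟩ | ⟨_, q1, h1, h1', h1''⟩ | ⟨h, _⟩ | ⟨h, _⟩ <;> try omega
                rcases right_inv hA hi hb with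
                  ⟨h, _⟩ | ⟨h, _⟩ | ⟨_, q2, h2, h2', h2''⟩ | ⟨h, _⟩ | ⟨h, _⟩ <;> try omega
                have n1 : ¬ q1 < q2 := fun h => h2r ⟨r', q1, q2, rfl, h, h1, h2⟩
                have n2 : ¬ q2 < q1 := fun h => h2r ⟨r', q2, q1, rfl, h, h2, h1⟩
                obtain rfl : q1 = q2 := by omega
                exact PS_fun h1'' h2''
    · -- i = 3
      refine Or.inl ⟨?_, ?_⟩
      · intro a b ha hb
        rcases left_inv hA hi ha with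
          ⟨h, _⟩ | ⟨h, _⟩ | ⟨h, _⟩ | ⟨_, q1, h1, h1'⟩ | ⟨_, h1, h1'⟩ <;> try omega
        · rcases left_inv hA hi hb with
            ⟨h, _⟩ | ⟨h, _⟩ | ⟨h, _⟩ | ⟨_, q2, h2, h2'⟩ | ⟨_, h2, h2'⟩ <;> try omega
          · obtain rfl := lo_unique hA h1.2 h2.2
            exact QS_fun h1' h2'
          · exact absurd (Or.inl ⟨_, h1.1⟩) (gens hA h2')
        · rcases left_inv hA hi hb with
            ⟨h, _⟩ | ⟨h, _⟩ | ⟨h, _⟩ | ⟨_, q2, h2, h2'⟩ | ⟨_, h2, h2'⟩ <;> try omega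
          · exact absurd (Or.inl ⟨_, h2.1⟩) (gens hA h1')
      · rintro a b ⟨r', rfl, ha⟩ ⟨r'', hr, hb⟩
        obtain rfl : r' = r'' := by omega
        rcases right_inv hA hi ha with
          ⟨h, _⟩ | ⟨h, _⟩ | ⟨h, _⟩ | ⟨_, q1, h1, h1', h1''⟩ | ⟨h, _⟩ <;> try omega
        rcases right_inv hA hi hb with
          ⟨h, _⟩ | ⟨h, _⟩ | ⟨h, _⟩ | ⟨_, q2, h2, h2', h2''⟩ | ⟨h, _⟩ <;> try omega
        have := hi_unique hA h1' h2'
        omega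
    · -- i = 4
      refine Or.inr (Or.inr ⟨?_, ?_⟩)
      · rintro a b d ⟨r', rfl, ha⟩ ⟨s', hs', hb⟩ ⟨s'', hs'', hd⟩
        obtain rfl : r' = s' := by omega
        obtain rfl : r' = s'' := by omega
        rcases right_inv hA hi ha with
          ⟨h, _⟩ | ⟨h, _⟩ | ⟨h, _⟩ | ⟨h, _⟩ | ⟨_, q1, _, h1, h1'⟩ <;> try omega
        rcases right_inv hA hi hb with
          ⟨h, _⟩ | ⟨h, _⟩ | ⟨h, _⟩ | ⟨h, _⟩ | ⟨_, q2, _, h2, h2'⟩ <;> try omega
        rcases right_inv hA hi hd with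
          ⟨h, _⟩ | ⟨h, _⟩ | ⟨h, _⟩ | ⟨h, _⟩ | ⟨_, q3, _, h3, h3'⟩ <;> try omega
        have := hA.b2 _ _ _ _ _ h1.1 h2.1 h3.1
        omega
      · intro Q h
        rcases left_inv hA hi h with ⟨h, _⟩ | ⟨h, _⟩ | ⟨h, _⟩ | ⟨h, _⟩ | ⟨h, _⟩ <;> omega
  obtain ⟨l, h1, h2, h3⟩ := key
  exact ⟨l, h1, h2, fun r' Q hr h => h3 Q ⟨r', hr, h⟩⟩

end

end Pool.Agent.Lib89.N2
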