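import Mathlib
import Pool.Agent.Lib_helper89.NN.Main
import Pool.Agent.Lib_helper89.N2.Defs
import Pool.Agent.Lib_helper89.N2.AF

/-! Block FO2: definability of the directed adjacency of the new graph. -/

namespace Pool.Agent.Lib89.N2

open Pool.Agent.Lib57 Pool.Agent.Lib89.NN Pool.Agent.Lib89.N2

private theorem form_occ {D : DCNF} (hD : D.Good 5) (s : Bool) :
    IsForm 2 (fun x e => occ D x (e 0) (e 1) s) := by
  refine IsForm.exMem D.pats.zipIdx fun pk hpk => ?_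
  have hπ := (mem_zipIdx' hpk).2
  refine (IsForm.ex (φ := fun x e => ∃ i < D.H x,
    e 0 = (e 2 * D.H x + i) * D.pats.length + pk.2 ∧
      ((¬ pk.1.guard x (e 2) i ∧ e 1 = DPhi D x) ∨
        (pk.1.guard x (e 2) i ∧ ∃ l ∈ pk.1.lits,
          e 1 = ((e 2 + l.dt) * D.H x + l.pos i) * D.A + l.code ∧ s = l.sign)))
    (hD.T_term.weaken (Nat.zero_le 2)) ?_).congr fun x e => by simp
  refine (IsForm.ex (φ := fun x e =>
    e 0 = (e 2 * D.H x + e 3) * D.pats.length + pk.2 ∧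
      ((¬ pk.1.guard x (e 2) (e 3) ∧ e 1 = DPhi D x) ∨
        (pk.1.guard x (e 2) (e 3) ∧ ∃ l ∈ pk.1.lits,
          e 1 = ((e 2 + l.dt) * D.H x + l.pos (e 3)) * D.A + l.code ∧ s = l.sign)))
    (hD.H_term.weaken (Nat.zero_le 3)) ?_).congr fun x e => by simp
  have hg : IsForm 4 (fun x e => pk.1.guard x (e 2) (e 3)) :=
    (hD.guard_form pk.1 hπ).rename (fun i => i + 2) (fun i hi => by omega)
  have v0 : IsTerm 4 (fun _ e => e 0) := IsTerm.var (by norm_num)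
  have v1 : IsTerm 4 (fun _ e => e 1) := IsTerm.var (by norm_num)
  have v2 : IsTerm 4 (fun _ e => e 2) := IsTerm.var (by norm_num)
  have v3 : IsTerm 4 (fun _ e => e 3) := IsTerm.var (by norm_num)
  have hH := hD.H_term.weaken (Nat.zero_le 4)
  have hs : ∀ b, IsForm 4 (fun _ _ => s = b) := by
    intro b
    by_cases h : s = b
    · exact (IsForm.true 4).congr fun _ _ => by simp [h]
    · exact (IsForm.false 4).congr fun _ _ => by simp [h]
  have hpos : ∀ l : Lit, IsTerm 4 (fun _ e => l.pos (e 3)) := by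
    intro l
    unfold Lit.pos
    cases l.di with
    | none => exact IsTerm.const 4 0
    | some d => exact v3.add (IsTerm.const 4 d)
  exact (IsForm.eq v0 ((((v2.mul hH).add v3).mul (IsTerm.const 4 _)).add (IsTerm.const 4 _))).and
    ((hg.not.and (IsForm.eq v1 (term_Phi hD 4))).or
      (hg.and (IsForm.exMem pk.1.lits fun l _ =>
        (IsForm.eq v1 (((((v2.add (IsTerm.const 4 l.dt)).mul hH).add (hpos l)).mul
          (IsTerm.const 4 D.A)).add (IsTerm.const 4 l.code))).and (hs l.sign))))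

/-- variables: c = e 5, v = e 6, k = e 7, a = e 8, b = e 9 -/
private theorem form_gRel2 {D : DCNF} (hD : D.Good 5) :
    IsForm 10 (fun x e => e 7 < 6 ∧ gRel2 (occ D x) (e 5) (e 6) (e 7) (e 8) (e 9)) := by
  have ho : ∀ s, IsForm 10 (fun x e => occ D x (e 5) (e 6) s) := fun s =>
    (form_occ hD s).rename (fun i => i + 5) (fun i hi => by omega)
  have hbo : ∀ (b s : Bool), IsForm 10 (fun x e => b = true ↔ occ D x (e 5) (e 6) s) := by
    intro b s
    cases b with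
    | true => exact (ho s).congr fun x e => by simp
    | false => exact (ho s).not.congr fun x e => by simp
  have v7 : IsTerm 10 (fun _ e => e 7) := IsTerm.var (by norm_num)
  have v8 : IsTerm 10 (fun _ e => e 8) := IsTerm.var (by norm_num)
  have v9 : IsTerm 10 (fun _ e => e 9) := IsTerm.var (by norm_num)
  have key : IsForm 10 (fun x e => ∃ pn ∈ [(false, false), (false, true), (true, false),
      (true, true)], (pn.1 = true ↔ occ D x (e 5) (e 6) true) ∧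
        (pn.2 = true ↔ occ D x (e 5) (e 6) false) ∧
        ∃ κ ∈ List.range 6, e 7 = κ ∧ ∃ ab ∈ gE2 pn.1 pn.2 κ, e 8 = ab.1 ∧ e 9 = ab.2) := by
    refine IsForm.exMem _ fun pn _ => ?_
    refine (hbo pn.1 true).and ((hbo pn.2 false).and (IsForm.exMem _ fun κ _ => ?_))
    refine (IsForm.eq v7 (IsTerm.const 10 κ)).and (IsForm.exMem _ fun ab _ => ?_)
    exact (IsForm.eq v8 (IsTerm.const 10 ab.1)).and (IsForm.eq v9 (IsTerm.const 10 ab.2))
  refine key.congr fun x e => ?_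
  constructor
  · rintro ⟨pn, _, h1, h2, κ, hκ, h7, ab, hab, h8, h9⟩
    rw [List.mem_range] at hκ
    refine ⟨by omega, pn.1, pn.2, h1, h2, ?_⟩
    rw [h7, h8, h9]
    exact hab
  · rintro ⟨h7, pos, neg, h1, h2, hab⟩
    refine ⟨(pos, neg), ?_, h1, h2, e 7, List.mem_range.2 h7, rfl, (e 8, e 9), hab, rfl, rfl⟩
    cases pos <;> cases neg <;> simp

private theorem term_V {D : DCNF} (hD : D.Good 5) (k : ℕ) :
    IsTerm k (fun x _ => DPhi D x + 1) := (term_Phi hD k).add (IsTerm.const k 1)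

private theorem term_C {D : DCNF} (hD : D.Good 5) (k : ℕ) :
    IsTerm k (fun x _ => DGam D x + 1) := (term_Gam hD k).add (IsTerm.const k 1)

/-- `18 V + 2` -/
private theorem term_L {D : DCNF} (hD : D.Good 5) (k : ℕ) :
    IsTerm k (fun x _ => 18 * (DPhi D x + 1) + 2) :=
  ((IsTerm.const k 18).mul (term_V hD k)).add (IsTerm.const k 2)

private theorem term_Wd {D : DCNF} (hD : D.Good 5) (k : ℕ) :
    IsTerm k (fun x _ => 2 * (DPhi D x + 1) + 2) :=
  ((IsTerm.const k 2).mul (term_V hD k)).add (IsTerm.const k 2)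

private theorem term_nK {D : DCNF} (hD : D.Good 5) (k : ℕ) :
    IsTerm k (fun x _ => nK (DPhi D x + 1) (DGam D x + 1)) :=
  ((term_C hD k).mul (term_L hD k)).add (IsTerm.const k 1)

private theorem term_nV' {D : DCNF} (hD : D.Good 5) (k : ℕ) :
    IsTerm k (fun x _ => nV (DPhi D x + 1) (DGam D x + 1)) :=
  ((term_nK hD k).add (IsTerm.const k 1)).mul (term_Wd hD k)

/-- the generator alternative: r = e 2, p = e 3, q = e 4, c = e 5, v = e 6, k = e 7 -/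
private theorem form_ab {D : DCNF} (hD : D.Good 5) :
    IsForm 8 (fun x e => ∃ a < 4, ∃ b < 4, e 3 = 2 * e 6 + a ∧ e 4 = 2 * e 6 + b ∧
      (e 7 < 6 ∧ gRel2 (occ D x) (e 5) (e 6) (e 7) a b)) := by
  refine (IsForm.ex (φ := fun x e => ∃ b < 4, e 3 = 2 * e 6 + e 8 ∧ e 4 = 2 * e 6 + b ∧
      (e 7 < 6 ∧ gRel2 (occ D x) (e 5) (e 6) (e 7) (e 8) b))
    (IsTerm.const 8 4) ?_).congr fun x e => by simp
  refine (IsForm.ex (φ := fun x e => e 3 = 2 * e 6 + e 8 ∧ e 4 = 2 * e 6 + e 9 ∧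
      (e 7 < 6 ∧ gRel2 (occ D x) (e 5) (e 6) (e 7) (e 8) (e 9)))
    (IsTerm.const 9 4) ?_).congr fun x e => by simp
  have v3 : IsTerm 10 (fun _ e => e 3) := IsTerm.var (by norm_num)
  have v4 : IsTerm 10 (fun _ e => e 4) := IsTerm.var (by norm_num)
  have v6 : IsTerm 10 (fun _ e => e 6) := IsTerm.var (by norm_num)
  have v8 : IsTerm 10 (fun _ e => e 8) := IsTerm.var (by norm_num)
  have v9 : IsTerm 10 (fun _ e => e 9) := IsTerm.var (by norm_num)
  exact (IsForm.eq v3 (((IsTerm.const 10 2).mul v6).add v8)).and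
    ((IsForm.eq v4 (((IsTerm.const 10 2).mul v6).add v9)).and (form_gRel2 hD))

/-- the inner alternative: r = e 2, p = e 3, q = e 4, c = e 5, v = e 6, k = e 7 -/
private theorem form_k {D : DCNF} (hD : D.Good 5) :
    IsForm 8 (fun x e =>
      (e 2 = 4 + e 5 * (18 * (DPhi D x + 1) + 2) + 18 * e 6 + 3 * e 7 ∧
        ((e 3 = e 4 ∧ e 3 < 2 * (DPhi D x + 1) + 2 ∧ (e 3 < 2 * e 6 ∨ 2 * e 6 + 4 ≤ e 3)) ∨
          ∃ a < 4, ∃ b < 4, e 3 = 2 * e 6 + a ∧ e 4 = 2 * e 6 + b ∧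
            (e 7 < 6 ∧ gRel2 (occ D x) (e 5) (e 6) (e 7) a b))) ∨
      ((e 2 = 3 + e 5 * (18 * (DPhi D x + 1) + 2) + 18 * e 6 + 3 * e 7 ∨
          e 2 = 5 + e 5 * (18 * (DPhi D x + 1) + 2) + 18 * e 6 + 3 * e 7) ∧
        e 3 = e 4 ∧ e 3 < 2 * (DPhi D x + 1) + 2)) := by
  have v2 : IsTerm 8 (fun _ e => e 2) := IsTerm.var (by norm_num)
  have v3 : IsTerm 8 (fun _ e => e 3) := IsTerm.var (by norm_num)
  have v4 : IsTerm 8 (fun _ e => e 4) := IsTerm.var (by norm_num)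
  have v5 : IsTerm 8 (fun _ e => e 5) := IsTerm.var (by norm_num)
  have v6 : IsTerm 8 (fun _ e => e 6) := IsTerm.var (by norm_num)
  have v7 : IsTerm 8 (fun _ e => e 7) := IsTerm.var (by norm_num)
  have hr : ∀ n : ℕ, IsForm 8 (fun x e =>
      e 2 = n + e 5 * (18 * (DPhi D x + 1) + 2) + 18 * e 6 + 3 * e 7) := fun n =>
    IsForm.eq v2 ((((IsTerm.const 8 n).add (v5.mul (term_L hD 8))).add
      ((IsTerm.const 8 18).mul v6)).add ((IsTerm.const 8 3).mul v7))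
  have hlt : IsForm 8 (fun x e => e 3 < 2 * (DPhi D x + 1) + 2) := IsForm.lt v3 (term_Wd hD 8)
  have h2v : IsTerm 8 (fun _ e => 2 * e 6) := (IsTerm.const 8 2).mul v6
  exact ((hr 4).and (((IsForm.eq v3 v4).and (hlt.and ((IsForm.lt v3 h2v).or
    (IsForm.le (h2v.add (IsTerm.const 8 4)) v3)))).or (form_ab hD))).or
      (((hr 3).or (hr 5)).and ((IsForm.eq v3 v4).and hlt))

/-- r = e 2, p = e 3, q = e 4 -/
private theorem form_RowE2 {D : DCNF} (hD : D.Good 5) :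
    IsForm 5 (fun x e => RowE2 (DPhi D x + 1) (DGam D x + 1) (occ D x) (e 2) (e 3) (e 4)) := by
  have v2 : IsTerm 5 (fun _ e => e 2) := IsTerm.var (by norm_num)
  have v3 : IsTerm 5 (fun _ e => e 3) := IsTerm.var (by norm_num)
  have v4 : IsTerm 5 (fun _ e => e 4) := IsTerm.var (by norm_num)
  have hV1 : IsTerm 5 (fun x _ => DPhi D x + 1 + 1) := (term_V hD 5).add (IsTerm.const 5 1)
  have h2p : IsTerm 5 (fun _ e => 2 * e 3) := (IsTerm.const 5 2).mul v3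
  have h2q : IsTerm 5 (fun _ e => 2 * e 4) := (IsTerm.const 5 2).mul v4
  have h1 : IsForm 5 (fun x e => e 2 = 0 ∧ e 3 < DPhi D x + 1 + 1 ∧
      (e 4 = 2 * e 3 ∨ e 4 = 2 * e 3 + 1)) :=
    (IsForm.eq v2 (IsTerm.const 5 0)).and ((IsForm.lt v3 hV1).and
      ((IsForm.eq v4 h2p).or (IsForm.eq v4 (h2p.add (IsTerm.const 5 1)))))
  have h2 : IsForm 5 (fun x e => e 2 = nK (DPhi D x + 1) (DGam D x + 1) ∧
      e 4 < DPhi D x + 1 + 1 ∧ (e 3 = 2 * e 4 ∨ e 3 = 2 * e 4 + 1)) :=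
    (IsForm.eq v2 (term_nK hD 5)).and ((IsForm.lt v4 hV1).and
      ((IsForm.eq v3 h2q).or (IsForm.eq v3 (h2q.add (IsTerm.const 5 1)))))
  have h3 : IsForm 5 (fun x e => ∃ c < DGam D x + 1,
    (e 2 = 1 + c * (18 * (DPhi D x + 1) + 2) ∧ e 4 = e 3 + 1 ∧ e 4 < 2 * (DPhi D x + 1) + 2) ∨
    (e 2 = 2 + c * (18 * (DPhi D x + 1) + 2) ∧ ((e 3 = 0 ∧ e 4 = 0) ∨
      (1 ≤ e 3 ∧ e 4 = e 3 + 1 ∧ e 4 < 2 * (DPhi D x + 1) + 2))) ∨
    ∃ v < DPhi D x + 1, ∃ k < 6,
      (e 2 = 4 + c * (18 * (DPhi D x + 1) + 2) + 18 * v + 3 * k ∧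
        ((e 3 = e 4 ∧ e 3 < 2 * (DPhi D x + 1) + 2 ∧ (e 3 < 2 * v ∨ 2 * v + 4 ≤ e 3)) ∨
          ∃ a < 4, ∃ b < 4, e 3 = 2 * v + a ∧ e 4 = 2 * v + b ∧
            (k < 6 ∧ gRel2 (occ D x) c v k a b))) ∨
      ((e 2 = 3 + c * (18 * (DPhi D x + 1) + 2) + 18 * v + 3 * k ∨
          e 2 = 5 + c * (18 * (DPhi D x + 1) + 2) + 18 * v + 3 * k) ∧
        e 3 = e 4 ∧ e 3 < 2 * (DPhi D x + 1) + 2)) := by
    refine (IsForm.ex (φ := fun x e =>
      (e 2 = 1 + e 5 * (18 * (DPhi D x + 1) + 2) ∧ e 4 = e 3 + 1 ∧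
        e 4 < 2 * (DPhi D x + 1) + 2) ∨
      (e 2 = 2 + e 5 * (18 * (DPhi D x + 1) + 2) ∧ ((e 3 = 0 ∧ e 4 = 0) ∨
        (1 ≤ e 3 ∧ e 4 = e 3 + 1 ∧ e 4 < 2 * (DPhi D x + 1) + 2))) ∨
      ∃ v < DPhi D x + 1, ∃ k < 6,
        (e 2 = 4 + e 5 * (18 * (DPhi D x + 1) + 2) + 18 * v + 3 * k ∧
          ((e 3 = e 4 ∧ e 3 < 2 * (DPhi D x + 1) + 2 ∧ (e 3 < 2 * v ∨ 2 * v + 4 ≤ e 3)) ∨
            ∃ a < 4, ∃ b < 4, e 3 = 2 * v + a ∧ e 4 = 2 * v + b ∧
              (k < 6 ∧ gRel2 (occ D x) (e 5) v k a b))) ∨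
        ((e 2 = 3 + e 5 * (18 * (DPhi D x + 1) + 2) + 18 * v + 3 * k ∨
            e 2 = 5 + e 5 * (18 * (DPhi D x + 1) + 2) + 18 * v + 3 * k) ∧
          e 3 = e 4 ∧ e 3 < 2 * (DPhi D x + 1) + 2)) (term_C hD 5) ?_).congr
        fun x e => by simp
    have w2 : IsTerm 6 (fun _ e => e 2) := IsTerm.var (by norm_num)
    have w3 : IsTerm 6 (fun _ e => e 3) := IsTerm.var (by norm_num)
    have w4 : IsTerm 6 (fun _ e => e 4) := IsTerm.var (by norm_num)
    have w5 : IsTerm 6 (fun _ e => e 5) := IsTerm.var (by norm_num)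
    have hcL : IsTerm 6 (fun x e => e 5 * (18 * (DPhi D x + 1) + 2)) := w5.mul (term_L hD 6)
    have hs : IsForm 6 (fun _ e => e 4 = e 3 + 1) := IsForm.eq w4 (w3.add (IsTerm.const 6 1))
    have hl : IsForm 6 (fun x e => e 4 < 2 * (DPhi D x + 1) + 2) := IsForm.lt w4 (term_Wd hD 6)
    refine ((IsForm.eq w2 ((IsTerm.const 6 1).add hcL)).and (hs.and hl)).or
      (((IsForm.eq w2 ((IsTerm.const 6 2).add hcL)).and
        (((IsForm.eq w3 (IsTerm.const 6 0)).and (IsForm.eq w4 (IsTerm.const 6 0))).or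
          ((IsForm.le (IsTerm.const 6 1) w3).and (hs.and hl)))).or ?_)
    refine (IsForm.ex (φ := fun x e => ∃ k < 6,
        (e 2 = 4 + e 5 * (18 * (DPhi D x + 1) + 2) + 18 * e 6 + 3 * k ∧
          ((e 3 = e 4 ∧ e 3 < 2 * (DPhi D x + 1) + 2 ∧ (e 3 < 2 * e 6 ∨ 2 * e 6 + 4 ≤ e 3)) ∨
            ∃ a < 4, ∃ b < 4, e 3 = 2 * e 6 + a ∧ e 4 = 2 * e 6 + b ∧
              (k < 6 ∧ gRel2 (occ D x) (e 5) (e 6) k a b))) ∨
        ((e 2 = 3 + e 5 * (18 * (DPhi D x + 1) + 2) + 18 * e 6 + 3 * k ∨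
            e 2 = 5 + e 5 * (18 * (DPhi D x + 1) + 2) + 18 * e 6 + 3 * k) ∧
          e 3 = e 4 ∧ e 3 < 2 * (DPhi D x + 1) + 2)) (term_V hD 6) ?_).congr
        fun x e => by simp
    refine (IsForm.ex (φ := fun x e =>
        (e 2 = 4 + e 5 * (18 * (DPhi D x + 1) + 2) + 18 * e 6 + 3 * e 7 ∧
          ((e 3 = e 4 ∧ e 3 < 2 * (DPhi D x + 1) + 2 ∧ (e 3 < 2 * e 6 ∨ 2 * e 6 + 4 ≤ e 3)) ∨
            ∃ a < 4, ∃ b < 4, e 3 = 2 * e 6 + a ∧ e 4 = 2 * e 6 + b ∧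
              (e 7 < 6 ∧ gRel2 (occ D x) (e 5) (e 6) (e 7) a b))) ∨
        ((e 2 = 3 + e 5 * (18 * (DPhi D x + 1) + 2) + 18 * e 6 + 3 * e 7 ∨
            e 2 = 5 + e 5 * (18 * (DPhi D x + 1) + 2) + 18 * e 6 + 3 * e 7) ∧
          e 3 = e 4 ∧ e 3 < 2 * (DPhi D x + 1) + 2)) (IsTerm.const 7 6) ?_).congr
        fun x e => by simp
    exact form_k hD
  refine (h1.or (h2.or h3)).congr fun x e => ?_
  unfold RowE2
  refine or_congr Iff.rfl (or_congr Iff.rfl ?_)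
  refine exists_congr fun c => and_congr_right fun _ => or_congr Iff.rfl (or_congr Iff.rfl ?_)
  refine exists_congr fun v => and_congr_right fun _ => exists_congr fun k =>
    and_congr_right fun hk => or_congr (and_congr_right fun _ => or_congr Iff.rfl ?_) Iff.rfl
  exact exists_congr fun a => and_congr_right fun _ => exists_congr fun b =>
    and_congr_right fun _ => and_congr_right fun _ => and_congr_right fun _ =>
      and_iff_right hk


/-! ### substitution -/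

private theorem subst1 {k : ℕ} {t : List Bool → (ℕ → ℕ) → ℕ} {φ : List Bool → (ℕ → ℕ) → Prop}
    (ht : IsTerm k t) (hφ : IsForm (k + 1) φ) :
    IsForm k (fun x e => φ x (Function.update e k (t x e))) := by
  refine (IsForm.ex (φ := fun x e => e k = t x e ∧ φ x e) (ht.add (IsTerm.const k 1))
    ((IsForm.eq (IsTerm.var (Nat.lt_succ_self k)) (ht.weaken (Nat.le_succ k))).and hφ)).congr ?_
  intro x e
  have hi : ∀ v, t x (Function.update e k v) = t x e := fun v =>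
    ht.indep x _ _ fun i hi => Function.update_of_ne (by omega) _ _
  constructor
  · rintro ⟨v, hv, h1, h2⟩
    rw [hi, Function.update_self] at h1
    rwa [← h1]
  · intro h
    refine ⟨t x e, Nat.lt_succ_self _, ?_, h⟩
    rw [hi, Function.update_self]

private theorem app3 {k : ℕ} {φ : List Bool → ℕ → ℕ → ℕ → Prop}
    (h : IsForm 3 (fun x e => φ x (e 0) (e 1) (e 2))) {a b c : List Bool → (ℕ → ℕ) → ℕ}
    (ha : IsTerm k a) (hb : IsTerm k b) (hc : IsTerm k c) :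
    IsForm k (fun x e => φ x (a x e) (b x e) (c x e)) := by
  have h1 : IsForm (k + 3) (fun x e => φ x (e k) (e (k + 1)) (e (k + 2))) :=
    (h.rename (fun i => k + i) (fun i hi => by omega)).congr fun x e => by simp
  have h2 : IsForm (k + 2) (fun x e => φ x (e k) (e (k + 1)) (c x e)) := by
    refine (subst1 (hc.weaken (by omega)) h1).congr fun x e => ?_
    rw [Function.update_of_ne (by omega), Function.update_of_ne (by omega), Function.update_self]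
  have h3 : IsForm (k + 1) (fun x e => φ x (e k) (b x e) (c x e)) := by
    refine (subst1 (hb.weaken (by omega)) h2).congr fun x e => ?_
    rw [Function.update_of_ne (by omega), Function.update_self,
      hc.indep x (Function.update e (k + 1) (b x e)) e
        fun i hi => Function.update_of_ne (by omega) _ _]
  refine (subst1 ha h3).congr fun x e => ?_
  rw [Function.update_self, hc.indep x (Function.update e k (a x e)) e
      fun i hi => Function.update_of_ne (by omega) _ _,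
    hb.indep x (Function.update e k (a x e)) e
      fun i hi => Function.update_of_ne (by omega) _ _]

private theorem app2 {k : ℕ} {φ : List Bool → ℕ → ℕ → Prop}
    (h : IsForm 2 (fun x e => φ x (e 0) (e 1))) {a b : List Bool → (ℕ → ℕ) → ℕ}
    (ha : IsTerm k a) (hb : IsTerm k b) :
    IsForm k (fun x e => φ x (a x e) (b x e)) :=
  app3 (φ := fun x r p _ => φ x r p) (h.weaken (by norm_num)) ha hb hb

/-! ### the row relations -/

/-- the row relation of the formula of `x` -/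
private def RE (D : DCNF) (x : List Bool) : ℕ → ℕ → ℕ → Prop :=
  RowE2 (DPhi D x + 1) (DGam D x + 1) (occ D x)

private def Wx (D : DCNF) (x : List Bool) : ℕ := 2 * (DPhi D x + 1) + 2

private theorem RE_lt {D : DCNF} {x : List Bool} {r p q : ℕ} (h : RE D x r p q) :
    p < Wx D x ∧ q < Wx D x := by
  unfold Wx
  rcases h with ⟨h, h1, h2⟩ | ⟨h, h1, h2⟩ | ⟨c, hc, ⟨h, h1, h2⟩ | ⟨h, h1⟩ |
    ⟨v, hv, k, hk, ⟨h, h1⟩ | ⟨h, h1, h2⟩⟩⟩
  · omega
  · omega
  · omega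
  · omega
  · rcases h1 with h1 | ⟨a, ha, b, hb, h1, h2, h3⟩ <;> omega
  · omega

private theorem fE {D : DCNF} (hD : D.Good 5) :
    IsForm 3 (fun x e => RE D x (e 0) (e 1) (e 2)) :=
  (form_RowE2 hD).rename (fun i => i - 2) (fun i hi => by omega)

private theorem tW {D : DCNF} (hD : D.Good 5) (k : ℕ) : IsTerm k (fun x _ => Wx D x) :=
  term_Wd hD k

private theorem fLo {D : DCNF} (hD : D.Good 5) :
    IsForm 3 (fun x e => Lo (RE D x) (e 0) (e 1) (e 2)) := by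
  have v0 : IsTerm 4 (fun _ e => e 0) := IsTerm.var (by norm_num)
  have v1 : IsTerm 4 (fun _ e => e 1) := IsTerm.var (by norm_num)
  have v2 : IsTerm 4 (fun _ e => e 2) := IsTerm.var (by norm_num)
  have v3 : IsTerm 4 (fun _ e => e 3) := IsTerm.var (by norm_num)
  have h : IsForm 3 (fun x e => ∃ q' < Wx D x, e 2 < q' ∧ RE D x (e 0) (e 1) q') :=
    (IsForm.ex (φ := fun x e => e 2 < e 3 ∧ RE D x (e 0) (e 1) (e 3)) (tW hD 3)
      ((IsForm.lt v2 v3).and (app3 (fE hD) v0 v1 v3))).congr fun x e => by simp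
  refine ((fE hD).and h).congr fun x e => ?_
  unfold Lo
  refine and_congr_right fun _ => exists_congr fun q' => ?_
  constructor
  · rintro ⟨_, h1, h2⟩
    exact ⟨h1, h2⟩
  · rintro ⟨h1, h2⟩
    exact ⟨(RE_lt h2).2, h1, h2⟩

private theorem fHi {D : DCNF} (hD : D.Good 5) :
    IsForm 3 (fun x e => Hi (RE D x) (e 0) (e 1) (e 2)) := by
  have v0 : IsTerm 4 (fun _ e => e 0) := IsTerm.var (by norm_num)
  have v1 : IsTerm 4 (fun _ e => e 1) := IsTerm.var (by norm_num)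
  have v2 : IsTerm 4 (fun _ e => e 2) := IsTerm.var (by norm_num)
  have v3 : IsTerm 4 (fun _ e => e 3) := IsTerm.var (by norm_num)
  have h : IsForm 3 (fun x e => ∃ p' < Wx D x, p' < e 1 ∧ RE D x (e 0) p' (e 2)) :=
    (IsForm.ex (φ := fun x e => e 3 < e 1 ∧ RE D x (e 0) (e 3) (e 2)) (tW hD 3)
      ((IsForm.lt v3 v1).and (app3 (fE hD) v0 v3 v2))).congr fun x e => by simp
  refine ((fE hD).and h).congr fun x e => ?_
  unfold Hi
  refine and_congr_right fun _ => exists_congr fun q' => ?_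
  constructor
  · rintro ⟨_, h1, h2⟩
    exact ⟨h1, h2⟩
  · rintro ⟨h1, h2⟩
    exact ⟨(RE_lt h2).1, h1, h2⟩

private theorem fL2 {D : DCNF} (hD : D.Good 5) :
    IsForm 2 (fun x e => L2 (RE D x) (e 0) (e 1)) := by
  have h1 : IsForm 2 (fun x e => ∃ q < Wx D x, Lo (RE D x) (e 0) (e 1) q) :=
    (IsForm.ex (φ := fun x e => Lo (RE D x) (e 0) (e 1) (e 2)) (tW hD 2) (fLo hD)).congr
      fun x e => by simp
  have v0 : IsTerm 4 (fun _ e => e 0) := IsTerm.var (by norm_num)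
  have v1 : IsTerm 4 (fun _ e => e 1) := IsTerm.var (by norm_num)
  have v2 : IsTerm 4 (fun _ e => e 2) := IsTerm.var (by norm_num)
  have v3 : IsTerm 4 (fun _ e => e 3) := IsTerm.var (by norm_num)
  have h2 : IsForm 2 (fun x e => ∃ r' < e 0, ∃ u < Wx D x, e 0 = r' + 1 ∧ RE D x r' u (e 1)) := by
    have z0 : IsTerm 2 (fun _ e => e 0) := IsTerm.var (by norm_num)
    refine (IsForm.ex (φ := fun x e => ∃ u < Wx D x, e 0 = e 2 + 1 ∧ RE D x (e 2) u (e 1))
      z0 ?_).congr fun x e => by simp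
    exact (IsForm.ex (φ := fun x e => e 0 = e 2 + 1 ∧ RE D x (e 2) (e 3) (e 1))
      (tW hD 3) ((IsForm.eq v0 (v2.add (IsTerm.const 4 1))).and
        (app3 (fE hD) v2 v3 v1))).congr fun x e => by simp
  refine (h1.and h2).congr fun x e => ?_
  unfold L2
  constructor
  · rintro ⟨⟨q, _, hq⟩, r', _, u, _, h3, h4⟩
    exact ⟨⟨q, hq⟩, r', u, h3, h4⟩
  · rintro ⟨⟨q, hq⟩, r', u, h3, h4⟩
    exact ⟨⟨q, (RE_lt hq.1).2, hq⟩, r', by omega, u, (RE_lt h4).1, h3, h4⟩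

private theorem fR2 {D : DCNF} (hD : D.Good 5) :
    IsForm 2 (fun x e => R2 (RE D x) (e 0) (e 1)) := by
  have v0 : IsTerm 3 (fun _ e => e 0) := IsTerm.var (by norm_num)
  have v1 : IsTerm 3 (fun _ e => e 1) := IsTerm.var (by norm_num)
  have v2 : IsTerm 3 (fun _ e => e 2) := IsTerm.var (by norm_num)
  have h1 : IsForm 2 (fun x e => ∃ p < Wx D x, Hi (RE D x) (e 0) p (e 1)) :=
    (IsForm.ex (φ := fun x e => Hi (RE D x) (e 0) (e 2) (e 1)) (tW hD 2)
      (app3 (φ := fun x => Hi (RE D x)) (fHi hD) v0 v2 v1)).congr fun x e => by simp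
  have h2 : IsForm 2 (fun x e => ∃ z < Wx D x, RE D x (e 0 + 1) (e 1) z) :=
    (IsForm.ex (φ := fun x e => RE D x (e 0 + 1) (e 1) (e 2)) (tW hD 2)
      (app3 (fE hD) (v0.add (IsTerm.const 3 1)) v1 v2)).congr fun x e => by simp
  refine (h1.and h2).congr fun x e => ?_
  unfold R2
  constructor
  · rintro ⟨⟨q, _, hq⟩, z, _, h3⟩
    exact ⟨⟨q, hq⟩, z, h3⟩
  · rintro ⟨⟨q, hq⟩, z, h3⟩
    exact ⟨⟨q, (RE_lt hq.1).1, hq⟩, z, (RE_lt h3).2, h3⟩

/-- the matrix of `RowF` -/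
private def MM (D : DCNF) (x : List Bool) (r P Q p q : ℕ) : Prop :=
  RE D x r p q ∧
    (((((L2 (RE D x) r p ∧ Lo (RE D x) r p q) ∧ P = 5 * p + 3) ∨
        (¬ (L2 (RE D x) r p ∧ Lo (RE D x) r p q) ∧ P = 5 * p + 2)) ∧
      (((R2 (RE D x) r q ∧ Hi (RE D x) r p q) ∧ Q = 5 * q + 1) ∨
        (¬ (R2 (RE D x) r q ∧ Hi (RE D x) r p q) ∧ Q = 5 * q + 2))) ∨
    (L2 (RE D x) (r + 1) q ∧ P = 5 * p + 3 ∧ Q = 5 * q + 1) ∨
    (L2 (RE D x) r p ∧ Lo (RE D x) r p q ∧ P = 5 * p + 1 ∧ Q = 5 * q + 4) ∨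
    (R2 (RE D x) r q ∧ Hi (RE D x) r p q ∧ P = 5 * p ∧ Q = 5 * q + 3) ∨
    ((∃ r' < r, r = r' + 1 ∧ R2 (RE D x) r' p) ∧ P = 5 * p + 3 ∧ Q = 5 * q + 1))

/-- the matrix of `RowF`: r = e 0, P = e 1, Q = e 2, p = e 3, q = e 4 -/
private theorem fM {D : DCNF} (hD : D.Good 5) :
    IsForm 5 (fun x e => MM D x (e 0) (e 1) (e 2) (e 3) (e 4)) := by
  have v0 : IsTerm 5 (fun _ e => e 0) := IsTerm.var (by norm_num)
  have v1 : IsTerm 5 (fun _ e => e 1) := IsTerm.var (by norm_num)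
  have v2 : IsTerm 5 (fun _ e => e 2) := IsTerm.var (by norm_num)
  have v3 : IsTerm 5 (fun _ e => e 3) := IsTerm.var (by norm_num)
  have v4 : IsTerm 5 (fun _ e => e 4) := IsTerm.var (by norm_num)
  have h5p : IsTerm 5 (fun _ e => 5 * e 3) := (IsTerm.const 5 5).mul v3
  have h5q : IsTerm 5 (fun _ e => 5 * e 4) := (IsTerm.const 5 5).mul v4
  have hP : ∀ i : ℕ, IsForm 5 (fun _ e => e 1 = 5 * e 3 + i) := fun i =>
    IsForm.eq v1 (h5p.add (IsTerm.const 5 i))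
  have hQ : ∀ i : ℕ, IsForm 5 (fun _ e => e 2 = 5 * e 4 + i) := fun i =>
    IsForm.eq v2 (h5q.add (IsTerm.const 5 i))
  have hL : IsForm 5 (fun x e => L2 (RE D x) (e 0) (e 3)) :=
    app2 (φ := fun x => L2 (RE D x)) (fL2 hD) v0 v3
  have hL' : IsForm 5 (fun x e => L2 (RE D x) (e 0 + 1) (e 4)) :=
    app2 (φ := fun x => L2 (RE D x)) (fL2 hD) (v0.add (IsTerm.const 5 1)) v4
  have hR : IsForm 5 (fun x e => R2 (RE D x) (e 0) (e 4)) :=
    app2 (φ := fun x => R2 (RE D x)) (fR2 hD) v0 v4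
  have hlo : IsForm 5 (fun x e => Lo (RE D x) (e 0) (e 3) (e 4)) :=
    app3 (φ := fun x => Lo (RE D x)) (fLo hD) v0 v3 v4
  have hhi : IsForm 5 (fun x e => Hi (RE D x) (e 0) (e 3) (e 4)) :=
    app3 (φ := fun x => Hi (RE D x)) (fHi hD) v0 v3 v4
  have hE : IsForm 5 (fun x e => RE D x (e 0) (e 3) (e 4)) := app3 (fE hD) v0 v3 v4
  have hR' : IsForm 5 (fun x e => ∃ r' < e 0, e 0 = r' + 1 ∧ R2 (RE D x) r' (e 3)) := by
    have w0 : IsTerm 6 (fun _ e => e 0) := IsTerm.var (by norm_num)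
    have w3 : IsTerm 6 (fun _ e => e 3) := IsTerm.var (by norm_num)
    have w5 : IsTerm 6 (fun _ e => e 5) := IsTerm.var (by norm_num)
    exact (IsForm.ex (φ := fun x e => e 0 = e 5 + 1 ∧ R2 (RE D x) (e 5) (e 3)) v0
      ((IsForm.eq w0 (w5.add (IsTerm.const 6 1))).and
        (app2 (φ := fun x => R2 (RE D x)) (fR2 hD) w5 w3))).congr fun x e => by simp
  exact hE.and ((((((hL.and hlo).and (hP 3)).or ((hL.and hlo).not.and (hP 2)))).and
      (((hR.and hhi).and (hQ 1)).or ((hR.and hhi).not.and (hQ 2)))).or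
    ((hL'.and ((hP 3).and (hQ 1))).or
      ((hL.and (hlo.and ((hP 1).and (hQ 4)))).or
        ((hR.and (hhi.and ((IsForm.eq v1 h5p).and (hQ 3)))).or
          (hR'.and ((hP 3).and (hQ 1)))))))

private theorem fF {D : DCNF} (hD : D.Good 5) :
    IsForm 3 (fun x e => RowF (RE D x) (e 0) (e 1) (e 2)) := by
  have h1 : IsForm 4 (fun x e => ∃ q < Wx D x, MM D x (e 0) (e 1) (e 2) (e 3) q) :=
    (IsForm.ex (φ := fun x e => MM D x (e 0) (e 1) (e 2) (e 3) (e 4)) (tW hD 4)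
      (fM hD)).congr fun x e => by simp
  have h : IsForm 3 (fun x e => ∃ p < Wx D x, ∃ q < Wx D x, MM D x (e 0) (e 1) (e 2) p q) :=
    (IsForm.ex (φ := fun x e => ∃ q < Wx D x, MM D x (e 0) (e 1) (e 2) (e 3) q) (tW hD 3)
      h1).congr fun x e => by simp
  refine h.congr fun x e => ?_
  unfold RowF
  constructor
  · rintro ⟨p, _, q, _, h1, h2⟩
    refine ⟨p, q, h1, ?_⟩
    rcases h2 with h2 | h2 | h2 | h2 | ⟨⟨r', _, h2, h3⟩, h4⟩
    · exact Or.inl h2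
    · exact Or.inr (Or.inl h2)
    · exact Or.inr (Or.inr (Or.inl h2))
    · exact Or.inr (Or.inr (Or.inr (Or.inl h2)))
    · exact Or.inr (Or.inr (Or.inr (Or.inr ⟨⟨r', h2, h3⟩, h4⟩)))
  · rintro ⟨p, q, h1, h2⟩
    refine ⟨p, (RE_lt h1).1, q, (RE_lt h1).2, h1, ?_⟩
    rcases h2 with h2 | h2 | h2 | h2 | ⟨⟨r', h2, h3⟩, h4⟩
    · exact Or.inl h2
    · exact Or.inr (Or.inl h2)
    · exact Or.inr (Or.inr (Or.inl h2))
    · exact Or.inr (Or.inr (Or.inr (Or.inl h2)))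
    · exact Or.inr (Or.inr (Or.inr (Or.inr ⟨⟨r', by omega, h2, h3⟩, h4⟩)))

private theorem off5_eq (V r u p : ℕ) :
    u = 5 * off V r + p ↔
      (r = 0 ∧ u = p) ∨ (1 ≤ r ∧ u + 5 * (V + 1) = 5 * (r * (2 * V + 2)) + p) := by
  unfold off
  rcases r with _ | r
  · simp
  · have h : (r + 1) * (2 * V + 2) = r * (2 * V + 2) + (2 * V + 2) := by ring
    rw [h]
    generalize r * (2 * V + 2) = m
    omega

private def NN' (D : DCNF) (x : List Bool) (u v r P Q : ℕ) : Prop :=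
  ((r = 0 ∧ u = P) ∨ (1 ≤ r ∧ u + 5 * (DPhi D x + 1 + 1) =
    5 * (r * (2 * (DPhi D x + 1) + 2)) + P)) ∧
  v + 5 * (DPhi D x + 1 + 1) = 5 * ((r + 1) * (2 * (DPhi D x + 1) + 2)) + Q ∧
  RowF (RE D x) r P Q

theorem form_DAdjN {D : DCNF} (hD : D.Good 5) :
    IsForm 2 (fun x e => DAdjN (DPhi D x + 1) (DGam D x + 1) (occ D x) (e 0) (e 1)) := by
  have v0 : IsTerm 5 (fun _ e => e 0) := IsTerm.var (by norm_num)
  have v1 : IsTerm 5 (fun _ e => e 1) := IsTerm.var (by norm_num)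
  have v2 : IsTerm 5 (fun _ e => e 2) := IsTerm.var (by norm_num)
  have v3 : IsTerm 5 (fun _ e => e 3) := IsTerm.var (by norm_num)
  have v4 : IsTerm 5 (fun _ e => e 4) := IsTerm.var (by norm_num)
  have hV1 : IsTerm 5 (fun x _ => 5 * (DPhi D x + 1 + 1)) :=
    (IsTerm.const 5 5).mul ((term_V hD 5).add (IsTerm.const 5 1))
  have m : IsForm 5 (fun x e => NN' D x (e 0) (e 1) (e 2) (e 3) (e 4)) :=
    (((IsForm.eq v2 (IsTerm.const 5 0)).and (IsForm.eq v0 v3)).or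
      ((IsForm.le (IsTerm.const 5 1) v2).and
        (IsForm.eq (v0.add hV1)
          (((IsTerm.const 5 5).mul (v2.mul (term_Wd hD 5))).add v3)))).and
      ((IsForm.eq (v1.add hV1) (((IsTerm.const 5 5).mul
        ((v2.add (IsTerm.const 5 1)).mul (term_Wd hD 5))).add v4)).and
        (app3 (φ := fun x => RowF (RE D x)) (fF hD) v2 v3 v4))
  have h5W : ∀ k, IsTerm k (fun x _ => 5 * (2 * (DPhi D x + 1) + 2)) := fun k =>
    (IsTerm.const k 5).mul (term_Wd hD k)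
  have m4 : IsForm 4 (fun x e => ∃ q < 5 * (2 * (DPhi D x + 1) + 2),
      NN' D x (e 0) (e 1) (e 2) (e 3) q) :=
    (IsForm.ex (φ := fun x e => NN' D x (e 0) (e 1) (e 2) (e 3) (e 4)) (h5W 4) m).congr
      fun x e => by simp
  have m3 : IsForm 3 (fun x e => ∃ p < 5 * (2 * (DPhi D x + 1) + 2),
      ∃ q < 5 * (2 * (DPhi D x + 1) + 2), NN' D x (e 0) (e 1) (e 2) p q) :=
    (IsForm.ex (φ := fun x e => ∃ q < 5 * (2 * (DPhi D x + 1) + 2),
      NN' D x (e 0) (e 1) (e 2) (e 3) q) (h5W 3) m4).congr fun x e => by simp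
  have m2 : IsForm 2 (fun x e => ∃ r < nK (DPhi D x + 1) (DGam D x + 1) + 1,
      ∃ p < 5 * (2 * (DPhi D x + 1) + 2),
      ∃ q < 5 * (2 * (DPhi D x + 1) + 2), NN' D x (e 0) (e 1) r p q) :=
    (IsForm.ex (φ := fun x e => ∃ p < 5 * (2 * (DPhi D x + 1) + 2),
      ∃ q < 5 * (2 * (DPhi D x + 1) + 2), NN' D x (e 0) (e 1) (e 2) p q)
      ((term_nK hD 2).add (IsTerm.const 2 1)) m3).congr fun x e => by simp
  refine m2.congr fun x e => ?_
  unfold DAdjN
  refine exists_congr fun r => and_congr_right fun _ => exists_congr fun p =>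
    and_congr_right fun _ => exists_congr fun q => and_congr_right fun _ => ?_
  rw [off5_eq, off5_eq]
  unfold NN'
  refine and_congr_right fun _ => and_congr_left fun _ => ?_
  constructor
  · intro h
    exact Or.inr ⟨by omega, h⟩
  · rintro (⟨h, _⟩ | ⟨_, h⟩)
    · omega
    · exact h

theorem term_nV5 {D : DCNF} (hD : D.Good 5) (k : ℕ) :
    IsTerm k (fun x _ => 5 * nV (DPhi D x + 1) (DGam D x + 1)) :=
  (IsTerm.const k 5).mul (term_nV' hD k)

theorem term_thr {D : DCNF} (hD : D.Good 5) (k : ℕ) :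
    IsTerm k (fun x _ => thr (DPhi D x + 1) (DGam D x + 1)) :=
  (((term_nK hD k).add (IsTerm.const k 1)).mul ((term_V hD k).add (IsTerm.const k 1))).add
    ((IsTerm.const k 8).mul ((term_C hD k).mul (term_V hD k)))

end Pool.Agent.Lib89.N2
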