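import Mathlib
import Pool.Agent.Lib_helper89.NN.Main
import Pool.Agent.Lib_helper89.N2.Defs

/-! Block OR: the optimum of a graph in rows. -/

namespace Pool.Agent.Lib89.N2

open Pool.Agent.Lib57 Pool.Agent.Lib89.NN

/-- the 2-interval of two numbers `x < y` -/
private noncomputable def mk (x y : ℕ) : TwoInterval :=
  if h : x < y then ⟨x, x, y, y, le_rfl, Nat.cast_lt.2 h, le_rfl⟩
  else ⟨0, 0, 1, 1, le_rfl, zero_lt_one, le_rfl⟩

private theorem mk_of {x y : ℕ} (h : x < y) :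
    mk x y = ⟨x, x, y, y, le_rfl, Nat.cast_lt.2 h, le_rfl⟩ := dif_pos h

private theorem mk_left {x y : ℕ} (h : x < y) : (mk x y).left = {(x : ℝ)} := by
  rw [mk_of h]
  exact Set.Icc_self _

private theorem mk_right {x y : ℕ} (h : x < y) : (mk x y).right = {(y : ℝ)} := by
  rw [mk_of h]
  exact Set.Icc_self _

private theorem mk_inj {x y x' y' : ℕ} (h : x < y) (h' : x' < y') (he : mk x y = mk x' y') :
    x = x' ∧ y = y' := by
  rw [mk_of h, mk_of h'] at he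
  have h1 := congrArg TwoInterval.a he
  have h2 := congrArg TwoInterval.c he
  exact ⟨Nat.cast_injective h1, Nat.cast_injective h2⟩

private theorem before_sing (x y : ℝ) : Before {x} {y} ↔ x < y := by
  constructor
  · intro h
    exact h x rfl y rfl
  · rintro h _ rfl _ rfl
    exact h

private theorem apart_mk {x y x' y' : ℕ} (h : x < y) (h' : x' < y') :
    Apart (mk x y) (mk x' y') ↔ x ≠ x' ∧ x ≠ y' ∧ y ≠ x' ∧ y ≠ y' := by
  unfold Apart
  rw [mk_left h, mk_left h', mk_right h, mk_right h', Set.disjoint_left]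
  constructor
  · intro H
    refine ⟨fun h5 => H (Or.inl rfl) (Or.inl ?_), fun h5 => H (Or.inl rfl) (Or.inr ?_),
      fun h5 => H (Or.inr rfl) (Or.inl ?_), fun h5 => H (Or.inr rfl) (Or.inr ?_)⟩
    all_goals rw [h5]; rfl
  · rintro ⟨h1, h2, h3, h4⟩ z (hx | hx) (hy | hy)
    · exact h1 (Nat.cast_injective (hx.symm.trans hy))
    · exact h2 (Nat.cast_injective (hx.symm.trans hy))
    · exact h3 (Nat.cast_injective (hx.symm.trans hy))
    · exact h4 (Nat.cast_injective (hx.symm.trans hy))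

private theorem prec_mk {x y x' y' : ℕ} (h : x < y) (h' : x' < y') :
    Precedes (mk x y) (mk x' y') ↔ y < x' := by
  unfold Precedes
  rw [mk_left h, mk_left h', mk_right h, mk_right h', before_sing, before_sing, before_sing,
    Nat.cast_lt, Nat.cast_lt, Nat.cast_lt]
  exact ⟨fun H => H.2.1, fun H => ⟨h, H, h'⟩⟩

private theorem cross_mk {x y x' y' : ℕ} (h : x < y) (h' : x' < y') :
    Crosses (mk x y) (mk x' y') ↔ x < x' ∧ x' < y ∧ y < y' := by
  unfold Crosses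
  rw [mk_left h, mk_left h', mk_right h, mk_right h', before_sing, before_sing, before_sing,
    Nat.cast_lt, Nat.cast_lt, Nat.cast_lt]

private theorem mem_ofGraph {m : ℕ} (G : SimpleGraph (Fin m)) (D : TwoInterval) :
    D ∈ ofGraph G ↔ ∃ i j : Fin m, i < j ∧ G.Adj i j ∧ D = mk i j := by
  constructor
  · rintro ⟨i, j, hij, hG, h1, h2, h3, h4⟩
    refine ⟨i, j, hij, hG, ?_⟩
    rw [mk_of (Fin.lt_def.1 hij)]
    exact TwoInterval.ext h1 h2 h3 h4
  · rintro ⟨i, j, hij, hG, rfl⟩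
    rw [mk_of (Fin.lt_def.1 hij)]
    exact ⟨i, j, hij, hG, rfl, rfl, rfl, rfl⟩

private theorem ofGraph_finite {m : ℕ} (G : SimpleGraph (Fin m)) : (ofGraph G).Finite := by
  refine ((Set.toFinite (Set.univ : Set (Fin m × Fin m))).image
    (fun e => mk (e.1 : ℕ) (e.2 : ℕ))).subset ?_
  intro D hD
  obtain ⟨i, j, -, -, rfl⟩ := (mem_ofGraph G D).1 hD
  exact ⟨(i, j), Set.mem_univ _, rfl⟩

private theorem le_opt {m : ℕ} (G : SimpleGraph (Fin m)) (k : ℕ) :
    k ≤ opt (ofGraph G) ↔ ∃ T ⊆ ofGraph G, Comparable T ∧ k ≤ T.ncard := by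
  have hb : BddAbove {k | ∃ T ⊆ ofGraph G, Comparable T ∧ T.ncard = k} := by
    refine ⟨(ofGraph G).ncard, ?_⟩
    rintro _ ⟨T, hT, -, rfl⟩
    exact Set.ncard_le_ncard hT (ofGraph_finite G)
  constructor
  · intro h
    have hne : {k | ∃ T ⊆ ofGraph G, Comparable T ∧ T.ncard = k}.Nonempty :=
      ⟨0, ∅, Set.empty_subset _, fun D hD => absurd hD (Set.notMem_empty D), Set.ncard_empty _⟩
    obtain ⟨T, hT, hC, hk⟩ := Nat.sSup_mem hne hb
    exact ⟨T, hT, hC, by rw [hk]; exact h⟩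
  · rintro ⟨T, hT, hC, hk⟩
    exact hk.trans (le_csSup hb ⟨T, hT, hC, rfl⟩)

private theorem f_mono {R : ℕ} (w f : ℕ → ℕ) (hf : ∀ r ≤ R, f (r + 1) = f r + w r) (r : ℕ) :
    ∀ s, r ≤ s → s ≤ R + 1 → f r ≤ f s := by
  intro s hrs
  induction s, hrs using Nat.le_induction with
  | base => intro _; exact le_rfl
  | succ s hs ih =>
      intro h
      rw [hf s (by omega)]
      have := ih (by omega)
      omega

/-- the two numbers of a row edge -/
private def aa (f : ℕ → ℕ) (t : ℕ × ℕ × ℕ) : ℕ := f t.1 + t.2.1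

private def bb (f : ℕ → ℕ) (t : ℕ × ℕ × ℕ) : ℕ := f (t.1 + 1) + t.2.2

section
variable {n R : ℕ} {w f : ℕ → ℕ} {E : ℕ → ℕ → ℕ → Prop}
  (hf : ∀ r ≤ R, f (r + 1) = f r + w r)
  (hE : ∀ r p q, E r p q → r < R ∧ p < w r ∧ q < w (r + 1))

include hf hE

private theorem ab_lt {t : ℕ × ℕ × ℕ} (ht : E t.1 t.2.1 t.2.2) : aa f t < bb f t := by
  obtain ⟨h1, h2, h3⟩ := hE _ _ _ ht
  have := hf t.1 (by omega)
  unfold aa bb
  omega

private theorem pair_lt {e t : ℕ × ℕ × ℕ} (he : E e.1 e.2.1 e.2.2) (ht : E t.1 t.2.1 t.2.2)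
    (h : e.1 < t.1) : aa f e < aa f t ∧ bb f e < bb f t ∧ aa f e < bb f t ∧
      (bb f e = aa f t ↔ t.1 = e.1 + 1 ∧ e.2.2 = t.2.1) ∧
      (bb f e < aa f t ∨ aa f t ≤ bb f e) := by
  obtain ⟨h1, h2, h3⟩ := hE _ _ _ he
  obtain ⟨h4, h5, h6⟩ := hE _ _ _ ht
  have e1 := hf e.1 (by omega)
  have e2 := hf (e.1 + 1) (by omega)
  have e3 := hf t.1 (by omega)
  have m1 := f_mono w f hf (e.1 + 1) t.1 h (by omega)
  have m2 := f_mono w f hf (e.1 + 1 + 1) (t.1 + 1) (by omega) (by omega)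
  unfold aa bb
  refine ⟨by omega, by omega, by omega, ?_, by omega⟩
  rcases Nat.lt_or_ge (e.1 + 1) t.1 with h7 | h7
  · have m3 := f_mono w f hf (e.1 + 1 + 1) t.1 (by omega) (by omega)
    constructor
    · intro h8; omega
    · intro h8; omega
  · have h8 : t.1 = e.1 + 1 := by omega
    rw [h8]
    constructor
    · intro h9; exact ⟨rfl, by omega⟩
    · intro h9; omega

private theorem conf_iff {e t : ℕ × ℕ × ℕ} (he : E e.1 e.2.1 e.2.2) (ht : E t.1 t.2.1 t.2.2) :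
    ¬ RConf e t ↔ (aa f e ≠ aa f t ∧ aa f e ≠ bb f t ∧ bb f e ≠ aa f t ∧ bb f e ≠ bb f t) ∧
      (bb f e < aa f t ∨ bb f t < aa f e ∨ (aa f e < aa f t ∧ aa f t < bb f e ∧ bb f e < bb f t) ∨
        (aa f t < aa f e ∧ aa f e < bb f t ∧ bb f t < bb f e)) := by
  have a1 := ab_lt hf hE he
  have a2 := ab_lt hf hE ht
  unfold RConf
  rcases lt_trichotomy e.1 t.1 with h | h | h
  · obtain ⟨b1, b2, b3, b4, b5⟩ := pair_lt hf hE he ht h
    constructor
    · intro H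
      have : ¬ (bb f e = aa f t) := fun h9 => H (Or.inr (Or.inl (b4.1 h9)))
      omega
    · intro H
      rintro (h9 | h9 | h9)
      · omega
      · have := b4.2 h9
        omega
      · omega
  · obtain ⟨h1, h2, h3⟩ := hE _ _ _ he
    obtain ⟨h4, h5, h6⟩ := hE _ _ _ ht
    have e1 := hf e.1 (by omega)
    have c1 : aa f t = f e.1 + t.2.1 := by unfold aa; rw [h]
    have c2 : bb f t = f (e.1 + 1) + t.2.2 := by unfold bb; rw [h]
    have c3 : aa f e = f e.1 + e.2.1 := rfl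
    have c4 : bb f e = f (e.1 + 1) + e.2.2 := rfl
    rw [h] at h2 h3
    rw [← h] at h5 h6 h2 h3
    constructor
    · intro H
      have d1 : e.2.1 ≠ t.2.1 := fun h9 => H (Or.inl ⟨h, Or.inl h9⟩)
      have d2 : e.2.2 ≠ t.2.2 := fun h9 => H (Or.inl ⟨h, Or.inr (Or.inl h9)⟩)
      have d3 : ¬ (e.2.1 < t.2.1 ∧ t.2.2 < e.2.2) :=
        fun h9 => H (Or.inl ⟨h, Or.inr (Or.inr (Or.inl h9))⟩)
      have d4 : ¬ (t.2.1 < e.2.1 ∧ e.2.2 < t.2.2) :=
        fun h9 => H (Or.inl ⟨h, Or.inr (Or.inr (Or.inr h9))⟩)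
      omega
    · intro H
      rintro (⟨-, h9⟩ | h9 | h9)
      · omega
      · omega
      · omega
  · obtain ⟨b1, b2, b3, b4, b5⟩ := pair_lt hf hE ht he h
    constructor
    · intro H
      have : ¬ (bb f t = aa f e) := fun h9 => H (Or.inr (Or.inr (b4.1 h9)))
      omega
    · intro H
      rintro (h9 | h9 | h9)
      · omega
      · omega
      · have := b4.2 h9
        omega

private theorem ab_inj {e t : ℕ × ℕ × ℕ} (he : E e.1 e.2.1 e.2.2) (ht : E t.1 t.2.1 t.2.2)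
    (h1 : aa f e = aa f t) (h2 : bb f e = bb f t) : e = t := by
  rcases lt_trichotomy e.1 t.1 with h | h | h
  · have := (pair_lt hf hE he ht h).1
    omega
  · have c1 : aa f t = f e.1 + t.2.1 := by unfold aa; rw [h]
    have c2 : bb f t = f (e.1 + 1) + t.2.2 := by unfold bb; rw [h]
    have c3 : aa f e = f e.1 + e.2.1 := rfl
    have c4 : bb f e = f (e.1 + 1) + e.2.2 := rfl
    exact Prod.ext h (Prod.ext (by omega) (by omega))
  · have := (pair_lt hf hE ht he h).1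
    omega

private theorem comp_iff {e t : ℕ × ℕ × ℕ} (he : E e.1 e.2.1 e.2.2) (ht : E t.1 t.2.1 t.2.2) :
    ¬ RConf e t ↔ Apart (mk (aa f e) (bb f e)) (mk (aa f t) (bb f t)) ∧
      (Precedes (mk (aa f e) (bb f e)) (mk (aa f t) (bb f t)) ∨
        Precedes (mk (aa f t) (bb f t)) (mk (aa f e) (bb f e)) ∨
        Crosses (mk (aa f e) (bb f e)) (mk (aa f t) (bb f t)) ∨
        Crosses (mk (aa f t) (bb f t)) (mk (aa f e) (bb f e))) := by
  have a1 := ab_lt hf hE he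
  have a2 := ab_lt hf hE ht
  rw [conf_iff hf hE he ht, apart_mk a1 a2, prec_mk a1 a2, prec_mk a2 a1, cross_mk a1 a2,
    cross_mk a2 a1]

end

theorem opt_rows {n R : ℕ} (G : SimpleGraph (Fin n)) (w f : ℕ → ℕ) (E : ℕ → ℕ → ℕ → Prop)
    (h0 : f 0 = 0) (hf : ∀ r ≤ R, f (r + 1) = f r + w r) (hn : f (R + 1) = n)
    (hE : ∀ r p q, E r p q → r < R ∧ p < w r ∧ q < w (r + 1))
    (hG : ∀ u v : Fin n, u < v → (G.Adj u v ↔ ∃ r < R, ∃ p q, (u : ℕ) = f r + p ∧
      (v : ℕ) = f (r + 1) + q ∧ E r p q)) (k : ℕ) :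
    k ≤ opt (ofGraph G) ↔ ∃ S : Finset (ℕ × ℕ × ℕ), RFree E S ∧ k ≤ S.card := by
  classical
  have hmem : ∀ D, D ∈ ofGraph G ↔ ∃ t : ℕ × ℕ × ℕ, E t.1 t.2.1 t.2.2 ∧
      D = mk (aa f t) (bb f t) := by
    intro D
    rw [mem_ofGraph]
    constructor
    · rintro ⟨i, j, hij, hadj, rfl⟩
      obtain ⟨r, hr, p, q, h1, h2, h3⟩ := (hG i j hij).1 hadj
      exact ⟨(r, p, q), h3, by rw [h1, h2]; rfl⟩
    · rintro ⟨t, ht, rfl⟩
      have a1 := ab_lt hf hE ht
      obtain ⟨h1, h2, h3⟩ := hE _ _ _ ht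
      have hb : bb f t < n := by
        have e2 := hf (t.1 + 1) (by omega)
        have m1 := f_mono w f hf (t.1 + 1 + 1) (R + 1) (by omega) le_rfl
        unfold bb
        omega
      refine ⟨⟨aa f t, by omega⟩, ⟨bb f t, hb⟩, Fin.lt_def.2 a1, ?_, rfl⟩
      exact (hG _ _ (Fin.lt_def.2 a1)).2 ⟨t.1, h1, t.2.1, t.2.2, rfl, rfl, ht⟩
  have hinj : ∀ e t : ℕ × ℕ × ℕ, E e.1 e.2.1 e.2.2 → E t.1 t.2.1 t.2.2 →
      mk (aa f e) (bb f e) = mk (aa f t) (bb f t) → e = t := by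
    intro e t he ht h
    obtain ⟨h1, h2⟩ := mk_inj (ab_lt hf hE he) (ab_lt hf hE ht) h
    exact ab_inj hf hE he ht h1 h2
  rw [le_opt]
  constructor
  · rintro ⟨T, hT, hC, hk⟩
    have hfin : {t : ℕ × ℕ × ℕ | E t.1 t.2.1 t.2.2 ∧ mk (aa f t) (bb f t) ∈ T}.Finite := by
      refine Set.Finite.of_finite_image (f := fun t => mk (aa f t) (bb f t)) ?_ ?_
      · refine (ofGraph_finite G).subset ?_
        rintro _ ⟨t, ⟨-, ht⟩, rfl⟩
        exact hT ht
      · rintro e ⟨he, -⟩ t ⟨ht, -⟩ h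
        exact hinj e t he ht h
    refine ⟨hfin.toFinset, ⟨?_, ?_⟩, ?_⟩
    · intro e he
      rw [Set.Finite.mem_toFinset] at he
      exact he.1
    · intro e he t ht hne
      rw [Set.Finite.mem_toFinset] at he ht
      rw [comp_iff hf hE he.1 ht.1]
      exact hC _ he.2 _ ht.2 (fun h => hne (hinj e t he.1 ht.1 h))
    · rw [← Set.ncard_eq_toFinset_card _ hfin]
      refine hk.trans (le_of_eq ?_)
      symm
      refine Set.ncard_congr (fun t _ => mk (aa f t) (bb f t)) ?_ ?_ ?_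
      · rintro t ⟨-, ht⟩
        exact ht
      · rintro e t ⟨he, -⟩ ⟨ht, -⟩ h
        exact hinj e t he ht h
      · intro D hD
        obtain ⟨t, ht, rfl⟩ := (hmem D).1 (hT hD)
        exact ⟨t, ⟨ht, hD⟩, rfl⟩
  · rintro ⟨S, ⟨hS1, hS2⟩, hk⟩
    refine ⟨(fun t => mk (aa f t) (bb f t)) '' (S : Set (ℕ × ℕ × ℕ)), ?_, ?_, ?_⟩
    · rintro _ ⟨t, ht, rfl⟩
      exact (hmem _).2 ⟨t, hS1 t ht, rfl⟩
    · rintro _ ⟨e, he, rfl⟩ _ ⟨t, ht, rfl⟩ hne
      have het : e ≠ t := by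
        rintro rfl
        exact hne rfl
      exact (comp_iff hf hE (hS1 e he) (hS1 t ht)).1 (hS2 e he t ht het)
    · rw [Set.ncard_image_of_injOn, Set.ncard_coe_finset]
      · exact hk
      · intro e he t ht h
        exact hinj e t (hS1 e he) (hS1 t ht) h

end Pool.Agent.Lib89.N2
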