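import Mathlib
import Pool.Agent.Lib_helper89.NN.Main
import Pool.Agent.Lib_helper89.N2.Defs
import Pool.Agent.Lib_helper89.N2.AF
import Pool.Agent.Lib_helper89.N2.OR
import Pool.Agent.Lib_helper89.N2.DF
import Pool.Agent.Lib_helper89.N2.AD

/-! Block GN: the two graphs. -/

namespace Pool.Agent.Lib89.N2

open Pool.Agent.Lib57 Pool.Agent.Lib89.NN

variable {V C : ℕ} {o : ℕ → ℕ → Bool → Prop}

namespace GNp

/-- first vertex of a row, and the number of vertices at the end -/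
private def gf (V C r : ℕ) : ℕ := if r ≤ nK V C + 1 then off V r else nV V C

private theorem gf_of_le {r : ℕ} (h : r ≤ nK V C + 1) : gf V C r = off V r := by
  rw [gf, if_pos h]

private theorem one_le_nK : 1 ≤ nK V C := by
  unfold nK
  omega

private theorem off_succ {r : ℕ} (h : r < nK V C + 1) : off V (r + 1) = off V r + wd V C r := by
  unfold off wd
  rcases Nat.eq_zero_or_pos r with rfl | h0
  · simp
    omega
  · have h1 : ¬ (r = 0 ∨ r = nK V C + 1) := by omega
    rw [if_neg h1]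
    obtain ⟨s, rfl⟩ : ∃ s, r = s + 1 := ⟨r - 1, by omega⟩
    have e1 : (s + 1 + 1) * (2 * V + 2) = s * (2 * V + 2) + 2 * (2 * V + 2) := by ring
    have e2 : (s + 1) * (2 * V + 2) = s * (2 * V + 2) + (2 * V + 2) := by ring
    rw [e1, e2]
    generalize s * (2 * V + 2) = t
    omega

private theorem gf_succ {r : ℕ} (h : r ≤ nK V C + 1) : gf V C (r + 1) = gf V C r + wd V C r := by
  rcases h.lt_or_eq with h1 | rfl
  · rw [gf_of_le h, gf_of_le h1, off_succ h1]
  · rw [gf_of_le le_rfl, gf, if_neg (by omega)]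
    unfold nV off wd
    rw [if_pos (Or.inr rfl)]
    have e2 : (nK V C + 1) * (2 * V + 2) = nK V C * (2 * V + 2) + (2 * V + 2) := by ring
    rw [e2]
    generalize nK V C * (2 * V + 2) = t
    omega

private theorem wd_mid {r : ℕ} (h0 : 1 ≤ r) (h : r ≤ nK V C) : wd V C r = 2 * V + 2 := by
  unfold wd
  rw [if_neg (by omega)]

private theorem wd_le (r : ℕ) : wd V C r ≤ 2 * V + 2 := by
  unfold wd
  split_ifs <;> omega

private theorem row_lt {c : ℕ} (hc : c < C) : c * (18 * V + 2) + (18 * V + 2) + 1 ≤ nK V C := by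
  unfold nK
  have h : (c + 1) * (18 * V + 2) ≤ C * (18 * V + 2) := Nat.mul_le_mul_right _ hc
  have e : (c + 1) * (18 * V + 2) = c * (18 * V + 2) + (18 * V + 2) := by ring
  omega

/-- the edges of the base instance lie between the rows -/
private theorem rowE2_bd (r p q : ℕ) (h : RowE2 V C o r p q) :
    r < nK V C + 1 ∧ p < wd V C r ∧ q < wd V C (r + 1) := by
  rcases h with ⟨rfl, hp, hq⟩ | ⟨rfl, hq, hp⟩ | ⟨c, hc, h⟩
  · have h1 : wd V C 0 = V + 1 := by simp [wd]
    rw [h1, wd_mid (by omega) one_le_nK]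
    omega
  · have h1 : wd V C (nK V C + 1) = V + 1 := by simp [wd]
    rw [h1, wd_mid one_le_nK le_rfl]
    omega
  · have hn := row_lt (V := V) hc
    rcases h with ⟨rfl, hp, hq⟩ | ⟨rfl, h⟩ | ⟨v, hv, k, hk, h⟩
    · rw [wd_mid (by omega) (by omega), wd_mid (by omega) (by omega)]
      omega
    · rw [wd_mid (by omega) (by omega), wd_mid (by omega) (by omega)]
      omega
    · rcases h with ⟨rfl, h⟩ | ⟨h', hp, hq⟩
      · rw [wd_mid (by omega) (by omega), wd_mid (by omega) (by omega)]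
        rcases h with ⟨h1, h2, -⟩ | ⟨a, ha, b, hb, h1, h2, -⟩
        · omega
        · omega
      · rw [wd_mid (by omega) (by omega), wd_mid (by omega) (by omega)]
        omega

/-- the edges of the new instance lie between the rows -/
private theorem rowF_bd (r P Q : ℕ) (h : RowF (RowE2 V C o) r P Q) :
    r < nK V C + 1 ∧ P < 5 * wd V C r ∧ Q < 5 * wd V C (r + 1) := by
  obtain ⟨p, q, he, h⟩ := h
  obtain ⟨h1, h2, h3⟩ := rowE2_bd r p q he
  refine ⟨h1, ?_, ?_⟩
  · have : P ≤ 5 * p + 4 := by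
      rcases h with ⟨(⟨-, h⟩ | ⟨-, h⟩), -⟩ | ⟨-, h, -⟩ | ⟨-, -, h, -⟩ | ⟨-, -, h, -⟩ | ⟨-, h, -⟩ <;>
        omega
    omega
  · have : Q ≤ 5 * q + 4 := by
      rcases h with ⟨-, (⟨-, h⟩ | ⟨-, h⟩)⟩ | ⟨-, -, h⟩ | ⟨-, -, -, h⟩ | ⟨-, -, -, h⟩ | ⟨-, -, h⟩ <;>
        omega
    omega

private theorem adjB_iff (u v : Fin (nV V C)) (huv : u < v) :
    (baseGraph V C o).Adj u v ↔ ∃ r < nK V C + 1, ∃ p q, (u : ℕ) = gf V C r + p ∧
      (v : ℕ) = gf V C (r + 1) + q ∧ RowE2 V C o r p q := by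
  constructor
  · rintro ⟨-, h⟩
    rcases h with ⟨r, hr, p, hp, q, hq, h1, h2, h3⟩ | ⟨r, hr, p, hp, q, hq, h1, h2, h3⟩
    · exact ⟨r, hr, p, q, by rw [gf_of_le hr.le, h1], by rw [gf_of_le hr, h2], h3⟩
    · exfalso
      have h4 := (rowE2_bd r p q h3).2.1
      have h5 := off_succ hr
      have h6 : (u : ℕ) < v := huv
      omega
  · rintro ⟨r, hr, p, q, h1, h2, h3⟩
    have h4 := (rowE2_bd r p q h3).2
    refine ⟨huv.ne, Or.inl ⟨r, hr, p, h4.1.trans_le (wd_le r), q, h4.2.trans_le (wd_le _), ?_, ?_,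
      h3⟩⟩
    · rw [h1, gf_of_le hr.le]
    · rw [h2, gf_of_le hr]

private theorem adjN_iff (u v : Fin (5 * nV V C)) (huv : u < v) :
    (newGraph V C o).Adj u v ↔ ∃ r < nK V C + 1, ∃ P Q, (u : ℕ) = 5 * gf V C r + P ∧
      (v : ℕ) = 5 * gf V C (r + 1) + Q ∧ RowF (RowE2 V C o) r P Q := by
  constructor
  · rintro ⟨-, h⟩
    rcases h with ⟨r, hr, p, hp, q, hq, h1, h2, h3⟩ | ⟨r, hr, p, hp, q, hq, h1, h2, h3⟩
    · exact ⟨r, hr, p, q, by rw [gf_of_le hr.le, h1], by rw [gf_of_le hr, h2], h3⟩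
    · exfalso
      have h4 := (rowF_bd r p q h3).2.1
      have h5 := off_succ hr
      have h6 : (u : ℕ) < v := huv
      omega
  · rintro ⟨r, hr, p, q, h1, h2, h3⟩
    have h4 := (rowF_bd r p q h3).2
    have h5 := wd_le (V := V) (C := C) r
    have h6 := wd_le (V := V) (C := C) (r + 1)
    refine ⟨huv.ne, Or.inl ⟨r, hr, p, by omega, q, by omega, ?_, ?_, h3⟩⟩
    · rw [h1, gf_of_le hr.le]
    · rw [h2, gf_of_le hr]

private theorem off_mono {r : ℕ} : ∀ s, r ≤ s → s ≤ nK V C + 1 → off V r ≤ off V s := by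
  intro s hrs
  induction s, hrs using Nat.le_induction with
  | base => intro _; exact le_rfl
  | succ s hs ih =>
      intro h
      have h1 := off_succ (V := V) (C := C) (r := s) (by omega)
      have := ih (by omega)
      omega

/-- a vertex has one row and one position -/
private theorem loc_unique {r s P P' : ℕ} (hr : r ≤ nK V C + 1) (hs : s ≤ nK V C + 1)
    (hP : P < 5 * wd V C r) (hP' : P' < 5 * wd V C s)
    (h : 5 * off V r + P = 5 * off V s + P') : r = s ∧ P = P' := by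
  have key : ∀ {r s P P' : ℕ}, r ≤ nK V C + 1 → s ≤ nK V C + 1 → P < 5 * wd V C r →
      5 * off V r + P = 5 * off V s + P' → ¬ r < s := by
    intro r s P P' hr hs hP h hlt
    have h1 := off_succ (V := V) (C := C) (r := r) (by omega)
    have h2 := off_mono (V := V) (C := C) (r := r + 1) s hlt hs
    omega
  have h1 := key hr hs hP h
  have h2 := key hs hr hP' h.symm
  have h3 : r = s := by omega
  subst h3
  exact ⟨rfl, by omega⟩

end GNp

open GNp

theorem base_opt (hV : 1 ≤ V) (hC : 1 ≤ C) (k : ℕ) :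
    k ≤ opt (ofGraph (baseGraph V C o)) ↔ ∃ S, RFree (RowE2 V C o) S ∧ k ≤ S.card :=
  opt_rows (R := nK V C + 1) (baseGraph V C o) (wd V C) (gf V C) (RowE2 V C o)
    (by rw [gf_of_le (by omega)]; simp [off]) (fun r hr => gf_succ hr)
    (by rw [gf, if_neg (by omega)]) (fun r p q h => rowE2_bd r p q h)
    (fun u v huv => adjB_iff u v huv) k

theorem new_opt (hV : 1 ≤ V) (hC : 1 ≤ C) (k : ℕ) :
    k ≤ opt (ofGraph (newGraph V C o)) ↔ ∃ S, RFree (RowF (RowE2 V C o)) S ∧ k ≤ S.card :=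
  opt_rows (R := nK V C + 1) (newGraph V C o) (fun r => 5 * wd V C r) (fun r => 5 * gf V C r)
    (RowF (RowE2 V C o))
    (by
      show 5 * gf V C 0 = 0
      rw [gf_of_le (by omega)]; simp [off])
    (fun r hr => by
      show 5 * gf V C (r + 1) = 5 * gf V C r + 5 * wd V C r
      rw [gf_succ hr, Nat.mul_add])
    (by
      show 5 * gf V C (nK V C + 1 + 1) = 5 * nV V C
      rw [gf, if_neg (by omega)])
    (fun r p q h => rowF_bd r p q h)
    (fun u v huv => adjN_iff u v huv) k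

theorem new_deg (hV : 1 ≤ V) (hC : 1 ≤ C) (u : Fin (5 * nV V C)) :
    {v | (newGraph V C o).Adj u v}.ncard ≤ 2 := by
  classical
  by_cases hex : ∃ r ≤ nK V C + 1, ∃ P < 5 * wd V C r, (u : ℕ) = 5 * off V r + P
  · obtain ⟨r, hr, P, hP, hu⟩ := hex
    obtain ⟨l, hl, h1, h2⟩ := rowF_deg (adm_base (V := V) (C := C) (o := o) hV hC) r P
    let g : Bool × ℕ → ℕ := fun x => if x.1 then 5 * off V (r + 1) + x.2 else
      5 * off V (r - 1) + x.2
    have hsub : ((fun v : Fin (5 * nV V C) => (v : ℕ)) '' {v | (newGraph V C o).Adj u v}) ⊆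
        ((l.map g).toFinset : Set ℕ) := by
      rintro _ ⟨v, hv, rfl⟩
      rw [List.coe_toFinset]
      show (v : ℕ) ∈ l.map g
      rw [List.mem_map]
      rcases hv with ⟨-, ⟨s, hs, p, hp, q, hq, e1, e2, e3⟩ | ⟨s, hs, p, hp, q, hq, e1, e2, e3⟩⟩
      · obtain ⟨b1, b2, b3⟩ := rowF_bd s p q e3
        obtain ⟨rfl, rfl⟩ := loc_unique hr b1.le hP b2 (hu.symm.trans e1)
        exact ⟨(true, q), h1 q e3, by rw [e2]; rfl⟩
      · obtain ⟨b1, b2, b3⟩ := rowF_bd s p q e3
        obtain ⟨rfl, rfl⟩ := loc_unique hr b1 hP b3 (hu.symm.trans e2)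
        exact ⟨(false, p), h2 s p rfl e3, by rw [e1]; rfl⟩
    have hc : {v | (newGraph V C o).Adj u v}.ncard =
        ((fun v : Fin (5 * nV V C) => (v : ℕ)) '' {v | (newGraph V C o).Adj u v}).ncard :=
      (Set.ncard_image_of_injective _ Fin.val_injective).symm
    rw [hc]
    refine (Set.ncard_le_ncard hsub (Finset.finite_toSet _)).trans ?_
    rw [Set.ncard_coe_finset]
    refine (List.toFinset_card_le _).trans ?_
    rw [List.length_map]
    exact hl
  · have : {v | (newGraph V C o).Adj u v} = ∅ := by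
      refine Set.eq_empty_of_forall_notMem ?_
      rintro v ⟨-, ⟨s, hs, p, hp, q, hq, e1, e2, e3⟩ | ⟨s, hs, p, hp, q, hq, e1, e2, e3⟩⟩
      · obtain ⟨b1, b2, b3⟩ := rowF_bd s p q e3
        exact hex ⟨s, b1.le, p, b2, e1⟩
      · obtain ⟨b1, b2, b3⟩ := rowF_bd s p q e3
        exact hex ⟨s + 1, b1, q, b3, e2⟩
    rw [this]
    simp

end Pool.Agent.Lib89.N2
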