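import Mathlib
import Pool.Agent.Lib_helper89.NN.Main
import Pool.Agent.Lib_helper89.N2.HC

/-! # MP_8c0258_lc, N2, block HM: main edges (cites lo_unique, hi_unique, loq_spec, hip_spec, left_id, right_id) -/

namespace Pool.Agent.Lib89.N2

open Pool.Agent.Lib57 Pool.Agent.Lib89.NN Pool.Agent.Lib89.N2

section
variable {E : ℕ → ℕ → ℕ → Prop} (hA : Adm E)
include hA

omit hA in
private theorem phi_bd (e : ℕ × ℕ × ℕ) : (phi E e).1 = e.1 ∧
    ((phi E e).2.1 = 5 * e.2.1 + 3 ∨ (phi E e).2.1 = 5 * e.2.1 + 2) ∧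
    ((phi E e).2.2 = 5 * e.2.2 + 1 ∨ (phi E e).2.2 = 5 * e.2.2 + 2) := by
  refine ⟨rfl, ?_, ?_⟩
  · by_cases h : L2 E e.1 e.2.1 ∧ Lo E e.1 e.2.1 e.2.2
    · exact Or.inl (if_pos h)
    · exact Or.inr (if_neg h)
  · by_cases h : R2 E e.1 e.2.2 ∧ Hi E e.1 e.2.1 e.2.2
    · exact Or.inl (if_pos h)
    · exact Or.inr (if_neg h)

theorem conf_main {e f : ℕ × ℕ × ℕ} (he : E e.1 e.2.1 e.2.2) (hf : E f.1 f.2.1 f.2.2)
    (hne : e ≠ f) (h : RConf (phi E e) (phi E f)) : RConf e f := by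
  obtain ⟨a1, a2, a3⟩ := phi_bd (E := E) e
  obtain ⟨b1, b2, b3⟩ := phi_bd (E := E) f
  unfold RConf at h ⊢
  rw [a1, b1] at h
  omega

omit hA in
private theorem rconf_symm {e f : ℕ × ℕ × ℕ} (h : RConf e f) : RConf f e := by
  unfold RConf at h ⊢
  omega

omit hA in
private theorem phi_L {r p q : ℕ} : ((phi E (r, p, q)).2.1 = 5 * p + 3 ∧ L2 E r p ∧ Lo E r p q) ∨
    ((phi E (r, p, q)).2.1 = 5 * p + 2 ∧ ¬ (L2 E r p ∧ Lo E r p q)) := by
  by_cases h : L2 E r p ∧ Lo E r p q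
  · exact Or.inl ⟨if_pos h, h⟩
  · exact Or.inr ⟨if_neg h, h⟩

omit hA in
private theorem phi_R {r p q : ℕ} : ((phi E (r, p, q)).2.2 = 5 * q + 1 ∧ R2 E r q ∧ Hi E r p q) ∨
    ((phi E (r, p, q)).2.2 = 5 * q + 2 ∧ ¬ (R2 E r q ∧ Hi E r p q)) := by
  by_cases h : R2 E r q ∧ Hi E r p q
  · exact Or.inl ⟨if_pos h, h⟩
  · exact Or.inr ⟨if_neg h, h⟩

private theorem same_p {r p q q' : ℕ} (he : E r p q) (hf : E r p q') (hq : q < q') :
    RConf (phi E (r, p, q)) (phi E (r, p, q')) := by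
  obtain ⟨a1, a2, a3⟩ := phi_bd (E := E) (r, p, q)
  obtain ⟨b1, b2, b3⟩ := phi_bd (E := E) (r, p, q')
  have h1 : Lo E r p q := ⟨he, q', hq, hf⟩
  have h2 : ¬ Lo E r p q' := fun h => by
    have := lo_unique hA h1 h
    omega
  have h3 := phi_L (E := E) (r := r) (p := p) (q := q)
  have h4 := phi_L (E := E) (r := r) (p := p) (q := q')
  unfold RConf
  by_cases hL : L2 E r p
  · rcases h3 with h3 | h3
    · rcases h4 with h4 | h4
      · exact absurd h4.2.2 h2
      · simp only at a3 b3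
        omega
    · exact absurd ⟨hL, h1⟩ h3.2
  · rcases h3 with h3 | h3
    · exact absurd h3.2.1 hL
    · rcases h4 with h4 | h4
      · exact absurd h4.2.1 hL
      · left
        exact ⟨rfl, Or.inl (h3.1.trans h4.1.symm)⟩

private theorem same_q {r p p' q : ℕ} (he : E r p q) (hf : E r p' q) (hp : p < p') :
    RConf (phi E (r, p, q)) (phi E (r, p', q)) := by
  obtain ⟨a1, a2, a3⟩ := phi_bd (E := E) (r, p, q)
  obtain ⟨b1, b2, b3⟩ := phi_bd (E := E) (r, p', q)
  have h1 : Hi E r p' q := ⟨hf, p, hp, he⟩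
  have h2 : ¬ Hi E r p q := fun h => by
    have := hi_unique hA h1 h
    omega
  have h3 := phi_R (E := E) (r := r) (p := p) (q := q)
  have h4 := phi_R (E := E) (r := r) (p := p') (q := q)
  unfold RConf
  by_cases hL : R2 E r q
  · rcases h4 with h4 | h4
    · rcases h3 with h3 | h3
      · exact absurd h3.2.2 h2
      · simp only at a2 b2
        omega
    · exact absurd ⟨hL, h1⟩ h4.2
  · rcases h3 with h3 | h3
    · exact absurd h3.2.1 hL
    · rcases h4 with h4 | h4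
      · exact absurd h4.2.1 hL
      · left
        exact ⟨rfl, Or.inr (Or.inl (h3.1.trans h4.1.symm))⟩

private theorem chain {r p' p q' : ℕ} (he : E r p' p) (hf : E (r + 1) p q') :
    RConf (phi E (r, p', p)) (phi E (r + 1, p, q')) ∨
      ∃ x, XL E x ∧ (((r, p', p) = e0 x ∧ (r + 1, p, q') = gg E x) ∨
        ((r + 1, p, q') = e0 x ∧ (r, p', p) = gg E x)) := by
  rcases phi_L (E := E) (r := r + 1) (p := p) (q := q') with h1 | h1
  · right
    refine ⟨(true, r + 1, p), Or.inl ⟨rfl, h1.2.1⟩, Or.inl ⟨?_, ?_⟩⟩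
    · have h2 := (left_id hA h1.2.1).2 p' he
      rw [h2]
      simp [e0]
    · have h2 := lo_unique hA h1.2.2 (loq_spec hA h1.2.1)
      simp [gg, ← h2]
  · rcases phi_R (E := E) (r := r) (p := p') (q := p) with h2 | h2
    · right
      refine ⟨(false, r, p), Or.inr ⟨rfl, h2.2.1⟩, Or.inr ⟨?_, ?_⟩⟩
      · have h3 := (right_id hA h2.2.1).2 q' hf
        rw [h3]
        simp [e0]
      · have h3 := hi_unique hA h2.2.2 (hip_spec hA h2.2.1)
        simp [gg, ← h3]
    · left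
      unfold RConf
      right; left
      exact ⟨rfl, h2.1.trans h1.1.symm⟩

theorem main_conf {e f : ℕ × ℕ × ℕ} (he : E e.1 e.2.1 e.2.2) (hf : E f.1 f.2.1 f.2.2)
    (hne : e ≠ f) (h : RConf e f) : RConf (phi E e) (phi E f) ∨
      ∃ x, XL E x ∧ ((e = e0 x ∧ f = gg E x) ∨ (f = e0 x ∧ e = gg E x)) := by
  obtain ⟨r, p, q⟩ := e
  obtain ⟨r', p', q'⟩ := f
  simp only at he hf
  rcases h with ⟨h1, h2⟩ | ⟨h1, h2⟩ | ⟨h1, h2⟩
  · simp only at h1 h2
    subst h1
    rcases h2 with h2 | h2 | h2 | h2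
    · subst h2
      left
      rcases lt_trichotomy q q' with h3 | h3 | h3
      · exact same_p hA he hf h3
      · exact absurd (by rw [h3]) hne
      · exact rconf_symm (same_p hA hf he h3)
    · subst h2
      left
      rcases lt_trichotomy p p' with h3 | h3 | h3
      · exact same_q hA he hf h3
      · exact absurd (by rw [h3]) hne
      · exact rconf_symm (same_q hA hf he h3)
    · left
      obtain ⟨a1, a2, a3⟩ := phi_bd (E := E) (r, p, q)
      obtain ⟨b1, b2, b3⟩ := phi_bd (E := E) (r, p', q')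
      unfold RConf
      simp only at a2 a3 b2 b3
      omega
    · left
      obtain ⟨a1, a2, a3⟩ := phi_bd (E := E) (r, p, q)
      obtain ⟨b1, b2, b3⟩ := phi_bd (E := E) (r, p', q')
      unfold RConf
      simp only at a2 a3 b2 b3
      omega
  · simp only at h1 h2
    subst h1 h2
    exact chain hA he hf
  · simp only at h1 h2
    subst h1 h2
    rcases chain hA hf he with h3 | ⟨x, hx, h3⟩
    · exact Or.inl (rconf_symm h3)
    · exact Or.inr ⟨x, hx, h3.symm⟩

end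

end Pool.Agent.Lib89.N2
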