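import Mathlib
import Pool.Agent.Lib_helper89.NN.Main
import Pool.Agent.Lib_helper89.N2.HC

/-! helper73: N2 block HX, additional edges against main edges. -/

namespace Pool.Agent.Lib89.N2

open Pool.Agent.Lib57 Pool.Agent.Lib89.NN Pool.Agent.Lib89.N2

variable {E : ℕ → ℕ → ℕ → Prop}

private theorem phi_form (e : ℕ × ℕ × ℕ) : ∃ δ ε : ℕ, phi E e = (e.1, 5 * e.2.1 + δ, 5 * e.2.2 + ε) ∧
    (δ = 2 ∧ ¬ (L2 E e.1 e.2.1 ∧ Lo E e.1 e.2.1 e.2.2) ∨
      δ = 3 ∧ L2 E e.1 e.2.1 ∧ Lo E e.1 e.2.1 e.2.2) ∧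
    (ε = 2 ∧ ¬ (R2 E e.1 e.2.2 ∧ Hi E e.1 e.2.1 e.2.2) ∨
      ε = 1 ∧ R2 E e.1 e.2.2 ∧ Hi E e.1 e.2.1 e.2.2) := by
  classical
  unfold phi
  by_cases h1 : L2 E e.1 e.2.1 ∧ Lo E e.1 e.2.1 e.2.2 <;>
    by_cases h2 : R2 E e.1 e.2.2 ∧ Hi E e.1 e.2.1 e.2.2
  · exact ⟨3, 1, by rw [if_pos h1, if_pos h2], Or.inr ⟨rfl, h1⟩, Or.inr ⟨rfl, h2⟩⟩
  · exact ⟨3, 2, by rw [if_pos h1, if_neg h2], Or.inr ⟨rfl, h1⟩, Or.inl ⟨rfl, h2⟩⟩
  · exact ⟨2, 1, by rw [if_neg h1, if_pos h2], Or.inl ⟨rfl, h1⟩, Or.inr ⟨rfl, h2⟩⟩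
  · exact ⟨2, 2, by rw [if_neg h1, if_neg h2], Or.inl ⟨rfl, h1⟩, Or.inl ⟨rfl, h2⟩⟩

/-- in an identity row the main edges are the old ones -/
private theorem id_row {s : ℕ} (hid : ∀ p q, E s p q → p = q) {a b : ℕ} (h : E s a b) :
    ¬ Lo E s a b ∧ ¬ Hi E s a b ∧ b = a := by
  have hab := hid a b h
  refine ⟨?_, ?_, hab.symm⟩
  · rintro ⟨_, q', h1, h2⟩
    have := hid _ _ h2; omega
  · rintro ⟨_, p', h1, h2⟩
    have := hid _ _ h2; omega

section
variable (hA : Adm E)
include hA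

theorem A_main {e x} (he : E e.1 e.2.1 e.2.2) (hx : XL E x) (h : RConf (AA x) (phi E e)) :
    e = e0 x := by
  obtain ⟨b, r, p⟩ := x
  obtain ⟨s, a, c⟩ := e
  obtain ⟨δ, ε, hphi, hδ, hε⟩ := phi_form (E := E) (s, a, c)
  rw [hphi] at h
  simp only at he hδ hε
  rcases hx with ⟨hb, hx⟩ | ⟨hb, hx⟩
  · simp only at hb hx
    subst hb
    obtain ⟨hLo, r', u, rfl, hu⟩ := id hx
    have hg : Gen E (r' + 1) := Or.inl ⟨p, hx⟩
    have hid := hA.idb r' hg
    simp only [AA, RConf, if_true, Nat.add_sub_cancel] at h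
    simp only [e0, if_true, Nat.add_sub_cancel]
    by_cases hs : s = r'
    · subst hs
      obtain ⟨n1, n2, rfl⟩ := id_row hid he
      have hδ' : δ = 2 := by
        rcases hδ with h1 | ⟨_, _, h1⟩
        · exact h1.1
        · exact absurd h1 n1
      have hε' : ε = 2 := by
        rcases hε with h1 | ⟨_, _, h1⟩
        · exact h1.1
        · exact absurd h1 n2
      have : c = p := by omega
      rw [this]
    · exfalso
      have hδ' : δ = 2 ∨ δ = 3 := by rcases hδ with h1 | h1 <;> omega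
      have hε' : ε = 2 ∨ ε = 1 := by rcases hε with h1 | h1 <;> omega
      omega
  · simp only at hb hx
    subst hb
    have hg : Gen E r := Or.inr ⟨p, hx⟩
    have hid := hA.idf r hg
    simp only [AA, RConf, Bool.false_eq_true, if_false] at h
    simp only [e0, Bool.false_eq_true, if_false]
    by_cases hs : s = r + 1
    · subst hs
      obtain ⟨n1, n2, rfl⟩ := id_row hid he
      have hδ' : δ = 2 := by
        rcases hδ with h1 | ⟨_, _, h1⟩
        · exact h1.1
        · exact absurd h1 n1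
      have hε' : ε = 2 := by
        rcases hε with h1 | ⟨_, _, h1⟩
        · exact h1.1
        · exact absurd h1 n2
      have : c = p := by omega
      rw [this]
    · exfalso
      have hδ' : δ = 2 ∨ δ = 3 := by rcases hδ with h1 | h1 <;> omega
      have hε' : ε = 2 ∨ ε = 1 := by rcases hε with h1 | h1 <;> omega
      omega

theorem B_main {e x} (he : E e.1 e.2.1 e.2.2) (hx : XL E x) (h : RConf (BB E x) (phi E e)) :
    e = gg E x := by
  obtain ⟨b, r, p⟩ := x
  obtain ⟨s, a, c⟩ := e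
  obtain ⟨δ, ε, hphi, hδ, hε⟩ := phi_form (E := E) (s, a, c)
  rw [hphi] at h
  simp only at he hδ hε
  have hδ' : δ = 2 ∨ δ = 3 := by rcases hδ with h1 | h1 <;> omega
  have hε' : ε = 2 ∨ ε = 1 := by rcases hε with h1 | h1 <;> omega
  rcases hx with ⟨hb, hx⟩ | ⟨hb, hx⟩
  · simp only at hb hx
    subst hb
    have hlo := loq_spec hA hx
    have hg : Gen E r := Or.inl ⟨p, hx⟩
    simp only [BB, RConf, if_true] at h
    simp only [gg, if_true]
    generalize loq E r p = q at h hlo ⊢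
    by_cases hs : s = r
    · subst hs
      have hl := hA.lo s p q hx hlo a c he
      have hcase : a = p ∧ c ≤ q := by omega
      obtain ⟨rfl, hcq⟩ := hcase
      rcases Nat.lt_or_ge c q with h1 | h1
      · have h2 : Lo E s a c := ⟨he, q, h1, hlo.1⟩
        have := lo_unique hA h2 hlo
        omega
      · have : c = q := by omega
        rw [this]
    · exfalso
      have h1 : r = s + 1 ∧ ε = 1 := by omega
      obtain ⟨rfl, rfl⟩ := h1
      have h2 : R2 E s c := by
        rcases hε with h1 | h1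
        · omega
        · exact h1.2.1
      exact gen_succ hA (Or.inr ⟨c, h2⟩) hg
  · simp only at hb hx
    subst hb
    have hhi := hip_spec hA hx
    have hg : Gen E r := Or.inr ⟨p, hx⟩
    simp only [BB, RConf, Bool.false_eq_true, if_false] at h
    simp only [gg, Bool.false_eq_true, if_false]
    generalize hip E r p = q at h hhi ⊢
    by_cases hs : s = r
    · subst hs
      have hl := hA.hi s q p hx hhi a c he
      have hcase : c = p ∧ q ≤ a := by omega
      obtain ⟨rfl, hcq⟩ := hcase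
      rcases Nat.lt_or_ge q a with h1 | h1
      · have h2 : Hi E s a c := ⟨he, q, h1, hhi.1⟩
        have := hi_unique hA h2 hhi
        omega
      · have : a = q := by omega
        rw [this]
    · exfalso
      have h1 : s = r + 1 ∧ δ = 3 := by omega
      obtain ⟨rfl, rfl⟩ := h1
      have h2 : L2 E (r + 1) a := by
        rcases hδ with h1 | h1
        · omega
        · exact h1.2.1
      exact gen_succ hA hg (Or.inl ⟨a, h2⟩)

theorem X_conf {x} (hx : XL E x) : RConf (AA x) (BB E x) ∧ RConf (AA x) (phi E (e0 x)) ∧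
    RConf (BB E x) (phi E (gg E x)) ∧ RConf (e0 x) (gg E x) ∧ e0 x ≠ gg E x := by
  obtain ⟨b, r, p⟩ := x
  rcases hx with ⟨hb, hx⟩ | ⟨hb, hx⟩
  · simp only at hb hx
    subst hb
    obtain ⟨_, r', u, rfl, hu⟩ := id hx
    have hlo := loq_spec hA hx
    have hg : Gen E (r' + 1) := Or.inl ⟨p, hx⟩
    have hid := hA.idb r' hg
    obtain ⟨hpp, _⟩ := left_id hA hx
    obtain ⟨n1, n2, _⟩ := id_row hid hpp
    have e1 : e0 (true, r' + 1, p) = (r', p, p) := by simp [e0]
    have e2 : gg E (true, r' + 1, p) = (r' + 1, p, loq E (r' + 1) p) := by simp [gg]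
    have e3 : AA (true, r' + 1, p) = (r', 5 * p + 3, 5 * p + 1) := by simp [AA]
    have e4 : BB E (true, r' + 1, p) = (r' + 1, 5 * p + 1, 5 * loq E (r' + 1) p + 4) := by simp [BB]
    rw [e1, e2, e3, e4]
    generalize loq E (r' + 1) p = q at hlo ⊢
    obtain ⟨δ, ε, hphi, hδ, hε⟩ := phi_form (E := E) (r', p, p)
    obtain ⟨δ', ε', hphi', hδ', hε'⟩ := phi_form (E := E) (r' + 1, p, q)
    simp only at hδ hε hδ' hε'
    have d1 : δ = 2 := by
      rcases hδ with h1 | ⟨_, _, h1⟩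
      · exact h1.1
      · exact absurd h1 n1
    have d2 : ε = 2 := by
      rcases hε with h1 | ⟨_, _, h1⟩
      · exact h1.1
      · exact absurd h1 n2
    have d3 : δ' = 3 := by
      rcases hδ' with ⟨_, h1⟩ | h1
      · exact absurd ⟨hx, hlo⟩ h1
      · exact h1.1
    have d4 : ε' = 2 ∨ ε' = 1 := by rcases hε' with h1 | h1 <;> omega
    rw [hphi, hphi']
    refine ⟨Or.inr (Or.inl ⟨rfl, rfl⟩), Or.inl ⟨rfl, ?_⟩, Or.inl ⟨rfl, ?_⟩,
      Or.inr (Or.inl ⟨rfl, rfl⟩), ?_⟩
    · simp only; omega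
    · simp only; omega
    intro h
    have := congrArg Prod.fst h
    simp only at this
    omega
  · simp only at hb hx
    subst hb
    have hhi := hip_spec hA hx
    have hg : Gen E r := Or.inr ⟨p, hx⟩
    have hid := hA.idf r hg
    obtain ⟨hpp, _⟩ := right_id hA hx
    obtain ⟨n1, n2, _⟩ := id_row hid hpp
    have e1 : e0 (false, r, p) = (r + 1, p, p) := by simp [e0]
    have e2 : gg E (false, r, p) = (r, hip E r p, p) := by simp [gg]
    have e3 : AA (false, r, p) = (r + 1, 5 * p + 3, 5 * p + 1) := by simp [AA]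
    have e4 : BB E (false, r, p) = (r, 5 * hip E r p, 5 * p + 3) := by simp [BB]
    rw [e1, e2, e3, e4]
    generalize hip E r p = q at hhi ⊢
    obtain ⟨δ, ε, hphi, hδ, hε⟩ := phi_form (E := E) (r + 1, p, p)
    obtain ⟨δ', ε', hphi', hδ', hε'⟩ := phi_form (E := E) (r, q, p)
    simp only at hδ hε hδ' hε'
    have d1 : δ = 2 := by
      rcases hδ with h1 | ⟨_, _, h1⟩
      · exact h1.1
      · exact absurd h1 n1
    have d2 : ε = 2 := by
      rcases hε with h1 | ⟨_, _, h1⟩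
      · exact h1.1
      · exact absurd h1 n2
    have d3 : ε' = 1 := by
      rcases hε' with ⟨_, h1⟩ | h1
      · exact absurd ⟨hx, hhi⟩ h1
      · exact h1.1
    have d4 : δ' = 2 ∨ δ' = 3 := by rcases hδ' with h1 | h1 <;> omega
    rw [hphi, hphi']
    refine ⟨Or.inr (Or.inr ⟨rfl, rfl⟩), Or.inl ⟨rfl, ?_⟩, Or.inl ⟨rfl, ?_⟩,
      Or.inr (Or.inr ⟨rfl, rfl⟩), ?_⟩
    · simp only; omega
    · simp only; omega
    intro h
    have := congrArg Prod.fst h
    simp only at this
    omega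

end

end Pool.Agent.Lib89.N2
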