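import Mathlib
import Pool.Agent.Lib_helper89.NN.Main
import Pool.Agent.Lib_helper89.N2.HC

namespace Pool.Agent.Lib89.N2

open Pool.Agent.Lib57 Pool.Agent.Lib89.NN

section
variable {E : ℕ → ℕ → ℕ → Prop} (hA : Adm E)
include hA

omit hA in
private theorem gen_of_XL {x : Bool × ℕ × ℕ} (hx : XL E x) : Gen E x.2.1 := by
  rcases hx with ⟨_, h⟩ | ⟨_, h⟩
  · exact Or.inl ⟨_, h⟩
  · exact Or.inr ⟨_, h⟩

theorem A_A {x y} (hx : XL E x) (hy : XL E y) (hne : x ≠ y) : ¬ RConf (AA x) (AA y) := by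
  have gx := gen_of_XL hx
  have gy := gen_of_XL hy
  obtain ⟨b, r, p⟩ := x
  obtain ⟨b', r', p'⟩ := y
  have px := gen_pos hA gx
  have py := gen_pos hA gy
  simp only at gx gy px py
  intro h
  cases b <;> cases b' <;> simp only [AA, RConf, if_true, if_false, Bool.false_eq_true] at h
  · apply hne
    have h1 : r = r' ∧ p = p' := by omega
    rw [h1.1, h1.2]
  · have h1 : r' = r + 2 := by omega
    rw [h1] at gy
    exact gen_two hA gy gx
  · have h1 : r = r' + 2 := by omega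
    rw [h1] at gx
    exact gen_two hA gx gy
  · apply hne
    have h1 : r = r' ∧ p = p' := by omega
    rw [h1.1, h1.2]

theorem A_B {x y} (hx : XL E x) (hy : XL E y) (hne : x ≠ y) : ¬ RConf (AA x) (BB E y) := by
  have gx := gen_of_XL hx
  have gy := gen_of_XL hy
  obtain ⟨b, r, p⟩ := x
  obtain ⟨b', r', p'⟩ := y
  have px := gen_pos hA gx
  have py := gen_pos hA gy
  simp only at gx gy px py
  have s1 : r' ≠ r + 1 := fun h => gen_succ hA gx (h ▸ gy)
  have s2 : r ≠ r' + 1 := fun h => gen_succ hA gy (h ▸ gx)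
  have s3 : r' ≠ r + 2 := fun h => gen_two hA (h ▸ gy) gx
  have s4 : r ≠ r' + 2 := fun h => gen_two hA (h ▸ gx) gy
  intro h
  cases b <;> cases b' <;> simp only [AA, BB, RConf, if_true, if_false, Bool.false_eq_true] at h
  · apply hne
    have h1 : r = r' ∧ p = p' := by omega
    rw [h1.1, h1.2]
  · omega
  · omega
  · apply hne
    have h1 : r = r' ∧ p = p' := by omega
    rw [h1.1, h1.2]

theorem B_B {x y} (hx : XL E x) (hy : XL E y) (hne : x ≠ y) : ¬ RConf (BB E x) (BB E y) := by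
  have gx := gen_of_XL hx
  have gy := gen_of_XL hy
  obtain ⟨b, r, p⟩ := x
  obtain ⟨b', r', p'⟩ := y
  simp only at gx gy
  have s1 : r' ≠ r + 1 := fun h => gen_succ hA gx (h ▸ gy)
  have s2 : r ≠ r' + 1 := fun h => gen_succ hA gy (h ▸ gx)
  intro h
  have hrr : r = r' := by
    cases b <;> cases b' <;> simp only [BB, RConf, if_true, if_false, Bool.false_eq_true] at h <;>
      omega
  subst hrr
  have hpp : ¬ (b = b' ∧ p = p') := by
    rintro ⟨rfl, rfl⟩
    exact hne rfl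
  cases b <;> cases b'
  · -- false, false
    have h1 : R2 E r p := by rcases hx with ⟨h, _⟩ | ⟨_, h⟩ <;> simp_all
    have h2 : R2 E r p' := by rcases hy with ⟨h, _⟩ | ⟨_, h⟩ <;> simp_all
    have e1 := hip_spec hA h1
    have e2 := hip_spec hA h2
    have a1 := hA.hi r _ _ h1 e1 _ _ e2.1
    have a2 := hA.hi r _ _ h2 e2 _ _ e1.1
    simp only [BB, RConf, if_false, Bool.false_eq_true] at h
    have hp : p ≠ p' := fun h => hpp ⟨rfl, h⟩
    omega
  · have h1 : R2 E r p := by rcases hx with ⟨h, _⟩ | ⟨_, h⟩ <;> simp_all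
    have h2 : L2 E r p' := by rcases hy with ⟨_, h⟩ | ⟨h, _⟩ <;> simp_all
    have e1 := hip_spec hA h1
    have e2 := loq_spec hA h2
    have a1 := hA.hi r _ _ h1 e1 _ _ e2.1
    have a2 := hA.lo r _ _ h2 e2 _ _ e1.1
    simp only [BB, RConf, if_true, if_false, Bool.false_eq_true] at h
    omega
  · have h1 : L2 E r p := by rcases hx with ⟨_, h⟩ | ⟨h, _⟩ <;> simp_all
    have h2 : R2 E r p' := by rcases hy with ⟨h, _⟩ | ⟨_, h⟩ <;> simp_all
    have e1 := loq_spec hA h1
    have e2 := hip_spec hA h2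
    have a1 := hA.lo r _ _ h1 e1 _ _ e2.1
    have a2 := hA.hi r _ _ h2 e2 _ _ e1.1
    simp only [BB, RConf, if_true, if_false, Bool.false_eq_true] at h
    omega
  · have h1 : L2 E r p := by rcases hx with ⟨_, h⟩ | ⟨h, _⟩ <;> simp_all
    have h2 : L2 E r p' := by rcases hy with ⟨_, h⟩ | ⟨h, _⟩ <;> simp_all
    have e1 := loq_spec hA h1
    have e2 := loq_spec hA h2
    have a1 := hA.lo r _ _ h1 e1 _ _ e2.1
    have a2 := hA.lo r _ _ h2 e2 _ _ e1.1
    simp only [BB, RConf, if_true] at h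
    have hp : p ≠ p' := fun h => hpp ⟨rfl, h⟩
    omega

end

end Pool.Agent.Lib89.N2
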