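import Mathlib
import Pool.Agent.Lib_helper57.LDCDefs
import Pool.Agent.Lib_helper89.NN.Problem

/-! The 2-interval pattern problem with at most two 2-intervals per ground interval. -/

namespace Pool.Agent.Lib89.N2

open Pool.Agent.Lib57 Pool.Agent.Lib89.NN

/-- Degree condition: the ground set of the 2-intervals of `G` is disjoint, and every member is
the left or the right interval of at most two of the 2-intervals. -/
def Sparse2 {m : ℕ} (G : SimpleGraph (Fin m)) : Prop :=
  DisjointGround (ofGraph G) ∧
    ∀ I ∈ groundSet (ofGraph G), {D ∈ ofGraph G | I = D.left ∨ I = D.right}.ncard ≤ 2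

/-- the bit encoding of an instance `(G, k)`: adjacency matrix, and `k` in unary -/
noncomputable def inst {m : ℕ} (G : SimpleGraph (Fin m)) (k : ℕ) : List Bool :=
  N487b59b3.bitEncode ((encodeGraph G, List.replicate k true) : List Bool × List Bool)

end Pool.Agent.Lib89.N2
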