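import Mathlib
import Pool.Agent.Lib_helper89.NN.Main
import Pool.Agent.Lib_helper89.N2.Defs

/-! helper73: N2 block TR, abstract transfer of conflict-free sets. -/

namespace Pool.Agent.Lib89.N2

open Pool.Agent.Lib57 Pool.Agent.Lib89.NN Pool.Agent.Lib89.N2

theorem transfer {T I : Type} [DecidableEq T] [DecidableEq I] (conf : T → T → Prop)
    (hs : ∀ a b, conf a b → conf b a) (E F : T → Prop) (X : Finset I) (φ : T → T)
    (A B e0 g : I → T)
    (hφ : ∀ e, E e → F (φ e)) (hφi : ∀ e f, E e → E f → φ e = φ f → e = f)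
    (hA : ∀ x ∈ X, F (A x)) (hB : ∀ x ∈ X, F (B x))
    (he : ∀ x ∈ X, E (e0 x)) (hg : ∀ x ∈ X, E (g x))
    (hcov : ∀ t, F t → (∃ e, E e ∧ φ e = t) ∨ (∃ x ∈ X, A x = t) ∨ ∃ x ∈ X, B x = t)
    (hAi : ∀ x ∈ X, ∀ y ∈ X, A x = A y → x = y) (hBi : ∀ x ∈ X, ∀ y ∈ X, B x = B y → x = y)
    (hAB : ∀ x ∈ X, ∀ y ∈ X, A x ≠ B y) (hφA : ∀ e, E e → ∀ x ∈ X, φ e ≠ A x)
    (hφB : ∀ e, E e → ∀ x ∈ X, φ e ≠ B x)
    (h1 : ∀ e f, E e → E f → e ≠ f → conf (φ e) (φ f) → conf e f)
    (h2 : ∀ e f, E e → E f → e ≠ f → conf e f → conf (φ e) (φ f) ∨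
      ∃ x ∈ X, (e = e0 x ∧ f = g x) ∨ (f = e0 x ∧ e = g x))
    (h3 : ∀ x ∈ X, conf (A x) (B x) ∧ conf (A x) (φ (e0 x)) ∧ conf (B x) (φ (g x)) ∧
      conf (e0 x) (g x) ∧ e0 x ≠ g x)
    (h4 : ∀ e, E e → ∀ x ∈ X, (conf (A x) (φ e) → e = e0 x) ∧ (conf (B x) (φ e) → e = g x))
    (h5 : ∀ x ∈ X, ∀ y ∈ X, x ≠ y →
      ¬ conf (A x) (A y) ∧ ¬ conf (A x) (B y) ∧ ¬ conf (B x) (B y)) (n : ℕ) :
    (∃ S : Finset T, (∀ e ∈ S, E e) ∧ (∀ e ∈ S, ∀ f ∈ S, e ≠ f → ¬ conf e f) ∧ n ≤ S.card) ↔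
      ∃ S : Finset T, (∀ e ∈ S, F e) ∧ (∀ e ∈ S, ∀ f ∈ S, e ≠ f → ¬ conf e f) ∧
        n + X.card ≤ S.card := by
  classical
  constructor
  · rintro ⟨S, hS, hfree, hn⟩
    let c : I → T := fun x => if e0 x ∈ S then B x else A x
    have hc1 : ∀ x, e0 x ∈ S → c x = B x := fun x h => if_pos h
    have hc2 : ∀ x, e0 x ∉ S → c x = A x := fun x h => if_neg h
    have hci : ∀ x ∈ X, ∀ y ∈ X, c x = c y → x = y := by
      intro x hx y hy h
      by_cases hx1 : e0 x ∈ S <;> by_cases hy1 : e0 y ∈ S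
      · rw [hc1 x hx1, hc1 y hy1] at h; exact hBi x hx y hy h
      · rw [hc1 x hx1, hc2 y hy1] at h; exact absurd h.symm (hAB y hy x hx)
      · rw [hc2 x hx1, hc1 y hy1] at h; exact absurd h (hAB x hx y hy)
      · rw [hc2 x hx1, hc2 y hy1] at h; exact hAi x hx y hy h
    have hφc : ∀ e, E e → ∀ x ∈ X, φ e ≠ c x := by
      intro e hE x hx
      by_cases hx1 : e0 x ∈ S
      · rw [hc1 x hx1]; exact hφB e hE x hx
      · rw [hc2 x hx1]; exact hφA e hE x hx
    have hcφ : ∀ e ∈ S, ∀ x ∈ X, ¬ conf (c x) (φ e) := by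
      intro e heS x hx hcf
      by_cases hx1 : e0 x ∈ S
      · rw [hc1 x hx1] at hcf
        have h6 := (h4 e (hS e heS) x hx).2 hcf
        obtain ⟨_, _, _, h7, h8⟩ := h3 x hx
        rw [h6] at heS
        exact hfree _ hx1 _ heS h8 h7
      · rw [hc2 x hx1] at hcf
        have h6 := (h4 e (hS e heS) x hx).1 hcf
        rw [h6] at heS
        exact hx1 heS
    have hcc : ∀ x ∈ X, ∀ y ∈ X, x ≠ y → ¬ conf (c x) (c y) := by
      intro x hx y hy hne hcf
      by_cases hx1 : e0 x ∈ S <;> by_cases hy1 : e0 y ∈ S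
      · rw [hc1 x hx1, hc1 y hy1] at hcf; exact (h5 x hx y hy hne).2.2 hcf
      · rw [hc1 x hx1, hc2 y hy1] at hcf
        exact (h5 y hy x hx hne.symm).2.1 (hs _ _ hcf)
      · rw [hc2 x hx1, hc1 y hy1] at hcf; exact (h5 x hx y hy hne).2.1 hcf
      · rw [hc2 x hx1, hc2 y hy1] at hcf; exact (h5 x hx y hy hne).1 hcf
    refine ⟨S.image φ ∪ X.image c, ?_, ?_, ?_⟩
    · intro t ht
      rcases Finset.mem_union.1 ht with ht | ht
      · obtain ⟨e, heS, rfl⟩ := Finset.mem_image.1 ht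
        exact hφ e (hS e heS)
      · obtain ⟨x, hx, rfl⟩ := Finset.mem_image.1 ht
        by_cases hx1 : e0 x ∈ S
        · rw [hc1 x hx1]; exact hB x hx
        · rw [hc2 x hx1]; exact hA x hx
    · intro s hs' t ht hne hcf
      rcases Finset.mem_union.1 hs' with hs' | hs' <;> rcases Finset.mem_union.1 ht with ht | ht
      · obtain ⟨e, heS, rfl⟩ := Finset.mem_image.1 hs'
        obtain ⟨f, hfS, rfl⟩ := Finset.mem_image.1 ht
        have hef : e ≠ f := fun h => hne (by rw [h])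
        exact hfree e heS f hfS hef (h1 e f (hS e heS) (hS f hfS) hef hcf)
      · obtain ⟨e, heS, rfl⟩ := Finset.mem_image.1 hs'
        obtain ⟨x, hx, rfl⟩ := Finset.mem_image.1 ht
        exact hcφ e heS x hx (hs _ _ hcf)
      · obtain ⟨x, hx, rfl⟩ := Finset.mem_image.1 hs'
        obtain ⟨e, heS, rfl⟩ := Finset.mem_image.1 ht
        exact hcφ e heS x hx hcf
      · obtain ⟨x, hx, rfl⟩ := Finset.mem_image.1 hs'
        obtain ⟨y, hy, rfl⟩ := Finset.mem_image.1 ht
        have hxy : x ≠ y := fun h => hne (by rw [h])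
        exact hcc x hx y hy hxy hcf
    · rw [Finset.card_union_of_disjoint, Finset.card_image_of_injOn, Finset.card_image_of_injOn]
      · omega
      · intro x hx y hy h; exact hci x hx y hy h
      · intro e heS f hfS h
        exact hφi e f (hS e heS) (hS f hfS) h
      · rw [Finset.disjoint_left]
        intro t ht ht'
        obtain ⟨e, heS, rfl⟩ := Finset.mem_image.1 ht
        obtain ⟨x, hx, h⟩ := Finset.mem_image.1 ht'
        exact hφc e (hS e heS) x hx h.symm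
  · rintro ⟨S, hS, hfree, hn⟩
    let P : T → Prop := fun t => ∃ e, E e ∧ φ e = t
    let ψ : T → T := fun t => if h : P t then h.choose else t
    have hψ : ∀ t, P t → E (ψ t) ∧ φ (ψ t) = t := by
      intro t ht
      have : ψ t = ht.choose := dif_pos ht
      rw [this]; exact ht.choose_spec
    let S0 : Finset T := (S.filter P).image ψ
    have hS0 : ∀ e, e ∈ S0 ↔ E e ∧ φ e ∈ S := by
      intro e
      constructor
      · intro h
        obtain ⟨t, ht, rfl⟩ := Finset.mem_image.1 h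
        obtain ⟨ht1, ht2⟩ := Finset.mem_filter.1 ht
        obtain ⟨h6, h7⟩ := hψ t ht2
        exact ⟨h6, by rw [h7]; exact ht1⟩
      · rintro ⟨h6, h7⟩
        refine Finset.mem_image.2 ⟨φ e, Finset.mem_filter.2 ⟨h7, e, h6, rfl⟩, ?_⟩
        obtain ⟨h8, h9⟩ := hψ (φ e) ⟨e, h6, rfl⟩
        exact hφi _ _ h8 h6 h9
    have hS0c : S0.card = (S.filter P).card := by
      apply Finset.card_image_of_injOn
      intro s hs' t ht h
      have hs1 := hψ s (Finset.mem_filter.1 hs').2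
      have ht1 := hψ t (Finset.mem_filter.1 ht).2
      have h' : ψ s = ψ t := h
      rw [← hs1.2, ← ht1.2, h']
    let XA := X.filter (fun x => A x ∈ S)
    let XB := X.filter (fun x => B x ∈ S)
    let D0 := X.filter (fun x => e0 x ∈ S0 ∧ g x ∈ S0)
    have hsub : S ⊆ S.filter P ∪ (XA.image A ∪ XB.image B) := by
      intro t ht
      rcases hcov t (hS t ht) with h | ⟨x, hx, h⟩ | ⟨x, hx, h⟩
      · exact Finset.mem_union_left _ (Finset.mem_filter.2 ⟨ht, h⟩)
      · refine Finset.mem_union_right _ (Finset.mem_union_left _ (Finset.mem_image.2 ⟨x, ?_, h⟩))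
        exact Finset.mem_filter.2 ⟨hx, by rw [h]; exact ht⟩
      · refine Finset.mem_union_right _ (Finset.mem_union_right _ (Finset.mem_image.2 ⟨x, ?_, h⟩))
        exact Finset.mem_filter.2 ⟨hx, by rw [h]; exact ht⟩
    have hc1 : S.card ≤ S0.card + (XA.card + XB.card) := by
      calc S.card ≤ (S.filter P ∪ (XA.image A ∪ XB.image B)).card := Finset.card_le_card hsub
        _ ≤ (S.filter P).card + (XA.image A ∪ XB.image B).card := Finset.card_union_le _ _
        _ ≤ (S.filter P).card + ((XA.image A).card + (XB.image B).card) :=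
          Nat.add_le_add_left (Finset.card_union_le _ _) _
        _ ≤ S0.card + (XA.card + XB.card) := by
          rw [hS0c]
          exact Nat.add_le_add_left (Nat.add_le_add Finset.card_image_le Finset.card_image_le) _
    have hd1 : Disjoint XA XB := by
      rw [Finset.disjoint_left]
      intro x hx hx'
      obtain ⟨hxX, hxA⟩ := Finset.mem_filter.1 hx
      obtain ⟨_, hxB⟩ := Finset.mem_filter.1 hx'
      exact hfree _ hxA _ hxB (hAB x hxX x hxX) (h3 x hxX).1
    have hd2 : Disjoint (XA ∪ XB) D0 := by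
      rw [Finset.disjoint_left]
      intro x hx hx'
      obtain ⟨hxX, hxe, hxg⟩ := Finset.mem_filter.1 hx'
      obtain ⟨hE1, hE2⟩ := (hS0 _).1 hxe
      obtain ⟨hG1, hG2⟩ := (hS0 _).1 hxg
      obtain ⟨_, h7, h8, _, _⟩ := h3 x hxX
      rcases Finset.mem_union.1 hx with hx | hx
      · exact hfree _ (Finset.mem_filter.1 hx).2 _ hE2 (hφA _ hE1 x hxX).symm h7
      · exact hfree _ (Finset.mem_filter.1 hx).2 _ hG2 (hφB _ hG1 x hxX).symm h8
    have hc2 : XA.card + XB.card + D0.card ≤ X.card := by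
      rw [← Finset.card_union_of_disjoint hd1, ← Finset.card_union_of_disjoint hd2]
      apply Finset.card_le_card
      intro x hx
      rcases Finset.mem_union.1 hx with hx | hx
      · rcases Finset.mem_union.1 hx with hx | hx
        · exact (Finset.mem_filter.1 hx).1
        · exact (Finset.mem_filter.1 hx).1
      · exact (Finset.mem_filter.1 hx).1
    have hc3 : S0.card ≤ (S0 \ D0.image e0).card + D0.card := by
      have h6 := Finset.le_card_sdiff (D0.image e0) S0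
      have h7 : (D0.image e0).card ≤ D0.card := Finset.card_image_le
      omega
    refine ⟨S0 \ D0.image e0, ?_, ?_, by omega⟩
    · intro e h
      exact ((hS0 e).1 (Finset.mem_sdiff.1 h).1).1
    · intro e heS f hfS hne hcf
      obtain ⟨he1, he2⟩ := Finset.mem_sdiff.1 heS
      obtain ⟨hf1, hf2⟩ := Finset.mem_sdiff.1 hfS
      obtain ⟨hE1, hE2⟩ := (hS0 _).1 he1
      obtain ⟨hF1, hF2⟩ := (hS0 _).1 hf1
      rcases h2 e f hE1 hF1 hne hcf with h | ⟨x, hx, ⟨rfl, rfl⟩ | ⟨rfl, rfl⟩⟩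
      · exact hfree _ hE2 _ hF2 (fun h' => hne (hφi _ _ hE1 hF1 h')) h
      · exact he2 (Finset.mem_image.2 ⟨x, Finset.mem_filter.2 ⟨hx, he1, hf1⟩, rfl⟩)
      · exact hf2 (Finset.mem_image.2 ⟨x, Finset.mem_filter.2 ⟨hx, hf1, he1⟩, rfl⟩)

end Pool.Agent.Lib89.N2
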