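import Mathlib
import Pool.Agent.Lib_helper89.NN.Main
import Pool.Agent.Lib_helper89.N2.TR
import Pool.Agent.Lib_helper89.N2.HM
import Pool.Agent.Lib_helper89.N2.HX
import Pool.Agent.Lib_helper89.N2.HY
import Pool.Agent.Lib_helper89.N2.HC

/-! Transfer of conflict-free sets of row edges. -/

namespace Pool.Agent.Lib89.N2

open Pool.Agent.Lib89.NN

theorem rconf_symm {a b : ℕ × ℕ × ℕ} (h : RConf a b) : RConf b a := by
  rcases h with ⟨h1, h2⟩ | h | h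
  · refine Or.inl ⟨h1.symm, ?_⟩
    rcases h2 with h2 | h2 | h2 | h2
    · exact Or.inl h2.symm
    · exact Or.inr (Or.inl h2.symm)
    · exact Or.inr (Or.inr (Or.inr h2))
    · exact Or.inr (Or.inr (Or.inl h2))
  · exact Or.inr (Or.inr h)
  · exact Or.inr (Or.inl h)

section
variable {E : ℕ → ℕ → ℕ → Prop} (hA : Adm E)
include hA

theorem rows_transfer (X : Finset (Bool × ℕ × ℕ)) (hX : ∀ x, x ∈ X ↔ XL E x) (n : ℕ) :
    (∃ S, RFree E S ∧ n ≤ S.card) ↔ ∃ S, RFree (RowF E) S ∧ n + X.card ≤ S.card := by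
  have key := transfer (T := ℕ × ℕ × ℕ) (I := Bool × ℕ × ℕ) RConf (fun a b h => rconf_symm h)
    (fun e => E e.1 e.2.1 e.2.2) (fun t => RowF E t.1 t.2.1 t.2.2) X (phi E) AA (BB E) e0 (gg E)
    (fun e he => (rowF_cases hA (phi E e)).2 (Or.inl ⟨e, he, rfl⟩))
    (fun e f _ _ h => phi_inj hA h)
    (fun x hx => (rowF_cases hA (AA x)).2 (Or.inr (Or.inl ⟨x, (hX x).1 hx, rfl⟩)))
    (fun x hx => (rowF_cases hA (BB E x)).2 (Or.inr (Or.inr ⟨x, (hX x).1 hx, rfl⟩)))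
    (fun x hx => E_e0 hA ((hX x).1 hx)) (fun x hx => E_gg hA ((hX x).1 hx))
    (fun t ht => by
      rcases (rowF_cases hA t).1 ht with h | ⟨x, hx, h⟩ | ⟨x, hx, h⟩
      · exact Or.inl h
      · exact Or.inr (Or.inl ⟨x, (hX x).2 hx, h⟩)
      · exact Or.inr (Or.inr ⟨x, (hX x).2 hx, h⟩))
    (fun x hx y hy h => AA_inj hA ((hX x).1 hx) ((hX y).1 hy) h)
    (fun x hx y hy h => BB_inj hA ((hX x).1 hx) ((hX y).1 hy) h)
    (fun x hx y hy => AA_ne_BB hA ((hX x).1 hx) ((hX y).1 hy))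
    (fun e he x hx => phi_ne_AA hA he ((hX x).1 hx))
    (fun e he x hx => phi_ne_BB hA he ((hX x).1 hx))
    (fun e f he hf hne h => conf_main hA he hf hne h)
    (fun e f he hf hne h => by
      rcases main_conf hA he hf hne h with h1 | ⟨x, hx, h1⟩
      · exact Or.inl h1
      · exact Or.inr ⟨x, (hX x).2 hx, h1⟩)
    (fun x hx => X_conf hA ((hX x).1 hx))
    (fun e he x hx => ⟨fun h => A_main hA he ((hX x).1 hx) h,
      fun h => B_main hA he ((hX x).1 hx) h⟩)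
    (fun x hx y hy hne => ⟨A_A hA ((hX x).1 hx) ((hX y).1 hy) hne,
      A_B hA ((hX x).1 hx) ((hX y).1 hy) hne, B_B hA ((hX x).1 hx) ((hX y).1 hy) hne⟩) n
  unfold RFree
  constructor
  · rintro ⟨S, ⟨h1, h2⟩, h3⟩
    obtain ⟨S', g1, g2, g3⟩ := key.1 ⟨S, h1, h2, h3⟩
    exact ⟨S', ⟨g1, g2⟩, g3⟩
  · rintro ⟨S, ⟨h1, h2⟩, h3⟩
    obtain ⟨S', g1, g2, g3⟩ := key.2 ⟨S, h1, h2, h3⟩
    exact ⟨S', ⟨g1, g2⟩, g3⟩

end

end Pool.Agent.Lib89.N2
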