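import Mathlib
import Pool.Agent.Lib_helper89.NN.Main
import Pool.Agent.Lib_helper89.N2.CR2
import Pool.Agent.Lib_helper89.N2.GA2
import Pool.Agent.Lib_helper89.N2.RW2

/-! MP_8c0258_lc, block RD2: one round. -/

set_option autoImplicit false

namespace Pool.Agent.Lib89.N2

open Pool.Agent.Lib57 Pool.Agent.Lib89.NN Pool.Agent.Lib89.N2

variable {V C : ℕ} {o : ℕ → ℕ → Bool → Prop}

private theorem mapnn (l : List Bool) : (l.map not).map not = l := by
  rw [List.map_map]
  conv_rhs => rw [← List.map_id l]
  congr 1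
  funext z
  simp

theorem run2_boundary {c : ℕ} (hc : c < C) (b b'' : List Bool) (hb : b.length = 2 * V + 2) :
    Run (2 * V + 2) (RowE2 V C o) (1 + c * (18 * V + 2)) 2 b b'' ↔
      ∃ y : List Bool, b = y ++ [true, false] ∧ b'' = [false, true] ++ y := by
  have e1 : ∀ p < 2 * V + 1 + 1, ∀ q < 2 * V + 1 + 1,
      (RowE2 V C o (1 + c * (18 * V + 2)) p q ↔ q = p + 1) := by
    intro p _ q hq
    rw [rowE2_sh1 hc]
    constructor
    · exact fun h => h.1
    · exact fun h => ⟨h, by omega⟩
  have e2 : ∀ p < 2 * V + 2, ∀ q < 2 * V + 2,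
      (RowE2 V C o (1 + c * (18 * V + 2) + 1) p q ↔ (p = 0 ∧ q = 0) ∨ (1 ≤ p ∧ q = p + 1)) := by
    intro p _ q hq
    have e : 1 + c * (18 * V + 2) + 1 = 2 + c * (18 * V + 2) := by ring
    rw [e, rowE2_sh2 hc]
    constructor
    · rintro (h | h)
      · exact Or.inl h
      · exact Or.inr ⟨h.1, h.2.1⟩
    · rintro (h | h)
      · exact Or.inl h
      · exact Or.inr ⟨h.1, h.2, by omega⟩
  constructor
  · rintro ⟨b', hb', h1, b3, hb3, h2, h3⟩
    have h3' : b'' = b3 := h3
    subst h3'
    obtain ⟨d, hd1, hd2⟩ := (step_shift1 (2 * V + 1) _ b b' (by omega) (by omega) e1).1 h1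
    obtain ⟨x, d', hd3, hd4⟩ := (step_shift2 (2 * V) _ b' b'' (by omega) (by omega) e2).1 h2
    rw [hd2] at hd3
    have hx : true = x := (List.cons.inj hd3).1
    have hd5 : d.map not = d' ++ [false] := (List.cons.inj hd3).2
    have hd6 : d = d'.map not ++ [true] := by
      have h5 := congrArg (List.map not) hd5
      rw [mapnn] at h5
      rw [h5]
      simp
    refine ⟨d'.map not, ?_, ?_⟩
    · rw [hd1, hd6]
      simp
    · rw [hd4, ← hx]
      simp
  · rintro ⟨y, hy1, hy2⟩
    have hyl : y.length = 2 * V := by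
      rw [hy1] at hb
      simp at hb
      omega
    refine ⟨true :: (y ++ [true]).map not, ?_, ?_, b'', ?_, ?_, rfl⟩
    · simp
      omega
    · refine (step_shift1 (2 * V + 1) _ b _ (by omega) ?_ e1).2 ⟨y ++ [true], ?_, rfl⟩
      · simp
        omega
      · rw [hy1]
        simp
    · rw [hy2]
      simp
      omega
    · refine (step_shift2 (2 * V) _ _ b'' ?_ ?_ e2).2 ⟨true, y.map not, ?_, ?_⟩
      · simp
        omega
      · rw [hy2]
        simp
        omega
      · simp
      · rw [hy2, mapnn]
        simp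

private theorem encs_cons (x : Bool) (y : List Bool) : encs (x :: y) = enc x ++ encs y := by
  simp [encs]

private theorem encs_nil : encs [] = [] := rfl

private theorem encs_take_succ {y : List Bool} {j : ℕ} (hj : j < y.length) :
    encs (y.take (j + 1)) = encs (y.take j) ++ enc (y.getD j false) := by
  rw [List.take_succ_eq_append_getElem hj, encs_append, List.getD_eq_getElem _ _ hj, encs_cons,
    encs_nil, List.append_nil]

private theorem encs_drop {y : List Bool} {j : ℕ} (hj : j < y.length) :
    encs (y.drop j) = enc (y.getD j false) ++ encs (y.drop (j + 1)) := by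
  rw [List.drop_eq_getElem_cons hj, encs_cons, List.getD_eq_getElem _ _ hj]

open Classical in
private theorem cross0 {c : ℕ} (hc : c < C) (y : List Bool) (hy : y.length = V) (j : ℕ)
    (hj : j < V) (a : Bool) (b'' : List Bool) :
    Run (2 * V + 2) (RowE2 V C o) (3 + c * (18 * V + 2) + 18 * j) 18
      (encs (y.take j) ++ enc a ++ encs (y.drop j)) b'' ↔
      ∃ s', b'' = encs (y.take j) ++ s'.map not ++ encs (y.drop (j + 1)) ∧
        Loc2 (decide (o c j true)) (decide (o c j false)) 0 6
          ((enc a ++ enc (y.getD j false)).map not) s' := by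
  have hjy : j < y.length := by omega
  have h1 := run2_cross (o := o) hc hj (decide (o c j true)) (decide (o c j false))
    (by simp) (by simp) (encs (y.take j)) (enc a ++ enc (y.getD j false))
    (encs (y.drop (j + 1))) b'' (by rw [length_encs, List.length_take]; omega) (by simp [enc])
    (by rw [length_encs, List.length_drop]; omega)
  have h2 : encs (y.take j) ++ enc a ++ encs (y.drop j) =
      encs (y.take j) ++ (enc a ++ enc (y.getD j false)) ++ encs (y.drop (j + 1)) := by
    rw [encs_drop hjy]
    simp only [List.append_assoc]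
  rw [h2, h1]

/-- one crossing inside a sweep -/
private theorem cross_sound {c : ℕ} (hc : c < C) (y : List Bool) (hy : y.length = V) (j : ℕ)
    (hj : j < V) (a : Bool) (b'' : List Bool)
    (h : Run (2 * V + 2) (RowE2 V C o) (3 + c * (18 * V + 2) + 18 * j) 18
      (encs (y.take j) ++ enc a ++ encs (y.drop j)) b'') :
      ∃ a' : Bool, b'' = encs (y.take (j + 1)) ++ enc a' ++ encs (y.drop (j + 1)) ∧
        (a' = true → a = true ∨ o c j (y.getD j false)) := by
  classical
  have hjy : j < y.length := by omega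
  rw [cross0 hc y hy j hj] at h
  obtain ⟨s', h4, h5⟩ := h
  obtain ⟨a', h6, h7⟩ := loc2_sound _ _ _ _ _ h5
  refine ⟨a', ?_, fun h => ?_⟩
  · rw [h4, h6, mapnn, encs_take_succ hjy]
    simp only [List.append_assoc]
  · rcases h7 h with h8 | ⟨h8, h9⟩ | ⟨h8, h9⟩
    · exact Or.inl h8
    · rw [h9]; exact Or.inr (by simpa using h8)
    · rw [h9]; exact Or.inr (by simpa using h8)

private theorem cross_complete {c : ℕ} (hc : c < C) (y : List Bool) (hy : y.length = V) (j : ℕ)
    (hj : j < V) (a a' : Bool) (h : a' = true ↔ a = true ∨ o c j (y.getD j false)) :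
    Run (2 * V + 2) (RowE2 V C o) (3 + c * (18 * V + 2) + 18 * j) 18
      (encs (y.take j) ++ enc a ++ encs (y.drop j))
      (encs (y.take (j + 1)) ++ enc a' ++ encs (y.drop (j + 1))) := by
  classical
  have hjy : j < y.length := by omega
  rw [cross0 hc y hy j hj]
  refine ⟨(enc (y.getD j false) ++ enc a').map not, ?_, loc2_complete _ _ _ _ _ ?_⟩
  · rw [mapnn, encs_take_succ hjy]
    simp only [List.append_assoc]
  · rw [h]
    cases y.getD j false <;> simp

theorem sweep_sound {c : ℕ} (hc : c < C) (y : List Bool) (hy : y.length = V) (j : ℕ) (hj : j ≤ V)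
    (b'' : List Bool)
    (h : Run (2 * V + 2) (RowE2 V C o) (3 + c * (18 * V + 2)) (18 * j)
      ([false, true] ++ encs y) b'') :
    ∃ a' : Bool, b'' = encs (y.take j) ++ enc a' ++ encs (y.drop j) ∧
      (a' = true → ∃ v < j, o c v (y.getD v false)) := by
  induction j generalizing b'' with
  | zero =>
    refine ⟨false, ?_, by simp⟩
    rw [mul_zero] at h
    have h1 : b'' = [false, true] ++ encs y := h
    rw [h1]
    simp [encs, enc]
  | succ j ih =>
    rw [show 18 * (j + 1) = 18 * j + 18 by omega, run_add] at h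
    obtain ⟨b', h1, h2⟩ := h
    obtain ⟨a, rfl, h3⟩ := ih (by omega) b' h1
    obtain ⟨a', h4, h5⟩ := cross_sound hc y hy j (by omega) a b'' h2
    refine ⟨a', h4, fun h7 => ?_⟩
    rcases h5 h7 with h8 | h8
    · obtain ⟨v, hv, h9⟩ := h3 h8
      exact ⟨v, by omega, h9⟩
    · exact ⟨j, by omega, h8⟩

theorem sweep_complete {c : ℕ} (hc : c < C) (y : List Bool) (hy : y.length = V) (j : ℕ)
    (hj : j ≤ V) (a' : Bool) (ha : a' = true ↔ ∃ v < j, o c v (y.getD v false)) :
    Run (2 * V + 2) (RowE2 V C o) (3 + c * (18 * V + 2)) (18 * j)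
      ([false, true] ++ encs y) (encs (y.take j) ++ enc a' ++ encs (y.drop j)) := by
  classical
  induction j generalizing a' with
  | zero =>
    have h1 : a' = false := by
      cases a'
      · rfl
      · exfalso
        obtain ⟨v, hv, -⟩ := ha.1 rfl
        omega
    subst h1
    rw [mul_zero]
    change _ = _
    simp [encs, enc]
  | succ j ih =>
    rw [show 18 * (j + 1) = 18 * j + 18 by omega, run_add]
    refine ⟨_, ih (by omega) (decide (∃ v < j, o c v (y.getD v false))) (by simp), ?_⟩
    refine cross_complete hc y hy j (by omega) _ a' ?_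
    rw [ha]
    simp only [decide_eq_true_eq]
    constructor
    · rintro ⟨v, hv, h9⟩
      by_cases h10 : v = j
      · exact Or.inr (h10 ▸ h9)
      · exact Or.inl ⟨v, by omega, h9⟩
    · rintro (⟨v, hv, h9⟩ | h9)
      · exact ⟨v, by omega, h9⟩
      · exact ⟨j, by omega, h9⟩

theorem round2_sound {c : ℕ} (hc : c < C) (y : List Bool) (hy : y.length = V) (a : Bool)
    (b'' : List Bool)
    (h : Run (2 * V + 2) (RowE2 V C o) (1 + c * (18 * V + 2)) (18 * V + 2)
      (encs y ++ enc a) b'') :
    a = true ∧ ∃ a' : Bool, b'' = encs y ++ enc a' ∧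
      (a' = true → ∃ v < V, o c v (y.getD v false)) := by
  have e1 : Run (2 * V + 2) (RowE2 V C o) (1 + c * (18 * V + 2)) (2 + 18 * V)
      (encs y ++ enc a) b'' := by
    rw [add_comm 2 (18 * V)]
    exact h
  rw [run_add] at e1
  obtain ⟨b', h1, h2⟩ := e1
  rw [run2_boundary hc _ _ (by rw [List.length_append, length_encs, hy]; simp [enc])] at h1
  obtain ⟨y', h3, rfl⟩ := h1
  have h4 := List.append_inj' h3 (by simp [enc])
  obtain ⟨rfl, h5⟩ := h4
  have h6 : a = true := by
    cases a
    · simp [enc] at h5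
    · rfl
  refine ⟨h6, ?_⟩
  rw [show 1 + c * (18 * V + 2) + 2 = 3 + c * (18 * V + 2) by omega] at h2
  obtain ⟨a', h7, h8⟩ := sweep_sound hc y hy V le_rfl b'' h2
  refine ⟨a', ?_, h8⟩
  rw [h7, ← hy, List.take_length, List.drop_length, encs_nil, List.append_nil]

theorem round2_complete {c : ℕ} (hc : c < C) (y : List Bool) (hy : y.length = V) (a' : Bool)
    (ha : a' = true ↔ ∃ v < V, o c v (y.getD v false)) :
    Run (2 * V + 2) (RowE2 V C o) (1 + c * (18 * V + 2)) (18 * V + 2)
      (encs y ++ enc true) (encs y ++ enc a') := by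
  have e1 : Run (2 * V + 2) (RowE2 V C o) (1 + c * (18 * V + 2)) (2 + 18 * V)
      (encs y ++ enc true) (encs y ++ enc a') := by
    rw [run_add]
    refine ⟨[false, true] ++ encs y, ?_, ?_⟩
    · rw [run2_boundary hc _ _ (by rw [List.length_append, length_encs, hy]; simp [enc])]
      exact ⟨encs y, rfl, rfl⟩
    · rw [show 1 + c * (18 * V + 2) + 2 = 3 + c * (18 * V + 2) by omega]
      have h1 := sweep_complete hc y hy V le_rfl a' ha
      have h2 : encs (y.take V) ++ enc a' ++ encs (y.drop V) = encs y ++ enc a' := by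
        rw [← hy, List.take_length, List.drop_length, encs_nil, List.append_nil]
      rwa [h2] at h1
  rw [add_comm 2 (18 * V)] at e1
  exact e1

end Pool.Agent.Lib89.N2
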