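import Mathlib
import Pool.Agent.Lib_helper89.NN.Main
import Pool.Agent.Lib_helper89.N2.RD2
import Pool.Agent.Lib_helper89.N2.RW2

/-! Block TO2: all rounds and the base graph (adaptation of NN/TO.lean and NN/GR.lean). -/

namespace Pool.Agent.Lib89.N2

open Pool.Agent.Lib57 Pool.Agent.Lib89.NN Pool.Agent.Lib89.N2

variable {V C : ℕ} {o : ℕ → ℕ → Bool → Prop}

private theorem chain2_iff_run :
    (∃ b, Chain2 V C o b) ↔ ∃ y z : List Bool, y.length = V + 1 ∧ z.length = V + 1 ∧
      Run (2 * V + 2) (RowE2 V C o) 1 (C * (18 * V + 2)) (encs y) (encs z) := by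
  have hK : nK V C = 1 + C * (18 * V + 2) := by unfold nK; omega
  have hw0 : wd V C 0 = V + 1 := by simp [wd]
  have hw1 : wd V C (nK V C + 1) = V + 1 := by simp [wd]
  have hw : ∀ r, 1 ≤ r → r ≤ nK V C → wd V C r = 2 * V + 2 := by
    intro r h1 h2
    unfold wd
    rw [if_neg]
    omega
  constructor
  · rintro ⟨b, hlen, hb0, hb1, hst⟩
    have hE0 : ∀ p < V + 1, ∀ q < 2 * (V + 1), (RowE2 V C o 0 p q ↔ q = 2 * p ∨ q = 2 * p + 1) := by
      intro p hp q hq
      rw [rowE2_start]
      exact ⟨fun h => h.2, fun h => ⟨hp, h⟩⟩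
    have hE1 : ∀ p < 2 * (V + 1), ∀ q < V + 1,
        (RowE2 V C o (nK V C) p q ↔ p = 2 * q ∨ p = 2 * q + 1) := by
      intro p hp q hq
      rw [rowE2_end]
      exact ⟨fun h => h.2, fun h => ⟨hq, h⟩⟩
    have hl1 : (b 1).length = 2 * (V + 1) := by
      rw [hlen 1 (by omega), hw 1 le_rfl (by omega)]; ring
    have hlK : (b (nK V C)).length = 2 * (V + 1) := by
      rw [hlen (nK V C) (by omega), hw (nK V C) (by omega) le_rfl]; ring
    have h0 := hst 0 (by omega)
    rw [hb0, hw0, zero_add] at h0
    obtain ⟨y, hy, hby⟩ := (step_start (V + 1) _ (b 1) hl1 hE0).1 h0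
    have h1 := hst (nK V C) (by omega)
    rw [hb1, hw1] at h1
    obtain ⟨z, hz, hbz⟩ := (step_end (V + 1) _ (b (nK V C)) hlK hE1).1 h1
    refine ⟨y, z, hy, hz, ?_⟩
    rw [run_iff_seq]
    refine ⟨b, hby, ?_, fun i hi => ⟨?_, ?_⟩⟩
    · rw [← hK]; exact hbz
    · rw [hlen (1 + i + 1) (by omega), hw (1 + i + 1) (by omega) (by omega)]
    · exact hst (1 + i) (by omega)
  · rintro ⟨y, z, hy, hz, hrun⟩
    rw [run_iff_seq] at hrun
    obtain ⟨β, hβ0, hβ1, hβ⟩ := hrun
    have hlβ : ∀ r, 1 ≤ r → r ≤ nK V C → (β r).length = 2 * V + 2 := by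
      intro r h1 h2
      rcases Nat.lt_or_ge 1 r with h | h
      · have := (hβ (r - 2) (by omega)).1
        have e : 1 + (r - 2) + 1 = r := by omega
        rwa [e] at this
      · have e : r = 1 := by omega
        rw [e, hβ0, length_encs, hy]; ring
    refine ⟨fun r => if r = 0 then List.replicate (V + 1) true else
      if r = nK V C + 1 then List.replicate (V + 1) false else β r, ?_, ?_, ?_, ?_⟩
    · intro r hr
      by_cases h0 : r = 0
      · subst h0; simp [hw0]
      · by_cases h1 : r = nK V C + 1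
        · subst h1; simp [hw1]
        · simp only [h0, h1, if_false]
          rw [hlβ r (by omega) (by omega), hw r (by omega) (by omega)]
    · simp [hw0]
    · simp [hw1]
    · intro r hr
      by_cases h0 : r = 0
      · subst h0
        have e1 : ¬ (0 + 1 = 0) := by omega
        have e2 : ¬ (0 + 1 = nK V C + 1) := by omega
        simp only [if_true, e1, e2, if_false]
        rw [zero_add, hβ0]
        refine (step_start (V + 1) _ (encs y) ?_ ?_).2 ⟨y, hy, rfl⟩
        · rw [length_encs, hy]
        · intro p hp q hq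
          rw [rowE2_start]
          exact ⟨fun h => h.2, fun h => ⟨hp, h⟩⟩
      · by_cases h1 : r = nK V C
        · have e1 : ¬ (r + 1 = 0) := by omega
          have e2 : r + 1 = nK V C + 1 := by omega
          have e3 : ¬ (r = nK V C + 1) := by omega
          simp only [h0, e1, e2, e3, if_true, if_false]
          have e4 : β r = encs z := by rw [h1, hK]; exact hβ1
          rw [e4, h1]
          refine (step_end (V + 1) _ (encs z) ?_ ?_).2 ⟨z, hz, rfl⟩
          · rw [length_encs, hz]
          · intro p hp q hq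
            rw [rowE2_end]
            exact ⟨fun h => h.2, fun h => ⟨hq, h⟩⟩
        · have e1 : ¬ (r + 1 = 0) := by omega
          have e2 : ¬ (r + 1 = nK V C + 1) := by omega
          have e3 : ¬ (r = nK V C + 1) := by omega
          simp only [h0, e1, e2, e3, if_false]
          have := (hβ (r - 1) (by omega)).2
          have e : 1 + (r - 1) = r := by omega
          rwa [e] at this

theorem chain2_iff (hC : 1 ≤ C) :
    (∃ b, Chain2 V C o b) ↔ ∃ y : ℕ → Bool, ∀ c, c + 1 < C → ∃ v < V, o c v (y v) := by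
  classical
  rw [chain2_iff_run]
  constructor
  · rintro ⟨y, z, hy, hz, hrun⟩
    obtain ⟨y', a, rfl⟩ : ∃ y' a, y = y' ++ [a] := by
      have hne : y ≠ [] := by intro h; rw [h] at hy; simp at hy
      exact ⟨y.dropLast, y.getLast hne, (List.dropLast_append_getLast hne).symm⟩
    have hy' : y'.length = V := by
      rw [List.length_append] at hy
      simp at hy
      exact hy
    have hencs : encs (y' ++ [a]) = encs y' ++ enc a := by
      rw [encs_append]; simp [encs]
    rw [hencs] at hrun
    have key : ∀ c, c ≤ C → ∀ b'', Run (2 * V + 2) (RowE2 V C o) 1 (c * (18 * V + 2))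
        (encs y' ++ enc a) b'' → ∃ a' : Bool, b'' = encs y' ++ enc a' ∧
        (∀ c', c' + 1 < c → ∃ v < V, o c' v (y'.getD v false)) ∧
        (a' = true → 1 ≤ c → ∃ v < V, o (c - 1) v (y'.getD v false)) := by
      intro c
      induction c with
      | zero =>
        intro _ b'' h
        rw [Nat.zero_mul] at h
        exact ⟨a, h, fun c' hc' => absurd hc' (by omega), fun _ h1 => absurd h1 (by omega)⟩
      | succ c ih =>
        intro hc b'' h
        have e : (c + 1) * (18 * V + 2) = c * (18 * V + 2) + (18 * V + 2) := by ring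
        rw [e, run_add] at h
        obtain ⟨b', h1, h2⟩ := h
        obtain ⟨a', hb', hcl, hacc⟩ := ih (by omega) b' h1
        rw [hb'] at h2
        obtain ⟨ha', a'', hb'', hcl2⟩ := round2_sound (by omega : c < C) y' hy' a' b'' h2
        refine ⟨a'', hb'', ?_, fun h3 _ => ?_⟩
        · intro c' hc'
          rcases Nat.lt_or_ge (c' + 1) c with h3 | h3
          · exact hcl c' h3
          · have e2 : c' = c - 1 := by omega
            rw [e2]
            exact hacc ha' (by omega)
        · have e3 : c + 1 - 1 = c := by omega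
          rw [e3]
          exact hcl2 h3
    obtain ⟨a', _, hcl, _⟩ := key C le_rfl _ hrun
    exact ⟨fun v => y'.getD v false, hcl⟩
  · rintro ⟨y, hy⟩
    set y' : List Bool := (List.range V).map y with hy'
    have hlen : y'.length = V := by rw [hy', List.length_map, List.length_range]
    have hget : ∀ v < V, y'.getD v false = y v := by
      intro v hv
      rw [List.getD_eq_getElem?_getD, hy']
      simp [hv]
    have key : ∀ c, c ≤ C → ∃ a' : Bool, Run (2 * V + 2) (RowE2 V C o) 1 (c * (18 * V + 2))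
        (encs y' ++ enc true) (encs y' ++ enc a') ∧ (c < C → a' = true) := by
      intro c
      induction c with
      | zero =>
        intro _
        refine ⟨true, ?_, fun _ => rfl⟩
        rw [Nat.zero_mul]
        exact rfl
      | succ c ih =>
        intro hc
        obtain ⟨a', hrun, ha'⟩ := ih (by omega)
        rw [ha' (by omega)] at hrun
        refine ⟨decide (∃ v < V, o c v (y'.getD v false)), ?_, fun hc' => ?_⟩
        · have e : (c + 1) * (18 * V + 2) = c * (18 * V + 2) + (18 * V + 2) := by ring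
          rw [e, run_add]
          refine ⟨_, hrun, ?_⟩
          exact round2_complete (by omega : c < C) y' hlen _ (by simp)
        · rw [decide_eq_true_eq]
          obtain ⟨v, hv, ho⟩ := hy c hc'
          exact ⟨v, hv, by rw [hget v hv]; exact ho⟩
    obtain ⟨a', hrun, _⟩ := key C le_rfl
    have hencs : ∀ a : Bool, encs (y' ++ [a]) = encs y' ++ enc a := by
      intro a
      rw [encs_append]; simp [encs]
    refine ⟨y' ++ [true], y' ++ [a'], ?_, ?_, ?_⟩
    · rw [List.length_append, hlen]; rfl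
    · rw [List.length_append, hlen]; rfl
    · rw [hencs, hencs]
      exact hrun

/-- first vertex of a row, and the number of vertices at the end -/
private def gf (V C r : ℕ) : ℕ := if r ≤ nK V C + 1 then off V r else nV V C

private theorem gf_of_le {r : ℕ} (h : r ≤ nK V C + 1) : gf V C r = off V r := by
  rw [gf, if_pos h]

private theorem one_le_nK : 1 ≤ nK V C := by
  unfold nK
  omega

private theorem off_succ {r : ℕ} (h : r < nK V C + 1) : off V (r + 1) = off V r + wd V C r := by
  unfold off wd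
  rcases Nat.eq_zero_or_pos r with rfl | h0
  · simp
    omega
  · have h1 : ¬ (r = 0 ∨ r = nK V C + 1) := by omega
    rw [if_neg h1]
    obtain ⟨s, rfl⟩ : ∃ s, r = s + 1 := ⟨r - 1, by omega⟩
    have e1 : (s + 1 + 1) * (2 * V + 2) = s * (2 * V + 2) + 2 * (2 * V + 2) := by ring
    have e2 : (s + 1) * (2 * V + 2) = s * (2 * V + 2) + (2 * V + 2) := by ring
    rw [e1, e2]
    generalize s * (2 * V + 2) = t
    omega

private theorem gf_succ {r : ℕ} (h : r ≤ nK V C + 1) : gf V C (r + 1) = gf V C r + wd V C r := by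
  rcases h.lt_or_eq with h1 | rfl
  · rw [gf_of_le h, gf_of_le h1, off_succ h1]
  · rw [gf_of_le le_rfl, gf, if_neg (by omega)]
    unfold nV off wd
    rw [if_pos (Or.inr rfl)]
    have e2 : (nK V C + 1) * (2 * V + 2) = nK V C * (2 * V + 2) + (2 * V + 2) := by ring
    rw [e2]
    generalize nK V C * (2 * V + 2) = t
    omega

private theorem wd_mid {r : ℕ} (h0 : 1 ≤ r) (h : r ≤ nK V C) : wd V C r = 2 * V + 2 := by
  unfold wd
  rw [if_neg (by omega)]

private theorem wd_le (r : ℕ) : wd V C r ≤ 2 * V + 2 := by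
  unfold wd
  split_ifs <;> omega

private theorem row_lt {c : ℕ} (hc : c < C) : c * (18 * V + 2) + (18 * V + 2) + 1 ≤ nK V C := by
  unfold nK
  have h : (c + 1) * (18 * V + 2) ≤ C * (18 * V + 2) := Nat.mul_le_mul_right _ hc
  have e : (c + 1) * (18 * V + 2) = c * (18 * V + 2) + (18 * V + 2) := by ring
  omega

private theorem rowE2_lt (r : ℕ) (hr : r < nK V C + 1) (p q : ℕ) (h : RowE2 V C o r p q) :
    p < wd V C r ∧ q < wd V C (r + 1) := by
  rcases h with ⟨rfl, hp, hq⟩ | ⟨rfl, hq, hp⟩ | ⟨c, hc, h⟩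
  · have h1 : wd V C 0 = V + 1 := by simp [wd]
    rw [h1, wd_mid (by omega) one_le_nK]
    omega
  · have h1 : wd V C (nK V C + 1) = V + 1 := by simp [wd]
    rw [h1, wd_mid one_le_nK le_rfl]
    omega
  · have hn := row_lt (V := V) hc
    rcases h with ⟨rfl, hp, hq⟩ | ⟨rfl, h⟩ | ⟨v, hv, k, hk, h⟩
    · rw [wd_mid (by omega) (by omega), wd_mid (by omega) (by omega)]
      omega
    · rw [wd_mid (by omega) (by omega), wd_mid (by omega) (by omega)]
      omega
    · rcases h with ⟨rfl, h⟩ | ⟨h', hp, hq⟩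
      · rw [wd_mid (by omega) (by omega), wd_mid (by omega) (by omega)]
        rcases h with ⟨h1, h2, -⟩ | ⟨a, ha, b, hb, h1, h2, -⟩
        · omega
        · omega
      · rw [wd_mid (by omega) (by omega), wd_mid (by omega) (by omega)]
        omega

private theorem adj_iff (u v : Fin (nV V C)) (huv : u < v) :
    (baseGraph V C o).Adj u v ↔ ∃ r < nK V C + 1, ∃ p q, (u : ℕ) = gf V C r + p ∧
      (v : ℕ) = gf V C (r + 1) + q ∧ RowE2 V C o r p q := by
  constructor
  · rintro ⟨-, h⟩
    rcases h with ⟨r, hr, p, hp, q, hq, h1, h2, h3⟩ | ⟨r, hr, p, hp, q, hq, h1, h2, h3⟩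
    · exact ⟨r, hr, p, q, by rw [gf_of_le hr.le, h1], by rw [gf_of_le hr, h2], h3⟩
    · exfalso
      have h4 := (rowE2_lt r hr p q h3).1
      have h5 := off_succ hr
      have h6 : (u : ℕ) < v := huv
      omega
  · rintro ⟨r, hr, p, q, h1, h2, h3⟩
    have h4 := rowE2_lt r hr p q h3
    refine ⟨huv.ne, Or.inl ⟨r, hr, p, h4.1.trans_le (wd_le r), q, h4.2.trans_le (wd_le _), ?_, ?_,
      h3⟩⟩
    · rw [h1, gf_of_le hr.le]
    · rw [h2, gf_of_le hr]

theorem base_iff (hC : 1 ≤ C) :
    (∃ M, IsPNM (baseGraph V C o) M) ↔ ∃ y : ℕ → Bool, ∀ c, c + 1 < C → ∃ v < V, o c v (y v) := by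
  rw [← chain2_iff hC]
  constructor
  · rintro ⟨M, hM⟩
    obtain ⟨b, h1, h2, h3, h4⟩ := sem_forward (R := nK V C + 1) (baseGraph V C o) (wd V C)
      (gf V C) (RowE2 V C o) (by rw [gf_of_le (by omega)]; simp [off]) (fun r hr => gf_succ hr)
      (by rw [gf, if_neg (by omega)]) (fun r hr p q h => rowE2_lt r hr p q h)
      (fun u v huv => adj_iff u v huv) M hM
    exact ⟨b, h1, h2, h3, h4⟩
  · rintro ⟨b, h1, h2, h3, h4⟩
    exact sem_backward (R := nK V C + 1) (baseGraph V C o) (wd V C)
      (gf V C) (RowE2 V C o) (by rw [gf_of_le (by omega)]; simp [off]) (fun r hr => gf_succ hr)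
      (by rw [gf, if_neg (by omega)]) (fun r hr p q h => rowE2_lt r hr p q h)
      (fun u v huv => adj_iff u v huv) b h1 h2 h3 h4

end Pool.Agent.Lib89.N2
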