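import Mathlib
import Pool.Agent.Lib_helper89.NN.Main
import Pool.Agent.Lib_helper89.N2.AD

/-! Block XC: the number of points of degree three. -/

namespace Pool.Agent.Lib89.N2

open Pool.Agent.Lib57 Pool.Agent.Lib89.NN Pool.Agent.Lib89.N2

variable {V C : ℕ} {o : ℕ → ℕ → Bool → Prop}

/-- the local points of degree three, as a decidable condition -/
private def cnd (pos neg : Bool) (k : ℕ) (s : Bool) (a : ℕ) : Bool :=
  if s then (List.range 4).any fun b => (List.range 4).any fun b' =>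
      decide (b < b') && decide ((a, b) ∈ gE2 pos neg k) && decide ((a, b') ∈ gE2 pos neg k)
  else (List.range 4).any fun b => (List.range 4).any fun b' =>
      decide (b' < b) && decide ((b, a) ∈ gE2 pos neg k) && decide ((b', a) ∈ gE2 pos neg k)

private theorem cnd_true {pos neg : Bool} {k a : ℕ} :
    cnd pos neg k true a = true ↔ ∃ b < 4, ∃ b' < 4, b < b' ∧ (a, b) ∈ gE2 pos neg k ∧
      (a, b') ∈ gE2 pos neg k := by
  simp [cnd, and_assoc]

private theorem cnd_false {pos neg : Bool} {k a : ℕ} :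
    cnd pos neg k false a = true ↔ ∃ b < 4, ∃ b' < 4, b' < b ∧ (b, a) ∈ gE2 pos neg k ∧
      (b', a) ∈ gE2 pos neg k := by
  simp [cnd, and_assoc]

private def loc (pos neg : Bool) : Finset (ℕ × Bool × ℕ) :=
  ((Finset.range 6) ×ˢ (Finset.univ : Finset Bool) ×ˢ Finset.range 4).filter
    fun t => cnd pos neg t.1 t.2.1 t.2.2 = true

private theorem loc_card (pos neg : Bool) : (loc pos neg).card = 8 := by
  cases pos <;> cases neg <;> decide

private theorem mem_loc {pos neg : Bool} {k a : ℕ} {s : Bool} :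
    (k, s, a) ∈ loc pos neg ↔ k < 6 ∧ a < 4 ∧ cnd pos neg k s a = true := by
  simp [loc, and_assoc]

open Classical in
private noncomputable def ty (o : ℕ → ℕ → Bool → Prop) (c v : ℕ) (s : Bool) : Bool :=
  decide (o c v s)

private theorem ty_iff (c v : ℕ) (s : Bool) : ty o c v s = true ↔ o c v s := by
  simp [ty]

private theorem gRel2_iff {c v k a b : ℕ} :
    gRel2 o c v k a b ↔ (a, b) ∈ gE2 (ty o c v true) (ty o c v false) k := by
  constructor
  · rintro ⟨pos, neg, hp, hn, h⟩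
    have h1 : pos = ty o c v true := by
      rw [Bool.eq_iff_iff, hp, ty_iff]
    have h2 : neg = ty o c v false := by
      rw [Bool.eq_iff_iff, hn, ty_iff]
    rwa [← h1, ← h2]
  · intro h
    exact ⟨_, _, ty_iff _ _ _, ty_iff _ _ _, h⟩

private theorem key {V c c' t t' : ℕ} (ht : t < 18 * V + 2) (ht' : t' < 18 * V + 2)
    (h : c * (18 * V + 2) + t = c' * (18 * V + 2) + t') : c = c' ∧ t = t' := by
  have h1 : (c * (18 * V + 2) + t) / (18 * V + 2) = c := by
    rw [add_comm, Nat.add_mul_div_right _ _ (by omega), Nat.div_eq_of_lt ht, zero_add]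
  have h2 : (c' * (18 * V + 2) + t') / (18 * V + 2) = c' := by
    rw [add_comm, Nat.add_mul_div_right _ _ (by omega), Nat.div_eq_of_lt ht', zero_add]
  have h3 : c = c' := by rw [← h1, ← h2, h]
  subst h3
  exact ⟨rfl, by omega⟩

private theorem no_last {z z' : ℕ} : ¬ RowE2 V C o (nK V C + 1) z z' := by
  rintro (⟨h, _⟩ | ⟨h, _⟩ | ⟨c, hc, ⟨h, _⟩ | ⟨h, _⟩ | ⟨v, hv, k, hk, ⟨h, _⟩ | ⟨h, _⟩⟩⟩)
  · omega
  · omega
  all_goals
    have hm : (c + 1) * (18 * V + 2) ≤ C * (18 * V + 2) := Nat.mul_le_mul_right _ hc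
    rw [add_mul, one_mul] at hm
    unfold nK at h
    omega

private theorem lo_gen {r p q q' : ℕ} (hr : r ≠ 0) (h : RowE2 V C o r p q)
    (h' : RowE2 V C o r p q') (hq : q < q') : ∃ c < C, ∃ v < V, ∃ k < 6, ∃ a < 4,
      r = 4 + c * (18 * V + 2) + 18 * v + 3 * k ∧ p = 2 * v + a ∧
      cnd (ty o c v true) (ty o c v false) k true a = true := by
  rcases h with ⟨h, _⟩ | ⟨h, h1⟩ | ⟨c, hc, ⟨h, h1⟩ | ⟨h, h1⟩ | ⟨v, hv, k, hk, ⟨h, h1⟩ | ⟨h | h, h1⟩⟩⟩
  · exact absurd h hr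
  · subst h
    rw [rowE2_end] at h'
    omega
  · subst h
    rw [rowE2_sh1 hc] at h'
    omega
  · subst h
    rw [rowE2_sh2 hc] at h'
    omega
  · subst h
    rw [rowE2_gen hc hv hk] at h'
    rcases h1 with h1 | ⟨a, ha, b, hb, h1, h2, h3⟩ <;>
      rcases h' with h' | ⟨a', ha', b', hb', h1', h2', h3'⟩
    · omega
    · omega
    · omega
    · have haa : a' = a := by omega
      subst haa
      rw [gRel2_iff] at h3 h3'
      exact ⟨c, hc, v, hv, k, hk, a', ha, rfl, h1, cnd_true.2 ⟨b, hb, b', hb', by omega, h3, h3'⟩⟩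
  · subst h
    rw [rowE2_id1 hc hv hk] at h'
    omega
  · subst h
    rw [rowE2_id2 hc hv hk] at h'
    omega

private theorem hi_gen {r p p' q z : ℕ} (h : RowE2 V C o r p q)
    (h' : RowE2 V C o r p' q) (hq : p' < p) (hz : RowE2 V C o (r + 1) q z) :
    ∃ c < C, ∃ v < V, ∃ k < 6, ∃ a < 4,
      r = 4 + c * (18 * V + 2) + 18 * v + 3 * k ∧ q = 2 * v + a ∧
      cnd (ty o c v true) (ty o c v false) k false a = true := by
  rcases h with ⟨h, h1⟩ | ⟨h, h1⟩ | ⟨c, hc, ⟨h, h1⟩ | ⟨h, h1⟩ | ⟨v, hv, k, hk, ⟨h, h1⟩ | ⟨h | h, h1⟩⟩⟩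
  · subst h
    rw [rowE2_start] at h'
    omega
  · subst h
    exact absurd hz no_last
  · subst h
    rw [rowE2_sh1 hc] at h'
    omega
  · subst h
    rw [rowE2_sh2 hc] at h'
    omega
  · subst h
    rw [rowE2_gen hc hv hk] at h'
    rcases h1 with h1 | ⟨a, ha, b, hb, h1, h2, h3⟩ <;>
      rcases h' with h' | ⟨a', ha', b', hb', h1', h2', h3'⟩
    · omega
    · omega
    · omega
    · have haa : b' = b := by omega
      subst haa
      rw [gRel2_iff] at h3 h3'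
      exact ⟨c, hc, v, hv, k, hk, b', hb, rfl, h2, cnd_false.2 ⟨a, ha, a', ha', by omega, h3, h3'⟩⟩
  · subst h
    rw [rowE2_id1 hc hv hk] at h'
    omega
  · subst h
    rw [rowE2_id2 hc hv hk] at h'
    omega

/-- the position of a local point -/
private def pt (V : ℕ) (t : (_ : ℕ × ℕ) × (ℕ × Bool × ℕ)) : Bool × ℕ × ℕ :=
  (t.2.2.1, 4 + t.1.1 * (18 * V + 2) + 18 * t.1.2 + 3 * t.2.1, 2 * t.1.2 + t.2.2.2)

theorem XL_card (hV : 1 ≤ V) (hC : 1 ≤ C) : ∃ X : Finset (Bool × ℕ × ℕ),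
    (∀ x, x ∈ X ↔ XL (RowE2 V C o) x) ∧ X.card = 8 * (C * V) := by
  classical
  refine ⟨((Finset.range C ×ˢ Finset.range V).sigma fun cv =>
    loc (ty o cv.1 cv.2 true) (ty o cv.1 cv.2 false)).image (pt V), ?_, ?_⟩
  · rintro ⟨s, r, p⟩
    simp only [Finset.mem_image, Finset.mem_sigma, Finset.mem_product, Finset.mem_range]
    constructor
    · rintro ⟨⟨⟨c, v⟩, ⟨k, s', a⟩⟩, ⟨⟨hc, hv⟩, hl⟩, h⟩
      simp only [pt, Prod.mk.injEq] at h
      simp only at hc hv hl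
      rw [mem_loc] at hl
      obtain ⟨hk, ha, hl⟩ := hl
      obtain ⟨rfl, rfl, rfl⟩ := h
      cases s'
      · right
        refine ⟨rfl, ?_⟩
        rw [cnd_false] at hl
        obtain ⟨b, hb, b', hb', hbb, h1, h2⟩ := hl
        have e1 : RowE2 V C o (4 + c * (18 * V + 2) + 18 * v + 3 * k) (2 * v + b) (2 * v + a) :=
          (rowE2_gen hc hv hk _ _).2 (Or.inr ⟨b, hb, a, ha, rfl, rfl, gRel2_iff.2 h1⟩)
        have e2 : RowE2 V C o (4 + c * (18 * V + 2) + 18 * v + 3 * k) (2 * v + b') (2 * v + a) :=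
          (rowE2_gen hc hv hk _ _).2 (Or.inr ⟨b', hb', a, ha, rfl, rfl, gRel2_iff.2 h2⟩)
        refine ⟨⟨2 * v + b, e1, 2 * v + b', by omega, e2⟩, 2 * v + a, ?_⟩
        have e3 : RowE2 V C o (5 + c * (18 * V + 2) + 18 * v + 3 * k) (2 * v + a) (2 * v + a) :=
          (rowE2_id2 hc hv hk _ _).2 ⟨rfl, by omega⟩
        have e4 : 4 + c * (18 * V + 2) + 18 * v + 3 * k + 1 =
          5 + c * (18 * V + 2) + 18 * v + 3 * k := by omega
        show RowE2 V C o (4 + c * (18 * V + 2) + 18 * v + 3 * k + 1) _ _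
        rw [e4]
        exact e3
      · left
        refine ⟨rfl, ?_⟩
        rw [cnd_true] at hl
        obtain ⟨b, hb, b', hb', hbb, h1, h2⟩ := hl
        have e1 : RowE2 V C o (4 + c * (18 * V + 2) + 18 * v + 3 * k) (2 * v + a) (2 * v + b) :=
          (rowE2_gen hc hv hk _ _).2 (Or.inr ⟨a, ha, b, hb, rfl, rfl, gRel2_iff.2 h1⟩)
        have e2 : RowE2 V C o (4 + c * (18 * V + 2) + 18 * v + 3 * k) (2 * v + a) (2 * v + b') :=
          (rowE2_gen hc hv hk _ _).2 (Or.inr ⟨a, ha, b', hb', rfl, rfl, gRel2_iff.2 h2⟩)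
        refine ⟨⟨2 * v + b, e1, 2 * v + b', by omega, e2⟩,
          3 + c * (18 * V + 2) + 18 * v + 3 * k, 2 * v + a, ?_, ?_⟩
        · show 4 + c * (18 * V + 2) + 18 * v + 3 * k = 3 + c * (18 * V + 2) + 18 * v + 3 * k + 1
          omega
        · exact (rowE2_id1 hc hv hk _ _).2 ⟨rfl, by omega⟩
    · rintro (⟨hs, h⟩ | ⟨hs, h⟩)
      · simp only at hs h
        subst hs
        obtain ⟨⟨q, h1, q', hq, h2⟩, r', u, hr, _⟩ := h
        obtain ⟨c, hc, v, hv, k, hk, a, ha, h3, h4, h5⟩ := lo_gen (by omega) h1 h2 hq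
        refine ⟨⟨⟨c, v⟩, ⟨k, true, a⟩⟩, ⟨⟨hc, hv⟩, mem_loc.2 ⟨hk, ha, h5⟩⟩, ?_⟩
        simp only [pt, Prod.mk.injEq]
        exact ⟨trivial, h3.symm, h4.symm⟩
      · simp only at hs h
        subst hs
        obtain ⟨⟨q, h1, q', hq, h2⟩, z, hz⟩ := h
        obtain ⟨c, hc, v, hv, k, hk, a, ha, h3, h4, h5⟩ := hi_gen h1 h2 hq hz
        refine ⟨⟨⟨c, v⟩, ⟨k, false, a⟩⟩, ⟨⟨hc, hv⟩, mem_loc.2 ⟨hk, ha, h5⟩⟩, ?_⟩
        simp only [pt, Prod.mk.injEq]
        exact ⟨trivial, h3.symm, h4.symm⟩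
  · rw [Finset.card_image_of_injOn, Finset.card_sigma]
    · simp only [loc_card, Finset.sum_const, Finset.card_product, Finset.card_range, smul_eq_mul]
      ring
    · rintro ⟨⟨c, v⟩, ⟨k, s, a⟩⟩ h1 ⟨⟨c', v'⟩, ⟨k', s', a'⟩⟩ h2 h
      simp only [Finset.coe_sigma, Set.mem_sigma_iff, Finset.mem_coe, Finset.mem_product,
        Finset.mem_range, mem_loc] at h1 h2
      simp only [pt, Prod.mk.injEq] at h
      obtain ⟨⟨hc, hv⟩, hk, ha, _⟩ := h1
      obtain ⟨⟨hc', hv'⟩, hk', ha', _⟩ := h2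
      obtain ⟨hs, hr, hp⟩ := h
      have hk := key (V := V) (c := c) (c' := c') (t := 18 * v + 3 * k) (t' := 18 * v' + 3 * k')
        (by omega) (by omega) (by omega)
      obtain ⟨hcc, ht⟩ := hk
      have hvv : v = v' := by omega
      have hkk : k = k' := by omega
      have haa : a = a' := by omega
      subst hcc hvv hkk haa hs
      rfl

end Pool.Agent.Lib89.N2
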