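import Mathlib
import Pool.Agent.Lib_helper89.NN.Main
import Pool.Agent.Lib_helper89.N2.RT
import Pool.Agent.Lib_helper89.N2.XC
import Pool.Agent.Lib_helper89.N2.AD
import Pool.Agent.Lib_helper89.N2.GN
import Pool.Agent.Lib_helper89.N2.TO2
import Pool.Agent.Lib_helper89.N2.FO2
import Pool.Agent.Lib_helper36.PolyComp
import Pool.Agent.Lib_helper89.N2.Problem2

/-! NP-hardness for at most two 2-intervals per ground interval. -/

namespace Pool.Agent.Lib89.N2

open Pool.Agent.Lib57 Pool.Agent.Lib89.NN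

/-- the graph of the formula of `x` -/
def YG (D : DCNF) (x : List Bool) : SimpleGraph (Fin (5 * nV (DPhi D x + 1) (DGam D x + 1))) :=
  newGraph (DPhi D x + 1) (DGam D x + 1) (occ D x)

def YA (D : DCNF) (x : List Bool) (u v : ℕ) : Prop :=
  u ≠ v ∧ (DAdjN (DPhi D x + 1) (DGam D x + 1) (occ D x) u v ∨
    DAdjN (DPhi D x + 1) (DGam D x + 1) (occ D x) v u)

variable {D : DCNF}

theorem YG_adj (x : List Bool) (u v : Fin (5 * nV (DPhi D x + 1) (DGam D x + 1))) :
    (YG D x).Adj u v ↔ YA D x u v := by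
  unfold YA
  show (u ≠ v ∧ _) ↔ _
  rw [Ne, Fin.ext_iff]

theorem form_YA (hD : D.Good 5) : IsForm 2 (fun x e => YA D x (e 0) (e 1)) :=
  (IsForm.eq (IsTerm.var (by norm_num)) (IsTerm.var (by norm_num))).not.and
    ((form_DAdjN hD).or ((form_DAdjN hD).rename (fun i => 1 - i) (fun i hi => by omega)))

theorem emit_YG (hD : D.Good 5) (b c : List Bool) :
    IsEmit 0 (fun x _ => (encodeGraph (YG D x)).flatMap fun s => b ++ ([s] ++ c)) := by
  have h1 : IsEmit 2 (fun x e => b ++ ([dec (YA D x (e 0) (e 1))] ++ c)) :=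
    (IsEmit.word b).append ((IsEmit.dec (form_YA hD)).append (IsEmit.word c))
  have h2 := IsEmit.for (term_nV5 hD 0) (IsEmit.for (term_nV5 hD 1) h1)
  refine h2.congr fun x e => ?_
  rw [encodeGraph_eq (YG D x) (YA D x) (YG_adj x)]
  simp [List.flatMap_assoc]

theorem emit_inst (hD : D.Good 5) :
    IsEmit 0 (fun x _ => inst (YG D x) (thr (DPhi D x + 1) (DGam D x + 1))) := by
  have h1 := (emit_YG hD [true, true, true] [true, false]).append ((IsEmit.word [false]).append
    (IsEmit.for (term_thr hD 0) (IsEmit.word (k := 1) [true, true, false])))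
  refine h1.congr fun x e => ?_
  unfold inst
  rw [bitEncode_pair]
  unfold headWord tri
  simp only [List.append_assoc, List.flatMap_replicate]
  congr 1
  congr 1
  generalize thr (DPhi D x + 1) (DGam D x + 1) = n
  induction n with
  | zero => rfl
  | succ n ih =>
    rw [List.range_succ, List.flatMap_append, ih, List.replicate_succ', List.flatten_append]
    simp

theorem nV_eq (V C : ℕ) : nV V C = 2 * ((nK V C + 1) * (V + 1)) := by
  unfold nV
  ring

theorem opt_attained {m : ℕ} (G : SimpleGraph (Fin m)) :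
    ∃ S ⊆ ofGraph G, Comparable S ∧ S.ncard = opt (ofGraph G) := by
  have hb : BddAbove {k | ∃ T ⊆ ofGraph G, Comparable T ∧ T.ncard = k} := by
    refine ⟨m, ?_⟩
    rintro k ⟨T, hT, hc, rfl⟩
    have := comparable_card_le G T hT hc
    omega
  have hne : {k | ∃ T ⊆ ofGraph G, Comparable T ∧ T.ncard = k}.Nonempty :=
    ⟨0, ∅, Set.empty_subset _, fun D hD => absurd hD (Set.notMem_empty D), Set.ncard_empty _⟩
  obtain ⟨T, hT, hc, hk⟩ := Nat.sSup_mem hne hb
  exact ⟨T, hT, hc, hk⟩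

theorem YG_opt (hD : D.Good 5) (x : List Bool) :
    thr (DPhi D x + 1) (DGam D x + 1) ≤ opt (ofGraph (YG D x)) ↔ D.Sat x := by
  have hV : 1 ≤ DPhi D x + 1 := by omega
  have hC : 1 ≤ DGam D x + 1 := by omega
  obtain ⟨X, hX, hcard⟩ := XL_card (o := occ D x) hV hC
  have h1 := rows_transfer (adm_base (o := occ D x) hV hC) X hX
    ((nK (DPhi D x + 1) (DGam D x + 1) + 1) * (DPhi D x + 1 + 1))
  rw [hcard] at h1
  rw [YG, new_opt hV hC, thr, ← h1, ← base_opt hV hC, sat_iff hD]
  have h2 := base_iff (V := DPhi D x + 1) (C := DGam D x + 1) (o := occ D x) hC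
  simp only [Nat.add_lt_add_iff_right] at h2
  rw [← h2, ← comparable_iff, ← opt_iff]
  obtain ⟨S, hS, hc, hk⟩ : ∃ S ⊆ ofGraph (baseGraph (DPhi D x + 1) (DGam D x + 1) (occ D x)),
      Comparable S ∧ S.ncard = opt (ofGraph (baseGraph (DPhi D x + 1) (DGam D x + 1) (occ D x))) :=
    opt_attained _
  have h3 := comparable_card_le _ S hS hc
  have h4 := nV_eq (DPhi D x + 1) (DGam D x + 1)
  omega

theorem YG_sparse (x : List Bool) : Sparse2 (YG D x) :=
  ⟨ofGraph_disjointGround _, ofGraph_ground_deg _ (new_deg (by omega) (by omega))⟩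

/-- NP-hardness on sparse instances. -/
theorem hard2 (B : N68a2faeb.DecisionProblem) (hB : B ∈ N68a2faeb.NP) :
    ∃ f : List Bool → List Bool, N68a2faeb.IsPolyTime f ∧
      ∀ x, ∃ (m k : ℕ) (G : SimpleGraph (Fin m)), f x = inst G k ∧ Sparse2 G ∧
        (B x = true ↔ k ≤ opt (ofGraph G)) := by
  obtain ⟨D, hD, hDS⟩ := cook_levin B hB
  refine ⟨fun x => inst (YG D x) (thr (DPhi D x + 1) (DGam D x + 1)), ?_, fun x => ?_⟩
  · exact isPolyTime_of_isEmit (emit_inst hD)
  · refine ⟨_, _, YG D x, rfl, YG_sparse x, ?_⟩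
    rw [YG_opt hD]
    exact hDS x

/-- A polynomial-time decision procedure on sparse instances gives `NP ⊆ P`. -/
theorem collapse2 (A : N68a2faeb.DecisionProblem) (hA : A ∈ N68a2faeb.P)
    (h : ∀ (m k : ℕ) (G : SimpleGraph (Fin m)), Sparse2 G →
      (A (inst G k) = true ↔ k ≤ opt (ofGraph G))) : N68a2faeb.NP ⊆ N68a2faeb.P := by
  intro B hB
  obtain ⟨f, hf, hfx⟩ := hard2 B hB
  refine Pool.Agent.Lib_helper36.TMComp.mem_P_of_reduction hf hA fun x => ?_
  obtain ⟨m, k, G, h1, h2, h3⟩ := hfx x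
  rw [h1, Bool.eq_iff_iff, h3, h m k G h2]

end Pool.Agent.Lib89.N2
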